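import Mathlib
set_option autoImplicit false

namespace Pool.Agent.Helper25.HFH

open Finset

/-! ### Counting -/

open Classical in
/-- The number of elements of `A` below `N`. -/
noncomputable def cnt (A : Set ℕ) (N : ℕ) : ℕ := ((range N).filter (· ∈ A)).card

open Classical in
/-- The number of elements of `A` in `[a, b)`. -/
noncomputable def cntI (A : Set ℕ) (a b : ℕ) : ℕ := ((Ico a b).filter (· ∈ A)).card

theorem cnt_zero (A : Set ℕ) : cnt A 0 = 0 := by simp [cnt]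

theorem cnt_add (A : Set ℕ) {a b : ℕ} (h : a ≤ b) : cnt A b = cnt A a + cntI A a b := by
  classical
  unfold cnt cntI
  rw [range_eq_Ico, range_eq_Ico, ← Ico_union_Ico_eq_Ico (Nat.zero_le a) h, filter_union,
    card_union_of_disjoint]
  exact disjoint_filter_filter (Ico_disjoint_Ico_consecutive 0 a b)

theorem cntI_add (A : Set ℕ) {a b c : ℕ} (h : a ≤ b) (h' : b ≤ c) :
    cntI A a c = cntI A a b + cntI A b c := by
  have h1 := cnt_add A h
  have h2 := cnt_add A h'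
  have h3 := cnt_add A (h.trans h')
  omega

theorem cntI_le (A : Set ℕ) (a b : ℕ) : cntI A a b ≤ b - a := by
  classical
  unfold cntI
  refine (card_filter_le _ _).trans ?_
  rw [Nat.card_Ico]

theorem cnt_le (A : Set ℕ) (N : ℕ) : cnt A N ≤ N := by
  classical
  unfold cnt
  refine (card_filter_le _ _).trans ?_
  rw [card_range]

theorem cntI_mono_set {A B : Set ℕ} {a b : ℕ} (h : ∀ n, a ≤ n → n < b → n ∈ A → n ∈ B) :
    cntI A a b ≤ cntI B a b := by
  classical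
  unfold cntI
  apply card_le_card
  intro n hn
  rw [mem_filter, mem_Ico] at hn ⊢
  exact ⟨hn.1, h n hn.1.1 hn.1.2 hn.2⟩

theorem cnt_mono (A : Set ℕ) {a b : ℕ} (h : a ≤ b) : cnt A a ≤ cnt A b := by
  rw [cnt_add A h]; omega

theorem cntI_succ (A : Set ℕ) (a : ℕ) [Decidable (a ∈ A)] :
    cntI A a (a + 1) = if a ∈ A then 1 else 0 := by
  classical
  unfold cntI
  rw [Nat.Ico_succ_singleton, filter_singleton]
  split_ifs <;> simp

/-- Thinning of a set: a `G`-separated subset with at least `1/G` of the elements. -/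
theorem thin (A : Set ℕ) (G : ℕ) (hG : 0 < G) : ∃ A' ⊆ A,
    (∀ n ∈ A', ∀ m ∈ A', m < n → G ≤ n - m) ∧ ∀ N, cnt A N ≤ G * cnt A' N := by
  classical
  set A' : Set ℕ := {n | n ∈ A ∧ G ∣ cnt A n} with hA'
  refine ⟨A', fun n hn => hn.1, ?_, ?_⟩
  · intro n hn m hm hmn
    have h1 : cnt A (m + 1) = cnt A m + 1 := by
      rw [cnt_add A (Nat.le_succ m), cntI_succ, if_pos hm.1]
    have h2 : cnt A n = cnt A (m + 1) + cntI A (m + 1) n := cnt_add A hmn
    have h3 := cntI_le A (m + 1) n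
    obtain ⟨u, hu⟩ := hm.2
    obtain ⟨v, hv⟩ := hn.2
    have h4 : G * u < G * v := by omega
    have h5 : u < v := lt_of_mul_lt_mul_left h4 (Nat.zero_le G)
    have h6 : G * (u + 1) ≤ G * v := Nat.mul_le_mul_left G h5
    have h7 : G * (u + 1) = G * u + G := by ring
    omega
  · have key : ∀ N, cnt A N ≤ G * cnt A' N ∧ G * cnt A' N < cnt A N + G := by
      intro N
      induction N with
      | zero => simp [cnt_zero, hG]
      | succ N ih =>
        have e1 := cnt_add A (Nat.le_succ N)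
        have e2 := cnt_add A' (Nat.le_succ N)
        rw [Nat.succ_eq_add_one, cntI_succ] at e1 e2
        by_cases hN : N ∈ A
        · by_cases hd : G ∣ cnt A N
          · have hN' : N ∈ A' := ⟨hN, hd⟩
            rw [if_pos hN] at e1
            rw [if_pos hN'] at e2
            obtain ⟨u, hu⟩ := hd
            have h5 : cnt A' N = u := by
              rw [hu] at ih
              have h6 : u ≤ cnt A' N := le_of_mul_le_mul_left ih.1 hG
              have h7 : G * cnt A' N < G * (u + 1) := by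
                have : G * (u + 1) = G * u + G := by ring
                omega
              have h8 := lt_of_mul_lt_mul_left h7 (Nat.zero_le G)
              omega
            rw [e1, e2, h5, hu]
            have : G * (u + 1) = G * u + G := by ring
            omega
          · have hN' : N ∉ A' := fun h => hd h.2
            rw [if_pos hN] at e1
            rw [if_neg hN', add_zero] at e2
            have h9 : cnt A N ≠ G * cnt A' N := fun h => hd ⟨_, h⟩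
            rw [e1, e2]
            omega
        · have hN' : N ∉ A' := fun h => hN h.1
          rw [if_neg hN, add_zero] at e1
          rw [if_neg hN', add_zero] at e2
          rw [e1, e2]
          exact ih
    exact fun N => (key N).1

/-! ### Scales and cells -/

/-- The scales `L_i = 4^(i²)`. -/
def LL (i : ℕ) : ℕ := 4 ^ (i ^ 2)

theorem LL_pos (i : ℕ) : 0 < LL i := by unfold LL; positivity

theorem LL_succ (i : ℕ) : LL (i + 1) = 4 * (LL i * (4 ^ i) ^ 2) := by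
  unfold LL
  rw [← pow_mul, ← pow_add, ← pow_succ']
  congr 1; ring

theorem LL_mono {i j : ℕ} (h : i ≤ j) : LL i ≤ LL j := by
  unfold LL
  exact Nat.pow_le_pow_right (by norm_num) (Nat.pow_le_pow_left h 2)

/-- The number of elements of `A` in the cell `(i, j)`. -/
noncomputable def cc (A : Set ℕ) (i j : ℕ) : ℕ :=
  cntI A (LL i * j ^ 2) (LL i * (j + 1) ^ 2 - 2 * LL i)

theorem cell_bounds (i : ℕ) {j : ℕ} (hj : 1 ≤ j) :
    LL i * j ^ 2 ≤ LL i * (j + 1) ^ 2 - 2 * LL i ∧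
    LL i * (j + 1) ^ 2 - 2 * LL i + 2 * LL i = LL i * (j + 1) ^ 2 := by
  have h1 : LL i * (j + 1) ^ 2 = LL i * j ^ 2 + LL i * (2 * j + 1) := by ring
  have h2 : LL i * 3 ≤ LL i * (2 * j + 1) := Nat.mul_le_mul_left _ (by omega)
  omega

theorem cc_le (A : Set ℕ) (i : ℕ) {j J : ℕ} (hj : j < J) : cc A i j ≤ 2 * J * LL i := by
  unfold cc
  refine (cntI_le _ _ _).trans ?_
  have h1 : LL i * (j + 1) ^ 2 = LL i * j ^ 2 + LL i * (2 * j + 1) := by ring
  have h2 : LL i * (2 * j + 1) ≤ LL i * (2 * J) := Nat.mul_le_mul_left _ (by omega)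
  have h3 : LL i * (2 * J) = 2 * J * LL i := by ring
  omega

/-- Upper bound of a counting function by the cells. -/
theorem cnt_le_cells (A : Set ℕ) (i : ℕ) {J0 : ℕ} (hJ0 : 1 ≤ J0) (d : ℕ) :
    cnt A (LL i * (J0 + d) ^ 2) ≤ LL i * J0 ^ 2 + ∑ j ∈ Ico J0 (J0 + d), cc A i j + 2 * LL i * d := by
  induction d with
  | zero => simpa using cnt_le A _
  | succ d ih =>
    obtain ⟨h1, h2⟩ := cell_bounds i (j := J0 + d) (by omega)
    have h3 := cnt_add A (a := LL i * (J0 + d) ^ 2) (b := LL i * (J0 + d + 1) ^ 2) (by omega)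
    have h4 := cntI_add A h1 (c := LL i * (J0 + d + 1) ^ 2) (by omega)
    have h5 := cntI_le A (LL i * (J0 + d + 1) ^ 2 - 2 * LL i) (LL i * (J0 + d + 1) ^ 2)
    have h6 : ∑ j ∈ Ico J0 (J0 + (d + 1)), cc A i j = ∑ j ∈ Ico J0 (J0 + d), cc A i j + cc A i (J0 + d) := by
      rw [← add_assoc, sum_Ico_succ_top (by omega)]
    rw [h6, ← add_assoc, h3, h4]
    have h7 : cc A i (J0 + d) = cntI A (LL i * (J0 + d) ^ 2) (LL i * (J0 + d + 1) ^ 2 - 2 * LL i) := rfl
    have h8 : 2 * LL i * (d + 1) = 2 * LL i * d + 2 * LL i := by ring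
    omega

/-- Lower bound of a counting function by some cells. -/
theorem cells_le_cnt (A E : Set ℕ) (i : ℕ) (S : Finset ℕ)
    (hS : ∀ j ∈ S, ∀ n, LL i * j ^ 2 ≤ n → n < LL i * (j + 1) ^ 2 - 2 * LL i → n ∈ A → n ∈ E) (J : ℕ) :
    ∑ j ∈ (Ico 1 J).filter (· ∈ S), cc A i j ≤ cnt E (LL i * J ^ 2) := by
  classical
  induction J with
  | zero => simp
  | succ J ih =>
    rcases Nat.eq_zero_or_pos J with rfl | hJ
    · simp
    have hins : Ico 1 (J + 1) = insert J (Ico 1 J) := by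
      ext x
      simp only [mem_Ico, mem_insert]
      omega
    rw [hins, filter_insert]
    obtain ⟨h1, h2⟩ := cell_bounds i (j := J) hJ
    have h7 : cc A i J = cntI A (LL i * J ^ 2) (LL i * (J + 1) ^ 2 - 2 * LL i) := rfl
    have h3 := cnt_add E (a := LL i * J ^ 2) (b := LL i * (J + 1) ^ 2) (by omega)
    have h4 := cntI_add E h1 (c := LL i * (J + 1) ^ 2) (by omega)
    by_cases hJS : J ∈ S
    · rw [if_pos hJS, sum_insert (by simp)]
      have h5 : cc A i J ≤ cntI E (LL i * J ^ 2) (LL i * (J + 1) ^ 2 - 2 * LL i) :=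
        cntI_mono_set (hS J hJS)
      omega
    · rw [if_neg hJS]
      omega



theorem LL_gt (i : ℕ) : i < LL i := by
  unfold LL
  calc i ≤ i ^ 2 := by nlinarith [Nat.zero_le i, Nat.le_self_pow (n := 2) (by norm_num) i]
    _ < 4 ^ (i ^ 2) := Nat.lt_pow_self (by norm_num)

theorem cell_sep {i i' j j' n m : ℕ} (hj : 2 ≤ j) (hj4 : j + 1 ≤ 4 ^ i) (hj' : 2 ≤ j')
    (hj4' : j' + 1 ≤ 4 ^ i') (hn1 : LL i * j ^ 2 ≤ n) (hn2 : n < LL i * (j + 1) ^ 2 - 2 * LL i)
    (hm1 : LL i' * j' ^ 2 ≤ m) (hm2 : m < LL i' * (j' + 1) ^ 2 - 2 * LL i') (hmn : m ≤ n) :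
    ((i = i' ∧ j = j') ∨ (i' ≤ i ∧ 2 * LL i < n - m)) := by
  have a1 : LL i' * (j' + 1) ^ 2 ≤ LL i' * (4 ^ i') ^ 2 :=
    Nat.mul_le_mul_left _ (Nat.pow_le_pow_left hj4' 2)
  have a2 : LL i * (j + 1) ^ 2 ≤ LL i * (4 ^ i) ^ 2 :=
    Nat.mul_le_mul_left _ (Nat.pow_le_pow_left hj4 2)
  have a3 : LL i * 2 ^ 2 ≤ LL i * j ^ 2 := Nat.mul_le_mul_left _ (Nat.pow_le_pow_left hj 2)
  have a4 : LL i' * 2 ^ 2 ≤ LL i' * j' ^ 2 := Nat.mul_le_mul_left _ (Nat.pow_le_pow_left hj' 2)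
  have b1 := LL_succ i
  have b2 := LL_succ i'
  rcases lt_trichotomy i' i with h | h | h
  · right
    have := LL_mono (i := i' + 1) (j := i) h
    have := LL_pos i
    refine ⟨h.le, ?_⟩
    omega
  · subst h
    rcases lt_trichotomy j' j with h | h | h
    · right
      have a5 : LL i' * (j' + 1) ^ 2 ≤ LL i' * j ^ 2 :=
        Nat.mul_le_mul_left _ (Nat.pow_le_pow_left h 2)
      refine ⟨le_rfl, ?_⟩
      omega
    · left; exact ⟨rfl, h.symm⟩
    · exfalso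
      have a5 : LL i' * (j + 1) ^ 2 ≤ LL i' * j' ^ 2 :=
        Nat.mul_le_mul_left _ (Nat.pow_le_pow_left h 2)
      omega
  · exfalso
    have := LL_mono (i := i + 1) (j := i') h
    omega

theorem cell_top {i j n : ℕ} (hj4 : j + 1 ≤ 4 ^ i) (hn2 : n < LL i * (j + 1) ^ 2 - 2 * LL i) :
    4 * n < LL (i + 1) := by
  have a2 : LL i * (j + 1) ^ 2 ≤ LL i * (4 ^ i) ^ 2 :=
    Nat.mul_le_mul_left _ (Nat.pow_le_pow_left hj4 2)
  have b1 := LL_succ i
  omega

theorem cell_bot {i j n : ℕ} (hj : 2 ≤ j) (hn1 : LL i * j ^ 2 ≤ n) : 4 * LL i ≤ n := by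
  have a3 : LL i * 2 ^ 2 ≤ LL i * j ^ 2 := Nat.mul_le_mul_left _ (Nat.pow_le_pow_left hj 2)
  omega

/-- Good times are frequent. -/
theorem good_time (q κ0 i0 N : ℕ) (hq : 1 ≤ q) (hκ0 : 1 ≤ κ0) (h0 : κ0 * q ≤ 4 ^ i0)
    (hN : LL i0 * (κ0 * q) ^ 2 ≤ N) :
    ∃ i κ, i0 ≤ i ∧ κ0 ≤ κ ∧ κ * q ≤ 4 ^ i ∧ LL i * (κ * q) ^ 2 ≤ N ∧
      N ≤ 16 * (κ0 * q) ^ 2 * (LL i * (κ * q) ^ 2) := by
  classical
  have hκq : 1 ≤ κ0 * q := Nat.mul_pos hκ0 hq
  have hex : ∃ i, N < LL i * (κ0 * q) ^ 2 := by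
    refine ⟨N, (LL_gt N).trans_le ?_⟩
    exact Nat.le_mul_of_pos_right _ (by positivity)
  have hi1 := Nat.find_spec hex
  set i1 := Nat.find hex with hi1def
  have hi01 : i0 < i1 := by
    by_contra hcon
    have := Nat.mul_le_mul_right ((κ0 * q) ^ 2) (LL_mono (not_lt.mp hcon))
    omega
  obtain ⟨i, hi⟩ : ∃ i, i1 = i + 1 := ⟨i1 - 1, by omega⟩
  have hi2 : LL i * (κ0 * q) ^ 2 ≤ N := by
    by_contra hcon
    exact Nat.find_min hex (m := i) (by omega) (not_le.mp hcon)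
  have hi0 : i0 ≤ i := by omega
  have h04 : κ0 * q ≤ 4 ^ i := h0.trans (Nat.pow_le_pow_right (by norm_num) hi0)
  have hex2 : ∃ κ, ¬ (κ * q ≤ 4 ^ i ∧ LL i * (κ * q) ^ 2 ≤ N) := by
    refine ⟨4 ^ i + 1, fun h => ?_⟩
    have := Nat.le_mul_of_pos_right (4 ^ i + 1) hq
    omega
  have hκ1 := Nat.find_spec hex2
  set κ1 := Nat.find hex2 with hκ1def
  have hκ01 : κ0 < κ1 := by
    by_contra hcon
    apply hκ1
    have h1 : κ1 * q ≤ κ0 * q := Nat.mul_le_mul_right q (not_lt.mp hcon)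
    exact ⟨h1.trans h04, (Nat.mul_le_mul_left _ (Nat.pow_le_pow_left h1 2)).trans hi2⟩
  obtain ⟨κ, hκ⟩ : ∃ κ, κ1 = κ + 1 := ⟨κ1 - 1, by omega⟩
  have hκ2 : κ * q ≤ 4 ^ i ∧ LL i * (κ * q) ^ 2 ≤ N := by
    by_contra hcon
    exact Nat.find_min hex2 (m := κ) (by omega) hcon
  refine ⟨i, κ, hi0, by omega, hκ2.1, hκ2.2, ?_⟩
  rw [hκ] at hκ1
  rw [hi] at hi1
  have h5 : LL i * ((κ + 1) * q) ^ 2 ≤ 4 * (LL i * (κ * q) ^ 2) := by
    have : (κ + 1) * q ≤ 2 * (κ * q) := by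
      have : κ + 1 ≤ 2 * κ := by omega
      calc (κ + 1) * q ≤ (2 * κ) * q := Nat.mul_le_mul_right q this
        _ = 2 * (κ * q) := by ring
    calc LL i * ((κ + 1) * q) ^ 2 ≤ LL i * (2 * (κ * q)) ^ 2 :=
          Nat.mul_le_mul_left _ (Nat.pow_le_pow_left this 2)
      _ = 4 * (LL i * (κ * q) ^ 2) := by ring
  by_cases hc : (κ + 1) * q ≤ 4 ^ i
  · have h6 : N < LL i * ((κ + 1) * q) ^ 2 := by
      by_contra hcon
      exact hκ1 ⟨hc, not_lt.mp hcon⟩
    have h7 : 1 * (LL i * (κ * q) ^ 2) ≤ (κ0 * q) ^ 2 * (LL i * (κ * q) ^ 2) :=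
      Nat.mul_le_mul_right _ (Nat.one_le_pow _ _ hκq)
    have h8 : 16 * (κ0 * q) ^ 2 * (LL i * (κ * q) ^ 2) = 16 * ((κ0 * q) ^ 2 * (LL i * (κ * q) ^ 2)) := by
      ring
    omega
  · have h6 : LL i * (4 ^ i) ^ 2 ≤ LL i * ((κ + 1) * q) ^ 2 :=
      Nat.mul_le_mul_left _ (Nat.pow_le_pow_left (not_le.mp hc).le 2)
    have h7 : LL (i + 1) ≤ 16 * (LL i * (κ * q) ^ 2) := by
      have := LL_succ i
      omega
    calc N ≤ LL (i + 1) * (κ0 * q) ^ 2 := hi1.le
      _ ≤ 16 * (LL i * (κ * q) ^ 2) * (κ0 * q) ^ 2 := Nat.mul_le_mul_right _ h7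
      _ = 16 * (κ0 * q) ^ 2 * (LL i * (κ * q) ^ 2) := by ring

theorem sum_inv_q (q : ℕ → ℕ) (hq0 : ∀ l, 0 < q l) (hq : ∀ l, 2 * q l ≤ q (l + 1)) (l d : ℕ) :
    ∑ l' ∈ Ioc l (l + 1 + d), (1 : ℝ) / q l' ≤ 2 / q (l + 1) - 1 / q (l + 1 + d) := by
  induction d with
  | zero =>
    have : Ioc l (l + 1 + 0) = {l + 1} := by ext x; simp only [mem_Ioc, mem_singleton]; omega
    rw [this, sum_singleton, add_zero]
    have : (2 : ℝ) / q (l + 1) = 1 / q (l + 1) + 1 / q (l + 1) := by ring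
    rw [this]; linarith
  | succ d ih =>
    have : Ioc l (l + 1 + (d + 1)) = insert (l + 1 + d + 1) (Ioc l (l + 1 + d)) := by
      ext x; simp only [mem_Ioc, mem_insert]; omega
    rw [this, sum_insert (by simp), ← add_assoc (l + 1) d 1]
    have h1 : (0 : ℝ) < q (l + 1 + d) := by exact_mod_cast hq0 _
    have h2 : (0 : ℝ) < q (l + 1 + d + 1) := by exact_mod_cast hq0 _
    have h3 : (2 : ℝ) * q (l + 1 + d) ≤ q (l + 1 + d + 1) := by exact_mod_cast hq _
    have h4 : 2 * ((1 : ℝ) / q (l + 1 + d + 1)) ≤ 1 / q (l + 1 + d) := by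
      rw [mul_one_div, div_le_div_iff₀ h2 h1]
      linarith
    linarith

end Pool.Agent.Helper25.HFH
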