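import Pool.Agent.Helper25.HFHComb1
set_option autoImplicit false

namespace Pool.Agent.Helper25.HFH

open Finset

/-- The cell `(i, j)` is a candidate for the index `l`. -/
def CC (q k0 i0 : ℕ → ℕ) (jst : ℕ → ℕ → ℕ → ℕ) (l i j : ℕ) : Prop :=
  i0 l ≤ i ∧ ∃ k, k0 l ≤ k ∧ (k + 1) * q l ≤ 4 ^ i ∧ j = jst l i k

/-- The set selected for the index `l`. -/
def EE (A : ℕ → Set ℕ) (q k0 i0 : ℕ → ℕ) (jst : ℕ → ℕ → ℕ → ℕ) (l : ℕ) : Set ℕ :=
  {n | n ∈ A l ∧ ∃ i j, LL i * j ^ 2 ≤ n ∧ n < LL i * (j + 1) ^ 2 - 2 * LL i ∧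
    CC q k0 i0 jst l i j ∧ ∀ l', l < l' → ¬ CC q k0 i0 jst l' i j}

variable {A : ℕ → Set ℕ} {q k0 i0 : ℕ → ℕ} {jst : ℕ → ℕ → ℕ → ℕ}

theorem CC_bounds (hq0 : ∀ l, 1 ≤ q l) (hk0 : ∀ l, 2 ≤ k0 l)
    (hj1 : ∀ l i k, k * q l ≤ jst l i k ∧ jst l i k < (k + 1) * q l) {l i j : ℕ}
    (h : CC q k0 i0 jst l i j) : 2 ≤ j ∧ j + 1 ≤ 4 ^ i := by
  obtain ⟨-, k, hk, hk4, rfl⟩ := h
  obtain ⟨h1, h2⟩ := hj1 l i k
  have h3 : k * 1 ≤ k * q l := Nat.mul_le_mul_left k (hq0 l)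
  have := hk0 l
  omega

theorem card_CC (hq0 : ∀ l, 1 ≤ q l) (hk0 : ∀ l, 2 ≤ k0 l)
    (hj1 : ∀ l i k, k * q l ≤ jst l i k ∧ jst l i k < (k + 1) * q l) (l i J : ℕ) 
    [DecidablePred (CC q k0 i0 jst l i)] :
    ((Ico 1 J).filter (CC q k0 i0 jst l i)).card * q l ≤ J := by
  classical
  have hq : 0 < q l := hq0 l
  have key : ((Ico 1 J).filter (CC q k0 i0 jst l i)).card ≤ (Ico 1 ((J - 1) / q l + 1)).card := by
    apply card_le_card_of_injOn (fun j => j / q l)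
    · intro j hj
      simp only [coe_filter, mem_Ico, Set.mem_ofPred_eq] at hj
      obtain ⟨⟨h1, h2⟩, -, k, hk, hk4, rfl⟩ := hj
      obtain ⟨h3, h4⟩ := hj1 l i k
      simp only [coe_Ico, Set.mem_Ico]
      have h5 : k ≤ jst l i k / q l := (Nat.le_div_iff_mul_le hq).mpr h3
      have h6 : jst l i k / q l ≤ (J - 1) / q l := Nat.div_le_div_right (by omega)
      have := hk0 l
      omega
    · intro j hj j' hj' hjj
      simp only [coe_filter, mem_Ico, Set.mem_ofPred_eq] at hj hj'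
      obtain ⟨⟨h1, h2⟩, -, k, hk, hk4, rfl⟩ := hj
      obtain ⟨⟨h1', h2'⟩, -, k', hk', hk4', rfl⟩ := hj'
      have e : ∀ k, jst l i k / q l = k := by
        intro k
        obtain ⟨h3, h4⟩ := hj1 l i k
        apply Nat.div_eq_of_lt_le h3
        exact h4
      simp only [e] at hjj
      rw [hjj]
  rw [Nat.card_Ico, Nat.add_sub_cancel] at key
  calc _ ≤ (J - 1) / q l * q l := Nat.mul_le_mul_right _ key
    _ ≤ J - 1 := Nat.div_mul_le_self _ _
    _ ≤ J := Nat.sub_le _ _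

theorem sum_jst (hj1 : ∀ l i k, k * q l ≤ jst l i k ∧ jst l i k < (k + 1) * q l)
    (hj2 : ∀ l i k j', k * q l ≤ j' → j' < (k + 1) * q l → cc (A l) i j' ≤ cc (A l) i (jst l i k))
    (l i : ℕ) (hi : i0 l ≤ i) [DecidablePred (CC q k0 i0 jst l i)] (d : ℕ)
    (hd : (k0 l + d) * q l ≤ 4 ^ i) :
    ∑ j ∈ Ico (k0 l * q l) ((k0 l + d) * q l), cc (A l) i j ≤
      q l * ∑ j ∈ (Ico (k0 l * q l) ((k0 l + d) * q l)).filter (CC q k0 i0 jst l i), cc (A l) i j := by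
  classical
  induction d with
  | zero => simp
  | succ d ih =>
    have h0 : (k0 l + d) * q l ≤ (k0 l + (d + 1)) * q l := Nat.mul_le_mul_right _ (by omega)
    have ih' := ih (h0.trans hd)
    have h1 : k0 l * q l ≤ (k0 l + d) * q l := Nat.mul_le_mul_right _ (by omega)
    rw [← Ico_union_Ico_eq_Ico h1 h0, sum_union (Ico_disjoint_Ico_consecutive _ _ _), filter_union,
      sum_union (disjoint_filter_filter (Ico_disjoint_Ico_consecutive _ _ _)), mul_add]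
    apply add_le_add ih'
    obtain ⟨h3, h4⟩ := hj1 l i (k0 l + d)
    have h5 : ∑ j ∈ Ico ((k0 l + d) * q l) ((k0 l + (d + 1)) * q l), cc (A l) i j ≤
        q l * cc (A l) i (jst l i (k0 l + d)) := by
      have h6 : (Ico ((k0 l + d) * q l) ((k0 l + (d + 1)) * q l)).card = q l := by
        rw [Nat.card_Ico]
        have : (k0 l + (d + 1)) * q l = (k0 l + d) * q l + q l := by ring
        omega
      calc _ ≤ (Ico ((k0 l + d) * q l) ((k0 l + (d + 1)) * q l)).card • cc (A l) i (jst l i (k0 l + d)) := by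
            apply sum_le_card_nsmul
            intro j hj
            rw [mem_Ico] at hj
            exact hj2 l i (k0 l + d) j hj.1 hj.2
        _ = _ := by rw [h6, smul_eq_mul]
    refine h5.trans (Nat.mul_le_mul_left _ ?_)
    apply single_le_sum (f := fun j => cc (A l) i j) (fun _ _ => Nat.zero_le _)
    rw [mem_filter, mem_Ico]
    exact ⟨⟨h3, h4⟩, hi, k0 l + d, by omega, hd, rfl⟩

theorem my_sum_biUnion_le {ι κ : Type*} [DecidableEq ι] [DecidableEq κ] (s : Finset ι) (t : ι → Finset κ)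
    (f : κ → ℕ) : ∑ j ∈ s.biUnion t, f j ≤ ∑ i ∈ s, ∑ j ∈ t i, f j := by
  induction s using Finset.induction_on with
  | empty => simp
  | insert a s ha ih =>
    rw [biUnion_insert, sum_insert ha]
    have h := sum_union_inter (s₁ := t a) (s₂ := s.biUnion t) (f := f)
    omega

theorem q_double {c : ℕ → ℕ} (hc : ∀ l, 1 ≤ c l) (hqs : ∀ l, q (l + 1) = q l * (16 * c l)) (l : ℕ) :
    2 * q l ≤ q (l + 1) := by
  rw [hqs, mul_comm 2]
  exact Nat.mul_le_mul_left _ (by have := hc l; omega)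

theorem dens {c : ℕ → ℕ} (hc : ∀ l, 1 ≤ c l) (hq0 : ∀ l, 1 ≤ q l)
    (hqs : ∀ l, q (l + 1) = q l * (16 * c l)) (hk0 : ∀ l, 2 ≤ k0 l)
    (hi0 : ∀ l, l + 1 ≤ i0 l)
    (hj1 : ∀ l i k, k * q l ≤ jst l i k ∧ jst l i k < (k + 1) * q l)
    (hj2 : ∀ l i k j', k * q l ≤ j' → j' < (k + 1) * q l → cc (A l) i j' ≤ cc (A l) i (jst l i k))
    (l i κ : ℕ) (hi : i0 l ≤ i) (hκ : 8 * k0 l * c l ≤ κ) (hκ4 : κ * q l ≤ 4 ^ i)
    (hd : LL i * (κ * q l) ^ 2 ≤ c l * cnt (A l) (LL i * (κ * q l) ^ 2)) :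
    LL i * (κ * q l) ^ 2 ≤ 2 * c l * q l * cnt (EE A q k0 i0 jst l) (LL i * (κ * q l) ^ 2) := by
  classical
  set J := κ * q l with hJ
  set L := LL i with hL
  have hκ0 : k0 l ≤ κ := by
    have := Nat.mul_le_mul (Nat.le_mul_of_pos_left (k0 l) (n := 8) (by norm_num)) (hc l)
    omega
  obtain ⟨d, rfl⟩ : ∃ d, κ = k0 l + d := ⟨κ - k0 l, by omega⟩
  set J0 := k0 l * q l with hJ0
  have hJ0J : J0 ≤ J := Nat.mul_le_mul_right _ hκ0
  obtain ⟨e, he⟩ : ∃ e, J = J0 + e := ⟨J - J0, by omega⟩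
  have hJ01 : 1 ≤ J0 := Nat.mul_pos (by have := hk0 l; omega) (hq0 l)
  have h1 := cnt_le_cells (A l) i hJ01 e
  rw [← he] at h1
  have h2 := sum_jst hj1 hj2 l i hi d hκ4
  rw [← hJ, ← hJ0] at h2
  -- selected cells
  set S1 := ∑ j ∈ (Ico J0 J).filter (CC q k0 i0 jst l i), cc (A l) i j with hS1
  set P := fun j => CC q k0 i0 jst l i j ∧ ∀ l', l < l' → ¬ CC q k0 i0 jst l' i j with hP
  set S2 := ∑ j ∈ (Ico 1 J).filter P, cc (A l) i j with hS2
  have h3 : S1 ≤ S2 + ∑ l' ∈ Ioc l i, ∑ j ∈ (Ico 1 J).filter (CC q k0 i0 jst l' i), cc (A l) i j := by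
    have h31 : (Ico J0 J).filter (CC q k0 i0 jst l i) ⊆ (Ico 1 J).filter P ∪
        (Ioc l i).biUnion (fun l' => (Ico 1 J).filter (CC q k0 i0 jst l' i)) := by
      intro j hj
      rw [mem_filter, mem_Ico] at hj
      rw [mem_union, mem_biUnion, mem_filter, mem_Ico]
      by_cases hPj : ∀ l', l < l' → ¬ CC q k0 i0 jst l' i j
      · left; exact ⟨⟨by omega, hj.1.2⟩, hj.2, hPj⟩
      · right
        push Not at hPj
        obtain ⟨l', hl', hC⟩ := hPj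
        refine ⟨l', ?_, ?_⟩
        · rw [mem_Ioc]
          have := hC.1
          have := hi0 l'
          omega
        · rw [mem_filter, mem_Ico]
          exact ⟨⟨by omega, hj.1.2⟩, hC⟩
    calc S1 ≤ ∑ j ∈ (Ico 1 J).filter P ∪
        (Ioc l i).biUnion (fun l' => (Ico 1 J).filter (CC q k0 i0 jst l' i)), cc (A l) i j :=
          sum_le_sum_of_subset h31
      _ ≤ S2 + ∑ j ∈ (Ioc l i).biUnion (fun l' => (Ico 1 J).filter (CC q k0 i0 jst l' i)), cc (A l) i j := by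
          rw [hS2, ← sum_union_inter]
          exact Nat.le_add_right _ _
      _ ≤ _ := by
          apply Nat.add_le_add_left
          exact my_sum_biUnion_le _ _ _
  have h4 : S2 ≤ cnt (EE A q k0 i0 jst l) (L * J ^ 2) := by
    have := cells_le_cnt (A l) (EE A q k0 i0 jst l) i ((Ico 1 J).filter P) (by
      intro j hj n hn1 hn2 hnA
      rw [mem_filter] at hj
      exact ⟨hnA, i, j, hn1, hn2, hj.2.1, hj.2.2⟩) J
    refine le_trans (le_of_eq ?_) this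
    rw [hS2]
    apply sum_congr _ (fun _ _ => rfl)
    ext j
    simp only [mem_filter, mem_Ico]
    tauto
  have h5 : ∀ l' ∈ Ioc l i, ((∑ j ∈ (Ico 1 J).filter (CC q k0 i0 jst l' i), cc (A l) i j : ℕ) : ℝ) ≤
      2 * (L * J ^ 2) * (1 / q l') := by
    intro l' hl'
    have h51 : ∑ j ∈ (Ico 1 J).filter (CC q k0 i0 jst l' i), cc (A l) i j ≤
        ((Ico 1 J).filter (CC q k0 i0 jst l' i)).card • (2 * J * L) := by
      apply sum_le_card_nsmul
      intro j hj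
      rw [mem_filter, mem_Ico] at hj
      exact cc_le _ _ hj.1.2
    have h52 := card_CC (i0 := i0) hq0 hk0 hj1 l' i J
    have h53 : (0 : ℝ) < q l' := by exact_mod_cast hq0 l'
    have h54 : ((((Ico 1 J).filter (CC q k0 i0 jst l' i)).card : ℕ) : ℝ) ≤ J / q l' := by
      rw [le_div_iff₀ h53]
      exact_mod_cast h52
    calc ((∑ j ∈ (Ico 1 J).filter (CC q k0 i0 jst l' i), cc (A l) i j : ℕ) : ℝ)
        ≤ ((((Ico 1 J).filter (CC q k0 i0 jst l' i)).card • (2 * J * L) : ℕ) : ℝ) := by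
          exact_mod_cast h51
      _ = (((Ico 1 J).filter (CC q k0 i0 jst l' i)).card : ℝ) * (2 * J * L) := by
          rw [smul_eq_mul]; push_cast; ring
      _ ≤ (J / q l') * (2 * J * L) := by
          apply mul_le_mul_of_nonneg_right h54 (by positivity)
      _ = 2 * (L * J ^ 2) * (1 / q l') := by ring
  have hli : l + 1 ≤ i := (hi0 l).trans hi
  obtain ⟨e', he'⟩ : ∃ e', i = l + 1 + e' := ⟨i - (l + 1), by omega⟩
  have h6 := sum_inv_q q (fun l => hq0 l) (q_double hc hqs) l e'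
  rw [← he'] at h6
  have hqi : (0 : ℝ) ≤ 1 / q i := by positivity
  have hcl : (1 : ℝ) ≤ c l := by exact_mod_cast hc l
  have hql : (1 : ℝ) ≤ q l := by exact_mod_cast hq0 l
  have hqs' : (q (l + 1) : ℝ) = q l * (16 * c l) := by rw [hqs]; push_cast; ring
  have h7 : ((∑ l' ∈ Ioc l i, ∑ j ∈ (Ico 1 J).filter (CC q k0 i0 jst l' i), cc (A l) i j : ℕ) : ℝ) ≤
      (L * J ^ 2) / (4 * c l * q l) := by
    push_cast
    have h5' : ∀ l' ∈ Ioc l i, (∑ j ∈ (Ico 1 J).filter (CC q k0 i0 jst l' i), (cc (A l) i j : ℝ)) ≤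
        2 * (L * J ^ 2) * (1 / q l') := by
      intro l' hl'; have := h5 l' hl'; push_cast at this; exact this
    calc _ ≤ ∑ l' ∈ Ioc l i, 2 * ((L : ℝ) * J ^ 2) * (1 / q l') := sum_le_sum h5'
      _ = 2 * ((L : ℝ) * J ^ 2) * ∑ l' ∈ Ioc l i, (1 : ℝ) / q l' := by rw [mul_sum]
      _ ≤ 2 * ((L : ℝ) * J ^ 2) * (2 / q (l + 1)) := by
          apply mul_le_mul_of_nonneg_left _ (by positivity)
          linarith
      _ = _ := by
          rw [hqs']
          field_simp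
          ring
  -- conclusion
  have h8 : (L : ℝ) * J ^ 2 ≤ c l * cnt (A l) (L * J ^ 2) := by exact_mod_cast hd
  have h9 : (cnt (A l) (L * J ^ 2) : ℝ) ≤ L * J0 ^ 2 + (∑ j ∈ Ico J0 J, cc (A l) i j : ℕ) + 2 * L * e := by
    exact_mod_cast h1
  have h10 : ((∑ j ∈ Ico J0 J, cc (A l) i j : ℕ) : ℝ) ≤ q l * S1 := by exact_mod_cast h2
  have h11 : (S1 : ℝ) ≤ S2 + (∑ l' ∈ Ioc l i, ∑ j ∈ (Ico 1 J).filter (CC q k0 i0 jst l' i), cc (A l) i j : ℕ) := by
    exact_mod_cast h3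
  have h12 : (S2 : ℝ) ≤ cnt (EE A q k0 i0 jst l) (L * J ^ 2) := by exact_mod_cast h4
  have hLp : (1 : ℝ) ≤ L := by exact_mod_cast LL_pos i
  have h13 : 8 * J0 * c l ≤ J := by
    have := Nat.mul_le_mul_right (q l) hκ
    calc 8 * J0 * c l = 8 * k0 l * c l * q l := by rw [hJ0]; ring
      _ ≤ _ := this
  have h13' : 8 * (J0 : ℝ) * c l ≤ J := by exact_mod_cast h13
  have h14 : (2 : ℝ) ≤ J0 := by
    have : 2 ≤ J0 := by
      calc 2 ≤ k0 l * 1 := by have := hk0 l; omega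
        _ ≤ J0 := Nat.mul_le_mul_left _ (hq0 l)
    exact_mod_cast this
  have h15 : (e : ℝ) ≤ J := by exact_mod_cast (by omega : e ≤ J)
  have hJp : (0 : ℝ) ≤ J := by positivity
  -- L J0² ≤ t / (8c)
  have h16 : (L : ℝ) * (J0 : ℝ) ^ 2 * (8 * (c l : ℝ)) ≤ (L : ℝ) * (J : ℝ) ^ 2 := by
    have a : (J0 : ℝ) ^ 2 * (8 * c l) ≤ J ^ 2 := by
      have a1 : (8 * (J0 : ℝ) * c l) ^ 2 ≤ J ^ 2 := pow_le_pow_left₀ (by positivity) h13' 2
      have a2 : (J0 : ℝ) ^ 2 * (8 * c l) ≤ (8 * (J0 : ℝ) * c l) ^ 2 := by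
        have : (8 * (J0 : ℝ) * c l) ^ 2 = (J0 : ℝ) ^ 2 * (8 * c l) * (8 * c l) := by ring
        rw [this]
        apply le_mul_of_one_le_right (by positivity)
        linarith
      linarith
    calc (L : ℝ) * (J0 : ℝ) ^ 2 * (8 * (c l : ℝ)) = (L : ℝ) * ((J0 : ℝ) ^ 2 * (8 * (c l : ℝ))) := by ring
      _ ≤ (L : ℝ) * (J : ℝ) ^ 2 := mul_le_mul_of_nonneg_left a (by positivity)
  have h17 : 2 * (L : ℝ) * e * (8 * c l) ≤ L * J ^ 2 := by
    have a1 : 16 * (c l : ℝ) ≤ J := by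
      calc 16 * (c l : ℝ) = 8 * 2 * c l := by ring
        _ ≤ 8 * (J0 : ℝ) * c l := by
            apply mul_le_mul_of_nonneg_right _ (by positivity)
            linarith
        _ ≤ J := h13'
    calc 2 * (L : ℝ) * e * (8 * c l) = L * (e * (16 * c l)) := by ring
      _ ≤ L * (J * J) := by
          apply mul_le_mul_of_nonneg_left _ (by positivity)
          exact mul_le_mul h15 a1 (by positivity) hJp
      _ = L * J ^ 2 := by ring
  have h18 : ((∑ l' ∈ Ioc l i, ∑ j ∈ (Ico 1 J).filter (CC q k0 i0 jst l' i), cc (A l) i j : ℕ) : ℝ)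
      * (4 * c l * q l) ≤ L * J ^ 2 := by
    rwa [le_div_iff₀ (by positivity)] at h7
  set t : ℝ := (L : ℝ) * J ^ 2 with ht
  set cA : ℝ := (cnt (A l) (L * J ^ 2) : ℝ) with hcA
  set cE : ℝ := (cnt (EE A q k0 i0 jst l) (L * J ^ 2) : ℝ) with hcE
  set lost : ℝ := ((∑ l' ∈ Ioc l i, ∑ j ∈ (Ico 1 J).filter (CC q k0 i0 jst l' i), cc (A l) i j : ℕ) : ℝ)
  have hfin : t ≤ 2 * c l * q l * cE := by
    have b1 : cA ≤ L * J0 ^ 2 + q l * (cE + lost) + 2 * L * e := by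
      have : (q l : ℝ) * S1 ≤ q l * (cE + lost) := by
        apply mul_le_mul_of_nonneg_left _ (by positivity)
        linarith
      linarith
    have b2 : c l * cA ≤ c l * (L * J0 ^ 2 + q l * (cE + lost) + 2 * L * e) :=
      mul_le_mul_of_nonneg_left b1 (by positivity)
    have b3 : (c l : ℝ) * (L * J0 ^ 2 + q l * (cE + lost) + 2 * L * e) =
      (L * J0 ^ 2 * (8 * c l)) / 8 + c l * q l * cE + lost * (4 * c l * q l) / 4 +
        2 * L * e * (8 * c l) / 8 := by ring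
    have b4 : 2 * (c l : ℝ) * q l * cE = 2 * (c l * q l * cE) := by ring
    rw [b3] at b2
    rw [b4]
    linarith
  have hfin' : ((L * J ^ 2 : ℕ) : ℝ) ≤
      ((2 * c l * q l * cnt (EE A q k0 i0 jst l) (L * J ^ 2) : ℕ) : ℝ) := by
    push_cast
    exact hfin
  exact_mod_cast hfin'

end Pool.Agent.Helper25.HFH
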