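import Pool.Agent.Helper25.HFHComb2
set_option autoImplicit false

namespace Pool.Agent.Helper25.HFH

open Finset

/-- Positive lower density, in integers. -/
def PosD (A : Set ℕ) : Prop := ∃ c N0 : ℕ, ∀ N, N0 ≤ N → N ≤ c * cnt A N

theorem EE_props {A : ℕ → Set ℕ} {q k0 i0 : ℕ → ℕ} {jst : ℕ → ℕ → ℕ → ℕ}
    (hq0 : ∀ l, 1 ≤ q l) (hk0 : ∀ l, 2 ≤ k0 l)
    (hj1 : ∀ l i k, k * q l ≤ jst l i k ∧ jst l i k < (k + 1) * q l)
    {l l' n m : ℕ} (hn : n ∈ EE A q k0 i0 jst l) (hm : m ∈ EE A q k0 i0 jst l') (hmn : m ≤ n) :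
    l = l' ∨ (l ≠ l' ∧ ∃ i, i0 l ≤ i ∧ i0 l' ≤ i ∧ 2 * LL i < n - m ∧ 4 * n < LL (i + 1)) := by
  obtain ⟨hnA, i, j, hn1, hn2, hC, hCu⟩ := hn
  obtain ⟨hmA, i', j', hm1, hm2, hC', hCu'⟩ := hm
  obtain ⟨b1, b2⟩ := CC_bounds hq0 hk0 hj1 hC
  obtain ⟨b1', b2'⟩ := CC_bounds hq0 hk0 hj1 hC'
  rcases cell_sep b1 b2 b1' b2' hn1 hn2 hm1 hm2 hmn with ⟨rfl, rfl⟩ | ⟨h1, h2⟩
  · left
    rcases lt_trichotomy l l' with h | h | h
    · exact absurd hC' (hCu l' h)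
    · exact h
    · exact absurd hC (hCu' l h)
  · by_cases hll : l = l'
    · exact Or.inl hll
    · right
      exact ⟨hll, i, hC.1, hC'.1.trans h1, h2, cell_top b2 hn2⟩

theorem comb_core (A : ℕ → Set ℕ) (G : ℕ → ℕ)
    (hgap : ∀ l, ∀ n ∈ A l, ∀ m ∈ A l, m < n → G l ≤ n - m) (hA : ∀ l, PosD (A l)) :
    ∃ E : ℕ → Set ℕ, (∀ l, E l ⊆ A l) ∧ (∀ l, PosD (E l)) ∧ (∀ l, ∀ n ∈ E l, G l ≤ n) ∧
      (∀ l l' n m, n ∈ E l → m ∈ E l' → m < n → G l ≤ n - m ∧ G l' ≤ n - m) ∧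
      (∀ l n, n ∈ E l → ∀ i, ¬ (LL i ≤ 4 * n ∧ n ≤ 2 * LL i)) ∧
      (∀ l l' n m, n ∈ E l → m ∈ E l' → l ≠ l' → m < n →
        ∀ i, ¬ (LL i ≤ 4 * (n - m) ∧ n - m ≤ 2 * LL i)) ∧
      (∀ l l' n, n ∈ E l → n ∈ E l' → l = l') := by
  classical
  choose c' N0 hc' using hA
  -- positive constants
  set c : ℕ → ℕ := fun l => c' l + 1 with hcdef
  have hc : ∀ l, 1 ≤ c l := fun l => Nat.succ_pos _
  have hcA : ∀ l N, N0 l ≤ N → N ≤ c l * cnt (A l) N := fun l N h =>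
    (hc' l N h).trans (Nat.mul_le_mul_right _ (Nat.le_succ _))
  set q : ℕ → ℕ := fun l => Nat.rec 1 (fun l' r => r * (16 * c l')) l with hqdef
  have hqs : ∀ l, q (l + 1) = q l * (16 * c l) := fun l => rfl
  have hq0 : ∀ l, 1 ≤ q l := by
    intro l
    induction l with
    | zero => exact le_rfl
    | succ l ih =>
      rw [hqs]
      exact Nat.mul_pos ih (by have := hc l; omega)
  set k0 : ℕ → ℕ := fun _ => 2 with hk0def
  have hk0 : ∀ l, 2 ≤ k0 l := fun l => le_rfl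
  set i0 : ℕ → ℕ := fun l => l + 1 + G l with hi0def
  have hi0 : ∀ l, l + 1 ≤ i0 l := fun l => Nat.le_add_right _ _
  have hi0G : ∀ l i, i0 l ≤ i → G l ≤ LL i := fun l i h => by
    have := LL_gt i
    simp only [hi0def] at h
    omega
  have hex : ∀ l i k, ∃ j, (k * q l ≤ j ∧ j < (k + 1) * q l) ∧
      ∀ j', k * q l ≤ j' → j' < (k + 1) * q l → cc (A l) i j' ≤ cc (A l) i j := by
    intro l i k
    have hne : (Ico (k * q l) ((k + 1) * q l)).Nonempty := by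
      rw [nonempty_Ico]
      have : (k + 1) * q l = k * q l + q l := by ring
      have := hq0 l
      omega
    obtain ⟨j, hj, hmax⟩ := exists_max_image _ (fun j => cc (A l) i j) hne
    rw [mem_Ico] at hj
    exact ⟨j, hj, fun j' h1 h2 => hmax j' (mem_Ico.mpr ⟨h1, h2⟩)⟩
  choose jst hj1 hj2 using hex
  refine ⟨EE A q k0 i0 jst, fun l n hn => hn.1, ?_, ?_, ?_, ?_, ?_, ?_⟩
  · -- density
    intro l
    set κ0 : ℕ := 8 * k0 l * c l with hκ0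
    have hκ01 : 1 ≤ κ0 := by
      have := hc l
      have : 0 < 8 * k0 l * c l := by positivity
      exact this
    set i1 : ℕ := i0 l + κ0 * q l + N0 l with hi1
    refine ⟨16 * (κ0 * q l) ^ 2 * (2 * c l * q l), LL i1 * (κ0 * q l) ^ 2, fun N hN => ?_⟩
    have h0 : κ0 * q l ≤ 4 ^ i1 := by
      have : i1 < 4 ^ i1 := Nat.lt_pow_self (by norm_num)
      omega
    obtain ⟨i, κ, h1, h2, h3, h4, h5⟩ := good_time (q l) κ0 i1 N (hq0 l) hκ01 h0 hN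
    have hκq : 1 ≤ κ * q l := Nat.mul_pos (hκ01.trans h2) (hq0 l)
    have h6 : N0 l ≤ LL i * (κ * q l) ^ 2 := by
      have h61 := LL_gt i
      have h62 : LL i ≤ LL i * (κ * q l) ^ 2 := Nat.le_mul_of_pos_right _ (by positivity)
      omega
    have h7 := dens hc hq0 hqs hk0 hi0 hj1 hj2 l i κ (by omega) h2 h3 (hcA l _ h6)
    calc N ≤ 16 * (κ0 * q l) ^ 2 * (LL i * (κ * q l) ^ 2) := h5
      _ ≤ 16 * (κ0 * q l) ^ 2 * (2 * c l * q l * cnt (EE A q k0 i0 jst l) (LL i * (κ * q l) ^ 2)) :=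
          Nat.mul_le_mul_left _ h7
      _ ≤ 16 * (κ0 * q l) ^ 2 * (2 * c l * q l * cnt (EE A q k0 i0 jst l) N) :=
          Nat.mul_le_mul_left _ (Nat.mul_le_mul_left _ (cnt_mono _ h4))
      _ = _ := by ring
  · -- n ≥ G
    intro l n hn
    obtain ⟨hnA, i, j, hn1, hn2, hC, hCu⟩ := hn
    obtain ⟨b1, b2⟩ := CC_bounds hq0 hk0 hj1 hC
    have := hi0G l i hC.1
    have := cell_bot b1 hn1
    omega
  · -- gaps
    intro l l' n m hn hm hmn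
    rcases EE_props hq0 hk0 hj1 hn hm hmn.le with rfl | ⟨-, i, h1, h2, h3, -⟩
    · exact ⟨hgap _ n hn.1 m hm.1 hmn, hgap _ n hn.1 m hm.1 hmn⟩
    · have := hi0G l i h1
      have := hi0G l' i h2
      constructor <;> omega
  · -- (2)
    intro l n hn i'
    obtain ⟨hnA, i, j, hn1, hn2, hC, hCu⟩ := hn
    obtain ⟨b1, b2⟩ := CC_bounds hq0 hk0 hj1 hC
    have h1 := cell_bot b1 hn1
    have h2 := cell_top b2 hn2
    have h3 := LL_pos i
    rintro ⟨h4, h5⟩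
    rcases le_or_gt i' i with h | h
    · have := LL_mono h
      omega
    · have := LL_mono (i := i + 1) (j := i') h
      omega
  · -- (3)
    intro l l' n m hn hm hll hmn i'
    rcases EE_props hq0 hk0 hj1 hn hm hmn.le with rfl | ⟨-, i, h1, h2, h3, h4⟩
    · exact absurd rfl hll
    · rintro ⟨h5, h6⟩
      rcases le_or_gt i' i with h | h
      · have := LL_mono h
        omega
      · have := LL_mono (i := i + 1) (j := i') h
        omega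
  · intro l l' n hn hm
    rcases EE_props hq0 hk0 hj1 hn hm le_rfl with h | ⟨-, i, h1, h2, h3, h4⟩
    · exact h
    · omega

theorem PosD_thin {A A' : Set ℕ} {G : ℕ} (hA : PosD A) (h : ∀ N, cnt A N ≤ G * cnt A' N) : PosD A' := by
  obtain ⟨c, N0, hc⟩ := hA
  refine ⟨c * G, N0, fun N hN => (hc N hN).trans ?_⟩
  rw [mul_assoc]
  exact Nat.mul_le_mul_left _ (h N)

/-- The combinatorial theorem. -/
theorem comb (A : ℕ → Set ℕ) (G : ℕ → ℕ) (hG : ∀ l, 0 < G l) (hA : ∀ l, PosD (A l)) :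
    ∃ E : ℕ → Set ℕ, (∀ l, E l ⊆ A l) ∧ (∀ l, PosD (E l)) ∧ (∀ l, ∀ n ∈ E l, G l ≤ n) ∧
      (∀ l l' n m, n ∈ E l → m ∈ E l' → m < n → G l ≤ n - m ∧ G l' ≤ n - m) ∧
      (∀ l n, n ∈ E l → ∀ i, ¬ (LL i ≤ 4 * n ∧ n ≤ 2 * LL i)) ∧
      (∀ l l' n m, n ∈ E l → m ∈ E l' → l ≠ l' → m < n →
        ∀ i, ¬ (LL i ≤ 4 * (n - m) ∧ n - m ≤ 2 * LL i)) ∧
      (∀ l l' n, n ∈ E l → n ∈ E l' → l = l') := by
  choose A' hsub hgap hcnt using fun l => thin (A l) (G l) (hG l)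
  obtain ⟨E, h1, h2⟩ := comb_core A' G hgap (fun l => PosD_thin (hA l) (hcnt l))
  exact ⟨E, fun l => (h1 l).trans (hsub l), h2⟩

end Pool.Agent.Helper25.HFH
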