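import Mathlib

/-!
For MP_5ec4bc_an: densities of sets of natural numbers and hereditary hypercyclicity with respect to
a family of sets of natural numbers.
-/

namespace Pool.Agent.Helper25.HFH

open Filter

/-- The lower density `liminf |A ∩ [1, N]| / N`. -/
noncomputable def lowerDensity (A : Set ℕ) : ℝ :=
  liminf (fun N : ℕ => ((A ∩ Set.Icc 1 N).ncard : ℝ) / N) atTop

/-- The upper density `limsup |A ∩ [1, N]| / N`. -/
noncomputable def upperDensity (A : Set ℕ) : ℝ :=
  limsup (fun N : ℕ => ((A ∩ Set.Icc 1 N).ncard : ℝ) / N) atTop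

/-- `T` is hereditarily `F`-hypercyclic: for every countable family of nonempty open sets `V i` and
of sets `A i` in `F` there is a point `x` such that for all `i` the set of those `n` in `A i` with
`T^n x ∈ V i` belongs to `F`. -/
def HereditarilyHypercyclic (F : Set (Set ℕ)) {X : Type} [TopologicalSpace X] (T : X → X) : Prop :=
  ∀ (I : Type) [Countable I] (V : I → Set X) (A : I → Set ℕ),
    (∀ i, IsOpen (V i) ∧ (V i).Nonempty) → (∀ i, A i ∈ F) →
      ∃ x : X, ∀ i, {n : ℕ | T^[n] x ∈ V i} ∩ A i ∈ F

end Pool.Agent.Helper25.HFH
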