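import Pool.Agent.Helper25.HFHSpace2
set_option autoImplicit false

namespace Pool.Agent.Helper25.HFH

open Filter Topology Finset
open scoped ENNReal

variable {𝕜 : Type} [RCLike 𝕜]

/-- Superposition of shifted sequences. -/
noncomputable def spo (z : ℕ → ℕ → 𝕜) (k : ℕ) : 𝕜 := ∑ o ∈ range (k + 1), z o (k - o)

theorem exch (f : ℕ → ℕ → ℝ) (K : ℕ) : ∑ k ∈ range K, ∑ o ∈ range (k + 1), f o (k - o) =
    ∑ o ∈ range K, ∑ j ∈ range (K - o), f o j := by
  rw [sum_comm' (s' := fun o => Ico o K) (t' := range K)]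
  · apply sum_congr rfl
    intro o _
    rw [sum_Ico_eq_sum_range]
    apply sum_congr rfl
    intro j _
    rw [Nat.add_sub_cancel_left]
  · intro k o
    simp only [mem_range, mem_Ico]
    omega

theorem sN_spo (z : ℕ → ℕ → 𝕜) (i K : ℕ) :
    sN (spo z) i K ≤ ∑ o ∈ range K, ∑ j ∈ range (K - o), w i (o + j) * ‖z o j‖ := by
  rw [← exch (fun o j => w i (o + j) * ‖z o j‖) K]
  unfold sN
  apply sum_le_sum
  intro k _
  unfold spo
  have h1 : w i k * ‖∑ o ∈ range (k + 1), z o (k - o)‖ ≤ w i k * ∑ o ∈ range (k + 1), ‖z o (k - o)‖ :=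
    mul_le_mul_of_nonneg_left (norm_sum_le _ _) (w_nonneg i k)
  refine h1.trans (le_of_eq ?_)
  rw [mul_sum]
  apply sum_congr rfl
  intro o ho
  rw [mem_range] at ho
  have : o + (k - o) = k := by omega
  rw [this]

/-- Admissible block at offset `o`. -/
def Good (o : ℕ) (v : ℕ → 𝕜) : Prop := ∀ j, (v j ≠ 0 → 4 * j ≤ o) ∧ 2 * ‖v j‖ ≤ (3 / 2) ^ o

theorem geo_half (J : ℕ) : ∑ j ∈ range J, ((1 : ℝ) / 2) ^ j ≤ 2 := by
  have h : ∑ j ∈ range J, ((1 : ℝ) / 2) ^ j = 2 - 2 * (1 / 2) ^ J := by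
    induction J with
    | zero => simp
    | succ J ih => rw [sum_range_succ, ih, pow_succ]; ring
  rw [h]
  have : (0 : ℝ) ≤ (1 / 2) ^ J := by positivity
  linarith

theorem geo_34 (a K : ℕ) : ∑ o ∈ range K, (if a ≤ o then ((3 : ℝ) / 4) ^ o else 0) ≤ 4 * (3 / 4) ^ a := by
  have h : ∀ K, ∑ o ∈ range (a + K), (if a ≤ o then ((3 : ℝ) / 4) ^ o else 0) =
      4 * (3 / 4) ^ a - 4 * (3 / 4) ^ (a + K) := by
    intro K
    induction K with
    | zero =>
      rw [add_zero, sub_self]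
      apply sum_eq_zero
      intro o ho
      rw [if_neg (by rw [mem_range] at ho; omega)]
    | succ K ih =>
      rw [← add_assoc, sum_range_succ, ih, if_pos (by omega), pow_succ]; ring
  have h2 : ∑ o ∈ range K, (if a ≤ o then ((3 : ℝ) / 4) ^ o else 0) ≤
      ∑ o ∈ range (a + K), (if a ≤ o then ((3 : ℝ) / 4) ^ o else 0) := by
    apply sum_le_sum_of_subset_of_nonneg (range_mono (by omega))
    intro o _ _
    split_ifs <;> positivity
  rw [h] at h2
  have : (0 : ℝ) ≤ (3 / 4) ^ (a + K) := by positivity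
  linarith

theorem far_bound {i o : ℕ} {v : ℕ → 𝕜} (hi : i = 0 ∨ 2 * LL i ≤ o) (hv : Good o v) (J : ℕ) :
    ∑ j ∈ range J, w i (o + j) * ‖v j‖ ≤ (3 / 4) ^ o := by
  have h1 : ∀ j ∈ range J, w i (o + j) * ‖v j‖ ≤ (3 / 4) ^ o / 2 * (1 / 2) ^ j := by
    intro j _
    have h2 : w i (o + j) ≤ (1 / 2) ^ (o + j) := w_far (by omega)
    have h3 : ‖v j‖ ≤ (3 / 2) ^ o / 2 := by have := (hv j).2; linarith
    calc w i (o + j) * ‖v j‖ ≤ (1 / 2) ^ (o + j) * ((3 / 2) ^ o / 2) :=
          mul_le_mul h2 h3 (norm_nonneg _) (by positivity)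
      _ = ((1 / 2) * (3 / 2)) ^ o / 2 * (1 / 2) ^ j := by rw [mul_pow, pow_add]; ring
      _ = _ := by norm_num
  refine (sum_le_sum h1).trans ?_
  rw [← mul_sum]
  have := geo_half J
  calc ((3 : ℝ) / 4) ^ o / 2 * ∑ j ∈ range J, (1 / 2) ^ j ≤ (3 / 4) ^ o / 2 * 2 :=
        mul_le_mul_of_nonneg_left this (by positivity)
    _ = _ := by ring

theorem near_bound {i o : ℕ} {v : ℕ → 𝕜} (hi : i ≠ 0) (ho : 4 * o < LL i) (hv : Good o v) (J : ℕ) :
    ∑ j ∈ range J, w i (o + j) * ‖v j‖ ≤ 0 := by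
  apply le_of_eq
  apply sum_eq_zero
  intro j _
  by_cases hj : v j = 0
  · rw [hj, norm_zero, mul_zero]
  · have := (hv j).1 hj
    rw [w_eq_zero hi (by omega), zero_mul]

theorem mid_bound {i o : ℕ} {v : ℕ → 𝕜} {Y : ℝ} (hY : ∀ J, ∑ j ∈ range J, ‖v j‖ ≤ Y) (J : ℕ) :
    ∑ j ∈ range J, w i (o + j) * ‖v j‖ ≤ Y / LL i := by
  have hL := LL_pos' i
  have h1 : ∑ j ∈ range J, w i (o + j) * ‖v j‖ ≤ ∑ j ∈ range J, (1 / (LL i : ℝ)) * ‖v j‖ :=
    sum_le_sum fun j _ => mul_le_mul_of_nonneg_right (w_le_inv i _) (norm_nonneg _)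
  refine h1.trans ?_
  rw [← mul_sum]
  calc (1 / (LL i : ℝ)) * ∑ j ∈ range J, ‖v j‖ ≤ (1 / (LL i : ℝ)) * Y :=
        mul_le_mul_of_nonneg_left (hY J) (by positivity)
    _ = _ := by ring

/-- The main estimate. -/
theorem main_bound (z : ℕ → ℕ → 𝕜) (i a : ℕ) (R : Finset ℕ) {Y : ℝ} (hY0 : 0 ≤ Y)
    (hz : ∀ o, z o = 0 ∨ (Good o (z o) ∧ ((i ≠ 0 ∧ 4 * o < LL i) ∨
      ((i = 0 ∨ 2 * LL i ≤ o) ∧ a ≤ o) ∨ o ∈ R)))
    (hR : ∀ o ∈ R, ∀ J, ∑ j ∈ range J, ‖z o j‖ ≤ Y) (K : ℕ) :
    sN (spo z) i K ≤ 4 * (3 / 4) ^ a + R.card * (Y / LL i) := by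
  classical
  have hL := LL_pos' i
  refine (sN_spo z i K).trans ?_
  have h1 : ∀ o ∈ range K, ∑ j ∈ range (K - o), w i (o + j) * ‖z o j‖ ≤
      (if a ≤ o then ((3 : ℝ) / 4) ^ o else 0) + (if o ∈ R then Y / LL i else 0) := by
    intro o _
    have p1 : (0 : ℝ) ≤ (if a ≤ o then ((3 : ℝ) / 4) ^ o else 0) := by split_ifs <;> positivity
    have p2 : (0 : ℝ) ≤ (if o ∈ R then Y / LL i else 0) := by split_ifs <;> positivity
    rcases hz o with h | ⟨hg, h | ⟨h, h'⟩ | h⟩
    · have : ∑ j ∈ range (K - o), w i (o + j) * ‖z o j‖ = 0 := by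
        apply sum_eq_zero
        intro j _
        rw [h]; simp
      rw [this]; linarith
    · have := near_bound h.1 h.2 hg (K - o)
      linarith
    · have := far_bound h hg (K - o)
      rw [if_pos h']
      linarith
    · have := mid_bound (i := i) (o := o) (hR o h) (K - o)
      rw [if_pos h]
      linarith
  refine (sum_le_sum h1).trans ?_
  rw [sum_add_distrib]
  have h2 : ∑ o ∈ range K, (if o ∈ R then Y / LL i else 0) ≤ R.card * (Y / LL i) := by
    rw [← sum_filter, sum_const, nsmul_eq_mul]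
    apply mul_le_mul_of_nonneg_right _ (by positivity)
    have : ((range K).filter (· ∈ R)).card ≤ R.card := by
      apply card_le_card
      intro o ho
      exact (mem_filter.mp ho).2
    exact_mod_cast this
  have := geo_34 a K
  linarith

theorem gap_count (R : Finset ℕ) (G B : ℕ) (hG : 0 < G) (h1 : ∀ o ∈ R, G ≤ o) (h2 : ∀ o ∈ R, o ≤ B)
    (h3 : ∀ o ∈ R, ∀ o' ∈ R, o < o' → G ≤ o' - o) : R.card * G ≤ B := by
  have key : R.card ≤ (Ico 1 (B / G + 1)).card := by
    apply card_le_card_of_injOn (fun o => o / G)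
    · intro o ho
      simp only [coe_Ico, Set.mem_Ico]
      have h5 : 1 ≤ o / G := (Nat.le_div_iff_mul_le hG).mpr (by rw [one_mul]; exact h1 o ho)
      have h6 : o / G ≤ B / G := Nat.div_le_div_right (h2 o ho)
      omega
    · have aux : ∀ o ∈ R, ∀ o' ∈ R, o < o' → o / G ≠ o' / G := by
        intro o ho o' ho' hlt heq
        have h4 := h3 o ho o' ho' hlt
        have h5 : o / G + 1 ≤ o' / G := by
          rw [Nat.le_div_iff_mul_le hG, add_mul, one_mul]
          have := Nat.div_mul_le_self o G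
          omega
        omega
      intro o ho o' ho' heq
      rcases lt_trichotomy o o' with h | h | h
      · exact absurd heq (aux o ho o' ho' h)
      · exact h
      · exact absurd heq.symm (aux o' ho' o ho h)
  rw [Nat.card_Ico, Nat.add_sub_cancel] at key
  calc R.card * G ≤ B / G * G := Nat.mul_le_mul_right _ key
    _ ≤ B := Nat.div_mul_le_self _ _

theorem PosD.mono {A B : Set ℕ} (hA : PosD A) (h : A ⊆ B) : PosD B := by
  classical
  obtain ⟨c, N0, hc⟩ := hA
  refine ⟨c, N0, fun N hN => (hc N hN).trans (Nat.mul_le_mul_left _ ?_)⟩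
  unfold cnt
  apply card_le_card
  intro n hn
  rw [mem_filter] at hn ⊢
  exact ⟨hn.1, h hn.2⟩

/-- Choice of finitely supported centers. -/
theorem exists_center {V : Set (XS 𝕜)} (hV : IsOpen V) (hV' : V.Nonempty) :
    ∃ (y : ℕ → 𝕜) (s : ℕ) (ε : ℝ), 0 < ε ∧ (∀ k, s < k → y k = 0) ∧
      ∀ F : XS 𝕜, (∀ i K, sN (fun k => co F k - y k) i K ≤ ε / 2) → F ∈ V := by
  obtain ⟨F0, hF0⟩ := hV'
  obtain ⟨δ, hδ, hball⟩ := Metric.isOpen_iff.mp hV F0 hF0
  obtain ⟨K, G, hG1, hG2⟩ := exists_trunc F0 (show 0 < δ / 2 by linarith)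
  refine ⟨co G, K, δ / 2, by linarith, fun k hk => ?_, fun F hF => ?_⟩
  · rw [hG1, if_neg (by omega)]
  · apply hball
    have h1 : ‖F - G‖ ≤ δ / 2 / 2 := by
      apply XX_norm_le
      intro i K'
      rw [map_sub]
      exact hF i K'
    rw [Metric.mem_ball, dist_eq_norm]
    have h2 : F - F0 = (F - G) - (F0 - G) := by abel
    rw [h2]
    have := norm_sub_le (F - G) (F0 - G)
    linarith

theorem exists_G (s : ℕ) (Y : ℝ) {ε : ℝ} (hε : 0 < ε) : ∃ G : ℕ, 0 < G ∧ 4 * s ≤ G ∧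
    2 * Y ≤ (3 / 2) ^ G ∧ 4 * (3 / 4 : ℝ) ^ G ≤ ε / 4 ∧ 8 * Y ≤ ε * G := by
  have t1 : Tendsto (fun G : ℕ => ((3 : ℝ) / 2) ^ G) atTop atTop :=
    tendsto_pow_atTop_atTop_of_one_lt (by norm_num)
  have t2 : Tendsto (fun G : ℕ => 4 * ((3 : ℝ) / 4) ^ G) atTop (𝓝 0) := by
    have := (tendsto_pow_atTop_nhds_zero_of_lt_one (r := (3 : ℝ) / 4) (by norm_num) (by norm_num)).const_mul 4
    simpa using this
  have t3 : Tendsto (fun G : ℕ => ε * (G : ℝ)) atTop atTop :=
    tendsto_natCast_atTop_atTop.const_mul_atTop hε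
  have e1 := t1.eventually_ge_atTop (2 * Y)
  have e2 := t2.eventually (ge_mem_nhds (show (0 : ℝ) < ε / 4 by linarith))
  have e3 := t3.eventually_ge_atTop (8 * Y)
  have e4 := eventually_ge_atTop (4 * s)
  have e5 := eventually_gt_atTop 0
  obtain ⟨G, h5, h4, h1, h2, h3⟩ := (e5.and (e4.and (e1.and (e2.and e3)))).exists
  exact ⟨G, h5, h4, h1, h2, h3⟩

/-- The backward shift is hereditarily frequently hypercyclic (sequences of data). -/
theorem hered_nat (V : ℕ → Set (XS 𝕜)) (A : ℕ → Set ℕ) (hV : ∀ l, IsOpen (V l))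
    (hV' : ∀ l, (V l).Nonempty) (hA : ∀ l, PosD (A l)) :
    ∃ x : XS 𝕜, ∀ l, PosD ({n | TT^[n] x ∈ V l} ∩ A l) := by
  classical
  choose y s ε hε hsupp hcl using fun l => exists_center (hV l) (hV' l)
  set Y : ℕ → ℝ := fun l => ∑ k ∈ range (s l + 1), ‖y l k‖ with hYdef
  have hY0 : ∀ l, 0 ≤ Y l := fun l => sum_nonneg fun _ _ => norm_nonneg _
  have hYJ : ∀ l J, ∑ j ∈ range J, ‖y l j‖ ≤ Y l := by
    intro l J
    have h1 : ∑ j ∈ range J, ‖y l j‖ ≤ ∑ j ∈ range (max J (s l + 1)), ‖y l j‖ :=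
      sum_le_sum_of_subset_of_nonneg (range_mono (le_max_left _ _)) (fun _ _ _ => norm_nonneg _)
    have h2 : ∑ j ∈ range (max J (s l + 1)), ‖y l j‖ = Y l := by
      symm
      apply sum_subset (range_mono (le_max_right _ _))
      intro k _ hk
      rw [mem_range, not_lt] at hk
      rw [hsupp l k (by omega), norm_zero]
    linarith
  have hY1 : ∀ l j, ‖y l j‖ ≤ Y l := fun l j =>
    (single_le_sum (f := fun j => ‖y l j‖) (fun _ _ => norm_nonneg _) (mem_range.mpr (Nat.lt_succ_self j))).trans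
      (hYJ l (j + 1))
  choose G hG0 hG1 hG2 hG3 hG4 using fun l => exists_G (s l) (Y l) (hε l)
  obtain ⟨E, hEA, hEd, hE0, hE1, hE2, hE3, hE4⟩ := comb A G hG0 hA
  -- the blocks
  let z : ℕ → ℕ → 𝕜 := fun n => if h : ∃ l, n ∈ E l then y h.choose else 0
  have hz1 : ∀ l n, n ∈ E l → z n = y l := by
    intro l n hn
    have h : ∃ l, n ∈ E l := ⟨l, hn⟩
    have : h.choose = l := hE4 _ _ n h.choose_spec hn
    simp only [z]
    rw [dif_pos h, this]
  have hz2 : ∀ n, (¬ ∃ l, n ∈ E l) → z n = 0 := by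
    intro n h
    simp only [z]
    rw [dif_neg h]
  -- good blocks
  have hgood : ∀ l o, G l ≤ o → Good o (y l) := by
    intro l o ho j
    refine ⟨fun hj => ?_, ?_⟩
    · by_contra hcon
      apply hj
      apply hsupp l j
      have := hG1 l
      omega
    · calc 2 * ‖y l j‖ ≤ 2 * Y l := by have := hY1 l j; linarith
        _ ≤ (3 / 2) ^ G l := hG2 l
        _ ≤ (3 / 2) ^ o := pow_le_pow_right₀ (by norm_num) ho
  -- membership
  have hb : ∀ i K, sN (spo z) i K ≤ 4 * (3 / 4) ^ i := by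
    intro i K
    have := main_bound z i i ∅ (Y := 0) le_rfl (by
      intro o
      by_cases h : ∃ l, o ∈ E l
      · right
        obtain ⟨l, hl⟩ := h
        rw [hz1 l o hl]
        refine ⟨hgood l o (hE0 l o hl), ?_⟩
        by_cases hi : i = 0
        · right; left
          exact ⟨Or.inl hi, by omega⟩
        · have h2 := hE2 l o hl i
          have h3 := LL_gt i
          by_cases h4 : 4 * o < LL i
          · exact Or.inl ⟨hi, h4⟩
          · right; left
            have h5 : ¬ (o ≤ 2 * LL i) := fun h => h2 ⟨not_lt.mp h4, h⟩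
            exact ⟨Or.inr (by omega), by omega⟩
      · exact Or.inl (hz2 o h)) (by simp) K
    simpa using this
  have hmem : Mem (spo z) := by
    refine ⟨fun i => ⟨_, hb i⟩, fun δ hδ => ?_⟩
    have t2 : Tendsto (fun G : ℕ => 4 * ((3 : ℝ) / 4) ^ G) atTop (𝓝 0) := by
      have := (tendsto_pow_atTop_nhds_zero_of_lt_one (r := (3 : ℝ) / 4) (by norm_num) (by norm_num)).const_mul 4
      simpa using this
    obtain ⟨i1, hi1⟩ := eventually_atTop.mp (t2.eventually (ge_mem_nhds hδ))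
    exact ⟨i1, fun i hi K => (hb i K).trans (hi1 i hi)⟩
  refine ⟨mk hmem, fun l => ?_⟩
  apply (hEd l).mono
  intro m hm
  refine ⟨?_, hEA l hm⟩
  change TT^[m] (mk hmem) ∈ V l
  apply hcl l
  -- the difference
  let z' : ℕ → ℕ → 𝕜 := fun o => if o = 0 then 0 else z (m + o)
  have hz' : ∀ o, o ≠ 0 → z' o = z (m + o) := fun o ho => if_neg ho
  have hdiff : (fun k => co (TT^[m] (mk hmem)) k - y l k) = spo z' := by
    funext k
    rw [co_iter, co_mk]
    unfold spo
    have h1 : ∑ o ∈ range (m + k + 1), z o (m + k - o) =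
        ∑ o ∈ range m, z o (m + k - o) + ∑ o ∈ range (k + 1), z (m + o) (k - o) := by
      rw [add_assoc, sum_range_add]
      congr 1
      apply sum_congr rfl
      intro o _
      congr 1
      omega
    have h2 : ∑ o ∈ range m, z o (m + k - o) = 0 := by
      apply sum_eq_zero
      intro o ho
      rw [mem_range] at ho
      by_cases h : ∃ l, o ∈ E l
      · obtain ⟨l', hl'⟩ := h
        rw [hz1 l' o hl']
        apply hsupp
        have h3 := (hE1 l l' m o hm hl' ho).2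
        have h4 := hG1 l'
        have h5 := hG0 l'
        omega
      · rw [hz2 o h]; rfl
    have h3 : ∑ o ∈ range (k + 1), z (m + o) (k - o) = y l k + ∑ o ∈ range (k + 1), z' o (k - o) := by
      rw [sum_range_succ', sum_range_succ' (fun o => z' o (k - o))]
      have e1 : z (m + 0) (k - 0) = y l k := by rw [add_zero, Nat.sub_zero, hz1 l m hm]
      have e2 : z' 0 (k - 0) = 0 := rfl
      rw [e1, e2]
      have e3 : ∀ o ∈ range k, z (m + (o + 1)) (k - (o + 1)) = z' (o + 1) (k - (o + 1)) := by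
        intro o _
        rw [hz' (o + 1) (by omega)]
      rw [sum_congr rfl e3]
      ring
    rw [h1, h2, h3]
    ring
  rw [hdiff]
  intro i K
  have hR := main_bound z' i (G l) ((Icc 1 (2 * LL i)).filter (fun o => m + o ∈ E l)) (hY0 l) (by
    intro o
    by_cases ho : o = 0
    · left; simp only [z', ho, if_true]
    by_cases h : ∃ l', m + o ∈ E l'
    · right
      obtain ⟨l', hl'⟩ := h
      rw [hz' o ho, hz1 l' _ hl']
      have h1 := hE1 l' l (m + o) m hl' hm (by omega)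
      rw [Nat.add_sub_cancel_left] at h1
      refine ⟨hgood l' o h1.1, ?_⟩
      by_cases hi : i = 0
      · right; left
        exact ⟨Or.inl hi, h1.2⟩
      by_cases h4 : 4 * o < LL i
      · exact Or.inl ⟨hi, h4⟩
      right
      by_cases h5 : 2 * LL i ≤ o
      · left
        exact ⟨Or.inr h5, h1.2⟩
      · right
        have hll : l' = l := by
          by_contra hne
          have := hE3 l' l (m + o) m hl' hm hne (by omega) i
          rw [Nat.add_sub_cancel_left] at this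
          exact this ⟨by omega, by omega⟩
        rw [mem_filter, mem_Icc]
        rw [hll] at hl'
        exact ⟨⟨by omega, by omega⟩, hl'⟩
    · left
      rw [hz' o ho, hz2 _ h]) (by
    intro o ho J
    rw [mem_filter, mem_Icc] at ho
    rw [hz' o (by omega), hz1 l _ ho.2]
    exact hYJ l J) K
  refine hR.trans ?_
  have hcard := gap_count ((Icc 1 (2 * LL i)).filter (fun o => m + o ∈ E l)) (G l) (2 * LL i) (hG0 l)
    (by
      intro o ho
      rw [mem_filter, mem_Icc] at ho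
      have := (hE1 l l (m + o) m ho.2 hm (by omega)).1
      omega)
    (by
      intro o ho
      rw [mem_filter, mem_Icc] at ho
      exact ho.1.2)
    (by
      intro o ho o' ho' hlt
      rw [mem_filter, mem_Icc] at ho ho'
      have := (hE1 l l (m + o') (m + o) ho'.2 ho.2 (by omega)).1
      omega)
  set R := (Icc 1 (2 * LL i)).filter (fun o => m + o ∈ E l) with hRdef
  have hL := LL_pos' i
  have hGp : (0 : ℝ) < G l := by exact_mod_cast hG0 l
  have h1 : (R.card : ℝ) * G l ≤ 2 * LL i := by exact_mod_cast hcard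
  have h2 : (R.card : ℝ) * (Y l / LL i) ≤ ε l / 4 := by
    have h3 : (R.card : ℝ) ≤ 2 * LL i / G l := by rwa [le_div_iff₀ hGp]
    have h4 : (0 : ℝ) ≤ Y l / LL i := div_nonneg (hY0 l) hL.le
    calc (R.card : ℝ) * (Y l / LL i) ≤ 2 * LL i / G l * (Y l / LL i) := mul_le_mul_of_nonneg_right h3 h4
      _ = 2 * Y l / G l := by field_simp
      _ ≤ ε l / 4 := by
          rw [div_le_iff₀ hGp]
          have := hG4 l
          linarith
  have h3 := hG3 l
  linarith

end Pool.Agent.Helper25.HFH
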