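import Pool.Agent.Helper25.HFHDefs
import Pool.Agent.Helper25.HFHSpace3
set_option autoImplicit false

namespace Pool.Agent.Helper25.HFH

open Filter Topology Finset
open scoped ENNReal

/-! ### Densities -/

theorem ncard_eq (A : Set ℕ) (N : ℕ) : (A ∩ Set.Icc 1 N).ncard = cntI A 1 (N + 1) := by
  classical
  unfold cntI
  rw [← Set.ncard_coe_finset]
  congr 1
  ext n
  simp only [Set.mem_inter_iff, Set.mem_Icc, coe_filter, mem_Ico, Set.mem_ofPred_eq]
  constructor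
  · rintro ⟨h1, h2, h3⟩
    exact ⟨⟨h2, by omega⟩, h1⟩
  · rintro ⟨⟨h1, h2⟩, h3⟩
    exact ⟨h3, h1, by omega⟩

theorem ncard_le_cnt (A : Set ℕ) (N : ℕ) : (A ∩ Set.Icc 1 N).ncard ≤ cnt A N + 1 := by
  rw [ncard_eq]
  have h1 := cnt_add A (a := 1) (b := N + 1) (by omega)
  have h2 := cnt_add A (a := N) (b := N + 1) (by omega)
  have h3 := cntI_le A N (N + 1)
  omega

theorem cnt_le_ncard (A : Set ℕ) (N : ℕ) : cnt A N ≤ (A ∩ Set.Icc 1 N).ncard + 1 := by
  rw [ncard_eq]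
  have h1 := cnt_add A (a := 1) (b := N + 1) (by omega)
  have h2 := cnt_mono A (a := N) (b := N + 1) (by omega)
  have h3 := cnt_le A 1
  omega

theorem ncard_le (A : Set ℕ) (N : ℕ) : (A ∩ Set.Icc 1 N).ncard ≤ N := by
  rw [ncard_eq]
  have := cntI_le A 1 (N + 1)
  omega

theorem ratio_nonneg (A : Set ℕ) (N : ℕ) : (0 : ℝ) ≤ ((A ∩ Set.Icc 1 N).ncard : ℝ) / N := by positivity

theorem ratio_le_one (A : Set ℕ) (N : ℕ) : ((A ∩ Set.Icc 1 N).ncard : ℝ) / N ≤ 1 := by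
  have h : ((A ∩ Set.Icc 1 N).ncard : ℝ) ≤ N := by exact_mod_cast ncard_le A N
  exact div_le_one_of_le₀ h (Nat.cast_nonneg _)

theorem ratio_bdd_above (A : Set ℕ) :
    IsBoundedUnder (· ≤ ·) atTop (fun N : ℕ => ((A ∩ Set.Icc 1 N).ncard : ℝ) / N) :=
  isBoundedUnder_of ⟨1, ratio_le_one A⟩

theorem ratio_bdd_below (A : Set ℕ) :
    IsBoundedUnder (· ≥ ·) atTop (fun N : ℕ => ((A ∩ Set.Icc 1 N).ncard : ℝ) / N) :=
  isBoundedUnder_of ⟨0, ratio_nonneg A⟩

theorem posD_of_lower {A : Set ℕ} (h : 0 < lowerDensity A) : PosD A := by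
  unfold lowerDensity at h
  obtain ⟨c, hc0, hc⟩ := exists_between h
  have h1 := eventually_lt_of_lt_liminf hc (ratio_bdd_below A)
  obtain ⟨N1, hN1⟩ := eventually_atTop.mp h1
  obtain ⟨C, hC⟩ := exists_nat_ge (2 / c)
  refine ⟨C, max N1 (C + 1), fun N hN => ?_⟩
  have hN0 : 0 < N := by have := le_max_right N1 (C + 1); omega
  have hNr : (0 : ℝ) < N := by exact_mod_cast hN0
  have h2 := hN1 N (le_trans (le_max_left _ _) hN)
  rw [lt_div_iff₀ hNr] at h2
  have h3 : ((A ∩ Set.Icc 1 N).ncard : ℝ) ≤ cnt A N + 1 := by exact_mod_cast ncard_le_cnt A N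
  have h4 : (C : ℝ) ≤ N := by
    have : C ≤ N := by have := le_max_right N1 (C + 1); omega
    exact_mod_cast this
  have h5 : 2 ≤ c * C := by
    rw [div_le_iff₀ hc0] at hC
    linarith
  have h6 : 2 ≤ c * N := h5.trans (mul_le_mul_of_nonneg_left h4 hc0.le)
  have h7 : c * N ≤ 2 * cnt A N := by linarith
  have h8 : (N : ℝ) ≤ C * cnt A N := by
    have h9 : 2 * (N : ℝ) ≤ (c * C) * N := mul_le_mul_of_nonneg_right h5 hNr.le
    have h10 : (C : ℝ) * (c * N) ≤ C * (2 * cnt A N) := mul_le_mul_of_nonneg_left h7 (Nat.cast_nonneg _)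
    have h11 : (c * C) * N = (C : ℝ) * (c * N) := by ring
    linarith
  exact_mod_cast h8

theorem lower_of_posD {A : Set ℕ} (h : PosD A) : 0 < lowerDensity A := by
  obtain ⟨c, N0, hc⟩ := h
  have hcp : (0 : ℝ) < (c : ℝ) + 1 := by positivity
  have h1 : ∀ᶠ N : ℕ in atTop, 1 / (2 * ((c : ℝ) + 1)) ≤ ((A ∩ Set.Icc 1 N).ncard : ℝ) / N := by
    filter_upwards [eventually_ge_atTop N0, eventually_ge_atTop (2 * (c + 1))] with N h1 h2
    have hN0 : 0 < N := by omega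
    have hNr : (0 : ℝ) < N := by exact_mod_cast hN0
    have h3 : (N : ℝ) ≤ c * cnt A N := by exact_mod_cast hc N h1
    have h4 : (cnt A N : ℝ) ≤ (A ∩ Set.Icc 1 N).ncard + 1 := by exact_mod_cast cnt_le_ncard A N
    have h5 : 2 * ((c : ℝ) + 1) ≤ N := by exact_mod_cast h2
    rw [div_le_div_iff₀ (by positivity) hNr]
    have h6 : (c : ℝ) * cnt A N ≤ (c + 1) * ((A ∩ Set.Icc 1 N).ncard + 1) := by
      apply mul_le_mul _ h4 (Nat.cast_nonneg _) (by positivity)
      linarith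
    have h7 : ((c : ℝ) + 1) * ((A ∩ Set.Icc 1 N).ncard + 1) =
      ((A ∩ Set.Icc 1 N).ncard : ℝ) * (2 * ((c : ℝ) + 1)) / 2 + (c + 1) := by ring
    linarith
  have h2 : 1 / (2 * ((c : ℝ) + 1)) ≤ lowerDensity A := by
    unfold lowerDensity
    exact le_liminf_of_le (ratio_bdd_above A).isCoboundedUnder_ge h1
  have h3 : (0 : ℝ) < 1 / (2 * ((c : ℝ) + 1)) := by positivity
  linarith

variable {𝕜 : Type} [RCLike 𝕜]

theorem hered_D : HereditarilyHypercyclic {A | 0 < lowerDensity A} (TT : XS 𝕜 →L[𝕜] XS 𝕜) := by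
  intro I _ V A hV hA
  obtain ⟨f, hf⟩ := exists_injective_nat I
  obtain ⟨x, hx⟩ := hered_nat (𝕜 := 𝕜) (Function.extend f V (fun _ => Set.univ))
    (Function.extend f A (fun _ => Set.univ)) (by
      intro l
      by_cases h : ∃ i, f i = l
      · obtain ⟨i, rfl⟩ := h
        rw [hf.extend_apply]
        exact (hV i).1
      · rw [Function.extend_apply' _ _ _ h]
        exact isOpen_univ) (by
      intro l
      by_cases h : ∃ i, f i = l
      · obtain ⟨i, rfl⟩ := h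
        rw [hf.extend_apply]
        exact (hV i).2
      · rw [Function.extend_apply' _ _ _ h]
        exact Set.univ_nonempty) (by
      intro l
      by_cases h : ∃ i, f i = l
      · obtain ⟨i, rfl⟩ := h
        rw [hf.extend_apply]
        exact posD_of_lower (hA i)
      · rw [Function.extend_apply' _ _ _ h]
        refine ⟨1, 0, fun N _ => ?_⟩
        have : cnt Set.univ N = N := by simp [cnt]
        omega)
  refine ⟨x, fun i => ?_⟩
  have := hx (f i)
  rw [hf.extend_apply, hf.extend_apply] at this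
  exact lower_of_posD this

/-! ### The failure for the upper density -/

/-- The set of times. -/
def AA : Set ℕ := {n | ∃ i, 1 ≤ i ∧ LL i ≤ 2 * n ∧ n < LL i}

/-- The open set. -/
def VV (𝕜 : Type) [RCLike 𝕜] : Set (XS 𝕜) := {F | ‖co F 0 - 1‖ < 1 / 2}

theorem VV_open : IsOpen (VV 𝕜) :=
  isOpen_lt ((co_continuous 0).sub continuous_const).norm continuous_const

theorem VV_ne : (VV 𝕜).Nonempty := by
  refine ⟨ee 0, ?_⟩
  change ‖co (ee 0) 0 - 1‖ < 1 / 2
  rw [co_ee]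
  simp

theorem AA_upper : 0 < upperDensity AA := by
  have h1 : ∃ᶠ N : ℕ in atTop, (1 / 4 : ℝ) ≤ ((AA ∩ Set.Icc 1 N).ncard : ℝ) / N := by
    rw [frequently_atTop]
    intro a
    refine ⟨LL (a + 1), ?_, ?_⟩
    · have := LL_gt (a + 1); omega
    · have hL := LL_gt (a + 1)
      have hp : (0 : ℝ) < LL (a + 1) := LL_pos' _
      rw [le_div_iff₀ hp]
      have h2 : LL (a + 1) ≤ 4 * (AA ∩ Set.Icc 1 (LL (a + 1))).ncard := by
        have hsub : ((Ico ((LL (a + 1) + 1) / 2) (LL (a + 1)) : Finset ℕ) : Set ℕ) ⊆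
            AA ∩ Set.Icc 1 (LL (a + 1)) := by
          intro n hn
          rw [coe_Ico, Set.mem_Ico] at hn
          refine ⟨⟨a + 1, by omega, by omega, hn.2⟩, ?_⟩
          rw [Set.mem_Icc]
          omega
        have h3 := Set.ncard_le_ncard hsub ((Set.finite_Icc 1 (LL (a + 1))).inter_of_right _)
        rw [Set.ncard_coe_finset, Nat.card_Ico] at h3
        have h4 : 4 ≤ LL (a + 1) := by
          rw [LL_succ]
          have := LL_pos a
          have : 0 < LL a * (4 ^ a) ^ 2 := by positivity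
          omega
        omega
      have h3 : ((LL (a + 1) : ℕ) : ℝ) ≤ 4 * ((AA ∩ Set.Icc 1 (LL (a + 1))).ncard : ℝ) := by
        exact_mod_cast h2
      linarith
  have h2 : (1 / 4 : ℝ) ≤ upperDensity AA := le_limsup_of_frequently_le h1 (ratio_bdd_above AA)
  linarith

theorem exists_scale {i1 N : ℕ} (h : LL i1 ≤ 2 * N) : ∃ i, i1 ≤ i ∧ LL i ≤ 2 * N ∧ 2 * N < LL (i + 1) := by
  classical
  have hex : ∃ i, 2 * N < LL i := ⟨2 * N, LL_gt _⟩
  have h1 := Nat.find_spec hex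
  set i2 := Nat.find hex with hi2
  have h2 : i1 < i2 := by
    by_contra hcon
    have := LL_mono (not_lt.mp hcon)
    omega
  obtain ⟨i, hi⟩ : ∃ i, i2 = i + 1 := ⟨i2 - 1, by omega⟩
  refine ⟨i, by omega, ?_, ?_⟩
  · by_contra hcon
    exact Nat.find_min hex (m := i) (by omega) (not_le.mp hcon)
  · rw [← hi]; exact h1

theorem block_count (x : XS 𝕜) {i : ℕ} (hi : i ≠ 0) {δ : ℝ} (hδ : ∀ K, sN (co x) i K ≤ δ) (S : Finset ℕ)
    (hS : ∀ n ∈ S, (LL i ≤ 2 * n ∧ n < LL i) ∧ TT^[n] x ∈ VV 𝕜) : (S.card : ℝ) ≤ 2 * LL i * δ := by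
  have hL := LL_pos' i
  have h1 : ∑ n ∈ S, (1 / (LL i : ℝ)) * (1 / 2) ≤ ∑ n ∈ S, w i n * ‖co x n‖ := by
    apply sum_le_sum
    intro n hn
    obtain ⟨⟨h1, h2⟩, h3⟩ := hS n hn
    rw [w_mid hi h1 h2]
    apply mul_le_mul_of_nonneg_left _ (by positivity)
    have h4 : ‖co (TT^[n] x) 0 - 1‖ < 1 / 2 := h3
    rw [co_iter, add_zero] at h4
    have h5 : ‖(1 : 𝕜)‖ ≤ ‖co x n‖ + ‖co x n - 1‖ := by
      have := norm_sub_le (co x n) (co x n - 1)
      simpa using this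
    rw [norm_one] at h5
    linarith
  have h2 : ∑ n ∈ S, w i n * ‖co x n‖ ≤ sN (co x) i (LL i) := by
    unfold sN
    apply sum_le_sum_of_subset_of_nonneg
    · intro n hn
      rw [mem_range]
      exact (hS n hn).1.2
    · intro n _ _
      exact mul_nonneg (w_nonneg i n) (norm_nonneg _)
  have h3 := hδ (LL i)
  rw [sum_const, nsmul_eq_mul] at h1
  have h4 : (S.card : ℝ) * (1 / LL i * (1 / 2)) ≤ δ := by linarith
  have h5 : (S.card : ℝ) = 2 * LL i * ((S.card : ℝ) * (1 / LL i * (1 / 2))) := by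
    field_simp
  rw [h5]
  exact mul_le_mul_of_nonneg_left h4 (by positivity)

theorem not_U (x : XS 𝕜) : upperDensity ({n : ℕ | TT^[n] x ∈ VV 𝕜} ∩ AA) = 0 := by
  classical
  unfold upperDensity
  apply Tendsto.limsup_eq
  rw [Metric.tendsto_atTop]
  intro ε hε
  set Z : Set ℕ := {n : ℕ | TT^[n] x ∈ VV 𝕜} ∩ AA with hZ
  set δ := ε / 6 with hδdef
  have hδ : 0 < δ := by positivity
  obtain ⟨i1, hi1⟩ := (co_mem x).2 δ hδ
  obtain ⟨i2, hi2⟩ := exists_nat_ge (2 / δ)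
  refine ⟨LL (i1 + i2 + 1), fun N hN => ?_⟩
  obtain ⟨i, h1, h2, h3⟩ := exists_scale (i1 := i1 + i2 + 1) (N := N) (by omega)
  obtain ⟨i', rfl⟩ : ∃ i', i = i' + 1 := ⟨i - 1, by omega⟩
  set S := (range (N + 1)).filter (fun n => (LL (i' + 1) ≤ 2 * n ∧ n < LL (i' + 1)) ∧ TT^[n] x ∈ VV 𝕜) with hS
  have h4 := block_count x (i := i' + 1) (by omega) (hi1 (i' + 1) (by omega)) S (by
    intro n hn
    exact (mem_filter.mp hn).2)
  have h5 : (Z ∩ Set.Icc 1 N).ncard ≤ LL i' + S.card := by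
    have hsub : Z ∩ Set.Icc 1 N ⊆ ((range (LL i') ∪ S : Finset ℕ) : Set ℕ) := by
      rintro n ⟨⟨hn1, i'', hi'', hn2, hn3⟩, hn4⟩
      rw [Set.mem_Icc] at hn4
      rw [mem_coe, mem_union, mem_range]
      rcases lt_trichotomy i'' (i' + 1) with h | h | h
      · left
        have := LL_mono (i := i'') (j := i') (by omega)
        omega
      · right
        subst h
        rw [hS, mem_filter, mem_range]
        exact ⟨by omega, ⟨hn2, hn3⟩, hn1⟩
      · exfalso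
        have := LL_mono (i := i' + 1 + 1) (j := i'') (by omega)
        omega
    have h6 := Set.ncard_le_ncard hsub (finite_toSet _)
    rw [Set.ncard_coe_finset] at h6
    refine h6.trans ((card_union_le _ _).trans ?_)
    rw [card_range]
  have h6 : LL i' * (i' + 1) ≤ LL (i' + 1) := by
    rw [LL_succ]
    have h61 : i' + 1 ≤ 4 ^ i' := Nat.lt_pow_self (by norm_num)
    have h62 : 4 ^ i' ≤ (4 ^ i') ^ 2 := Nat.le_self_pow (by norm_num) _
    have h63 : LL i' * (i' + 1) ≤ LL i' * (4 ^ i') ^ 2 := Nat.mul_le_mul_left _ (h61.trans h62)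
    omega
  have h5' : ((Z ∩ Set.Icc 1 N).ncard : ℝ) ≤ LL i' + S.card := by exact_mod_cast h5
  have h6' : (LL i' : ℝ) * (i' + 1) ≤ LL (i' + 1) := by exact_mod_cast h6
  have h7 : 2 / δ ≤ (i' : ℝ) + 1 := by
    have : (i2 : ℝ) ≤ (i' : ℝ) + 1 := by
      have : i2 ≤ i' + 1 := by omega
      exact_mod_cast this
    linarith
  have hLp := LL_pos' i'
  have h8 : (LL i' : ℝ) * 2 ≤ δ * LL (i' + 1) := by
    rw [div_le_iff₀ hδ] at h7
    calc (LL i' : ℝ) * 2 ≤ LL i' * ((i' + 1) * δ) := mul_le_mul_of_nonneg_left h7 hLp.le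
      _ = δ * (LL i' * (i' + 1)) := by ring
      _ ≤ _ := mul_le_mul_of_nonneg_left h6' hδ.le
  have h9 : (LL (i' + 1) : ℝ) ≤ 2 * N := by exact_mod_cast h2
  have hNp : (0 : ℝ) < N := by
    have : (0 : ℝ) < LL (i' + 1) := LL_pos' _
    linarith
  rw [Real.dist_eq, sub_zero, abs_of_nonneg (by positivity), div_lt_iff₀ hNp]
  have h10 : δ * LL (i' + 1) ≤ δ * (2 * N) := mul_le_mul_of_nonneg_left h9 hδ.le
  have h11 : ε = 6 * δ := by rw [hδdef]; ring
  rw [h11]
  have h12 : 0 < δ * N := by positivity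
  linarith

/-- The counterexample. -/
theorem final (𝕜 : Type) [RCLike 𝕜] :
    ∃ (X : Type) (_ : NormedAddCommGroup X) (_ : NormedSpace 𝕜 X),
      CompleteSpace X ∧ TopologicalSpace.SeparableSpace X ∧ ¬ FiniteDimensional 𝕜 X ∧
      ∃ T : X →L[𝕜] X,
        HereditarilyHypercyclic {A | 0 < lowerDensity A} T ∧
        ¬ HereditarilyHypercyclic {A | 0 < upperDensity A} T ∧
        ∃ (V : Set X) (A : Set ℕ), IsOpen V ∧ V.Nonempty ∧ 0 < upperDensity A ∧
          ∀ x : X, upperDensity ({n : ℕ | T^[n] x ∈ V} ∩ A) = 0 := by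
  refine ⟨XS 𝕜, inferInstance, inferInstance, inferInstance, inferInstance, XX_inf, TT, hered_D, ?_,
    VV 𝕜, AA, VV_open, VV_ne, AA_upper, not_U⟩
  intro h
  obtain ⟨x, hx⟩ := h Unit (fun _ => VV 𝕜) (fun _ => AA) (fun _ => ⟨VV_open, VV_ne⟩) (fun _ => AA_upper)
  have h1 := hx ()
  have h2 := not_U x
  change 0 < upperDensity _ at h1
  rw [h2] at h1
  exact lt_irrefl _ h1

end Pool.Agent.Helper25.HFH
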