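import Pool.Agent.Helper25.HFHComb3
set_option autoImplicit false

namespace Pool.Agent.Helper25.HFH

open Filter Topology Finset
open scoped ENNReal

/-! ### The weights -/

/-- The weights. -/
noncomputable def w (i k : ℕ) : ℝ :=
  if i = 0 then (1 / 4) ^ k else
    (if 2 * k < LL i then 0 else if k < LL i then 1 else (1 / 4) ^ (k - LL i)) / LL i

theorem LL_pos' (i : ℕ) : (0 : ℝ) < LL i := by exact_mod_cast LL_pos i

theorem w_nonneg (i k : ℕ) : 0 ≤ w i k := by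
  unfold w
  have := LL_pos' i
  split_ifs <;> positivity

theorem w_zero (k : ℕ) : w 0 k = (1 / 4) ^ k := by simp [w]

theorem w_shift (i k : ℕ) : w i k ≤ 4 * w i (k + 1) := by
  unfold w
  have hL := LL_pos' i
  by_cases hi : i = 0
  · rw [if_pos hi, if_pos hi, pow_succ]; linarith
  · rw [if_neg hi, if_neg hi, ← mul_div_assoc]
    apply div_le_div_of_nonneg_right _ hL.le
    by_cases h1 : 2 * k < LL i
    · rw [if_pos h1]
      split_ifs <;> positivity
    · have e1 : ¬ 2 * (k + 1) < LL i := by omega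
      by_cases h2 : k + 1 < LL i
      · have e2 : k < LL i := by omega
        simp only [h1, e1, h2, e2, if_true, if_false]; norm_num
      · by_cases h3 : k < LL i
        · have : k + 1 - LL i = 0 := by omega
          simp only [h1, e1, h2, h3, this, if_true, if_false]; norm_num
        · have : k + 1 - LL i = (k - LL i) + 1 := by omega
          simp only [h1, e1, h2, h3, this, if_false, pow_succ]; linarith

theorem w_le_inv (i k : ℕ) : w i k ≤ 1 / LL i := by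
  unfold w
  have hL := LL_pos' i
  by_cases hi : i = 0
  · subst hi
    simp only [if_true]
    have : LL 0 = 1 := by simp [LL]
    rw [this]
    simpa using pow_le_one₀ (n := k) (by norm_num : (0 : ℝ) ≤ 1 / 4) (by norm_num)
  · rw [if_neg hi]
    apply div_le_div_of_nonneg_right _ hL.le
    split_ifs
    · norm_num
    · exact le_rfl
    · exact pow_le_one₀ (by norm_num) (by norm_num)

theorem w_eq_zero {i k : ℕ} (hi : i ≠ 0) (h : 2 * k < LL i) : w i k = 0 := by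
  unfold w
  rw [if_neg hi, if_pos h, zero_div]

theorem w_mid {i k : ℕ} (hi : i ≠ 0) (h1 : LL i ≤ 2 * k) (h2 : k < LL i) : w i k = 1 / LL i := by
  unfold w
  rw [if_neg hi, if_neg (by omega), if_pos h2]

theorem w_far {i k : ℕ} (h : i = 0 ∨ 2 * LL i ≤ k) : w i k ≤ (1 / 2) ^ k := by
  have hL := LL_pos i
  by_cases hi : i = 0
  · subst hi
    rw [w_zero]
    exact pow_le_pow_left₀ (by norm_num) (by norm_num) k
  · have h' : 2 * LL i ≤ k := by
      rcases h with h | h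
      · exact absurd h hi
      · exact h
    unfold w
    rw [if_neg hi, if_neg (by omega), if_neg (by omega)]
    have h1 : (1 : ℝ) ≤ LL i := by exact_mod_cast hL
    calc ((1 : ℝ) / 4) ^ (k - LL i) / LL i ≤ (1 / 4) ^ (k - LL i) := div_le_self (by positivity) h1
      _ = (1 / 2) ^ (2 * (k - LL i)) := by rw [pow_mul]; norm_num
      _ ≤ (1 / 2) ^ k := by
          apply pow_le_pow_of_le_one (by norm_num) (by norm_num)
          omega

/-! ### Partial sums of the seminorms -/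

/-- Partial sums of the `i`-th seminorm. -/
noncomputable def sN {𝕜 : Type} [RCLike 𝕜] (x : ℕ → 𝕜) (i K : ℕ) : ℝ := ∑ k ∈ range K, w i k * ‖x k‖

variable {𝕜 : Type} [RCLike 𝕜]

theorem sN_mono (x : ℕ → 𝕜) (i : ℕ) {K K' : ℕ} (h : K ≤ K') : sN x i K ≤ sN x i K' := by
  unfold sN
  apply sum_le_sum_of_subset_of_nonneg (range_mono h)
  intro k _ _
  exact mul_nonneg (w_nonneg i k) (norm_nonneg _)

theorem sN_nonneg (x : ℕ → 𝕜) (i K : ℕ) : 0 ≤ sN x i K :=
  sum_nonneg fun k _ => mul_nonneg (w_nonneg i k) (norm_nonneg _)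

theorem sN_le_of_le {x y : ℕ → 𝕜} (h : ∀ k, ‖x k‖ ≤ ‖y k‖) (i K : ℕ) : sN x i K ≤ sN y i K :=
  sum_le_sum fun k _ => mul_le_mul_of_nonneg_left (h k) (w_nonneg i k)

theorem sN_shift (x : ℕ → 𝕜) (i K : ℕ) : sN (fun k => x (k + 1)) i K ≤ 4 * sN x i (K + 1) := by
  unfold sN
  rw [sum_range_succ', mul_add, mul_sum]
  have h1 : 0 ≤ 4 * (w i 0 * ‖x 0‖) := by
    have := w_nonneg i 0
    positivity
  have h2 : ∑ k ∈ range K, w i k * ‖x (k + 1)‖ ≤ ∑ k ∈ range K, 4 * (w i (k + 1) * ‖x (k + 1)‖) := by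
    apply sum_le_sum
    intro k _
    rw [← mul_assoc]
    exact mul_le_mul_of_nonneg_right (w_shift i k) (norm_nonneg _)
  linarith

/-- Membership in the space. -/
def Mem (x : ℕ → 𝕜) : Prop :=
  (∀ i, ∃ C, ∀ K, sN x i K ≤ C) ∧ ∀ ε > 0, ∃ i1, ∀ i ≥ i1, ∀ K, sN x i K ≤ ε

/-! ### The space -/

variable (𝕜)

/-- The ambient Banach space. -/
abbrev Amb : Type := ZeroAtInftyContinuousMap ℕ (lp (fun _ : ℕ => 𝕜) 1)

/-- The space `X`, as a subspace of `C₀(ℕ, ℓ¹)`. -/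
noncomputable def XX : Submodule 𝕜 (Amb 𝕜) where
  carrier := {F | ∀ i k, (F i : ℕ → 𝕜) k = (algebraMap ℝ 𝕜 (w i k * 4 ^ k)) * (F 0 : ℕ → 𝕜) k}
  add_mem' := by
    intro F G hF hG i k
    have h1 := hF i k
    have h2 := hG i k
    simp only [ZeroAtInftyContinuousMap.add_apply, lp.coeFn_add, Pi.add_apply, h1, h2]
    ring
  zero_mem' := by
    intro i k
    simp
  smul_mem' := by
    intro c F hF i k
    have h1 := hF i k
    simp only [ZeroAtInftyContinuousMap.smul_apply, lp.coeFn_smul, Pi.smul_apply, h1, smul_eq_mul]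
    ring

variable {𝕜}

theorem amb_lip (i : ℕ) : LipschitzWith 1 fun F : Amb 𝕜 => F i := by
  have h := (BoundedContinuousFunction.lipschitz_eval_const (β := lp (fun _ : ℕ => 𝕜) 1) i).comp
    (ZeroAtInftyContinuousMap.isometry_toBCF (α := ℕ) (β := lp (fun _ : ℕ => 𝕜) 1)).lipschitz
  rw [mul_one] at h
  exact h

theorem eval_continuous (i k : ℕ) : Continuous fun F : Amb 𝕜 => (F i : ℕ → 𝕜) k :=
  (lp.lipschitzWith_one_eval (E := fun _ : ℕ => 𝕜) 1 k).continuous.comp (amb_lip i).continuous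

theorem XX_closed : IsClosed (XX 𝕜 : Set (Amb 𝕜)) := by
  have : (XX 𝕜 : Set (Amb 𝕜)) = ⋂ i, ⋂ k, {F : Amb 𝕜 | (F i : ℕ → 𝕜) k =
      (algebraMap ℝ 𝕜 (w i k * 4 ^ k)) * (F 0 : ℕ → 𝕜) k} := by
    ext F
    simp only [Set.mem_iInter]
    rfl
  rw [this]
  refine isClosed_iInter fun i => isClosed_iInter fun k => ?_
  exact isClosed_eq (eval_continuous i k) (continuous_const.mul (eval_continuous 0 k))

variable (𝕜) in
/-- The space `X`. -/
def XS : Type := ↥(XX 𝕜)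

noncomputable instance : NormedAddCommGroup (XS 𝕜) := inferInstanceAs (NormedAddCommGroup ↥(XX 𝕜))

noncomputable instance : NormedSpace 𝕜 (XS 𝕜) := inferInstanceAs (NormedSpace 𝕜 ↥(XX 𝕜))

instance : CompleteSpace (XS 𝕜) := XX_closed.completeSpace_coe

/-- The underlying element of the ambient space. -/
noncomputable def va (F : XS 𝕜) : Amb 𝕜 := (F : ↥(XX 𝕜)).1

theorem va_mem (F : XS 𝕜) (i k : ℕ) : (va F i : ℕ → 𝕜) k =
    (algebraMap ℝ 𝕜 (w i k * 4 ^ k)) * (va F 0 : ℕ → 𝕜) k := (F : ↥(XX 𝕜)).2 i k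

theorem va_add (F G : XS 𝕜) : va (F + G) = va F + va G := rfl

theorem va_smul (c : 𝕜) (F : XS 𝕜) : va (c • F) = c • va F := rfl

theorem va_norm (F : XS 𝕜) : ‖va F‖ = ‖F‖ := rfl

theorem va_inj {F G : XS 𝕜} (h : va F = va G) : F = G := Subtype.ext h

theorem va_continuous : Continuous (va : XS 𝕜 → Amb 𝕜) := continuous_subtype_val

/-- The coordinates. -/
noncomputable def co : XS 𝕜 →ₗ[𝕜] (ℕ → 𝕜) where
  toFun F k := (4 : 𝕜) ^ k * (va F 0 : ℕ → 𝕜) k
  map_add' F G := by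
    ext k
    rw [va_add]
    simp [mul_add]
  map_smul' c F := by
    ext k
    rw [va_smul]
    simp
    ring

theorem co_apply (F : XS 𝕜) (k : ℕ) : co F k = (4 : 𝕜) ^ k * (va F 0 : ℕ → 𝕜) k := rfl

theorem amap4 : (algebraMap ℝ 𝕜) 4 = 4 := map_ofNat (algebraMap ℝ 𝕜) 4

theorem coe_eq (F : XS 𝕜) (i k : ℕ) : (va F i : ℕ → 𝕜) k = algebraMap ℝ 𝕜 (w i k) * co F k := by
  rw [co_apply, va_mem F i k, map_mul, map_pow, amap4]
  ring

theorem norm_coe_eq (F : XS 𝕜) (i k : ℕ) : ‖(va F i : ℕ → 𝕜) k‖ = w i k * ‖co F k‖ := by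
  rw [coe_eq, norm_mul, norm_algebraMap', Real.norm_of_nonneg (w_nonneg i k)]

theorem co_inj {F G : XS 𝕜} (h : co F = co G) : F = G := by
  apply va_inj
  apply ZeroAtInftyContinuousMap.ext
  intro i
  apply lp.ext
  funext k
  rw [coe_eq, coe_eq, h]

theorem co_continuous (k : ℕ) : Continuous fun F : XS 𝕜 => co F k :=
  continuous_const.mul ((eval_continuous 0 k).comp va_continuous)

theorem sum_le_norm_apply (f : lp (fun _ : ℕ => 𝕜) 1) (s : Finset ℕ) : ∑ k ∈ s, ‖(f : ℕ → 𝕜) k‖ ≤ ‖f‖ := by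
  simpa using lp.sum_rpow_le_norm_rpow (p := 1) (by simp) f s

theorem lp_norm_le {f : lp (fun _ : ℕ => 𝕜) 1} {C : ℝ} (h : ∀ K, ∑ k ∈ range K, ‖(f : ℕ → 𝕜) k‖ ≤ C) :
    ‖f‖ ≤ C := by
  have hC : 0 ≤ C := by simpa using h 0
  apply lp.norm_le_of_forall_sum_le (p := 1) (by simp) hC
  intro s
  simp only [ENNReal.toReal_one, Real.rpow_one]
  obtain ⟨K, hK⟩ := s.exists_nat_subset_range
  exact (sum_le_sum_of_subset_of_nonneg hK (fun _ _ _ => norm_nonneg _)).trans (h K)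

theorem sN_le_norm_apply (F : XS 𝕜) (i K : ℕ) : sN (co F) i K ≤ ‖va F i‖ := by
  have := sum_le_norm_apply (va F i) (range K)
  simp only [norm_coe_eq] at this
  exact this

theorem norm_apply_le {F : XS 𝕜} {i : ℕ} {C : ℝ} (h : ∀ K, sN (co F) i K ≤ C) : ‖va F i‖ ≤ C := by
  apply lp_norm_le
  simp only [norm_coe_eq]
  exact h

theorem XX_norm_le {F : XS 𝕜} {C : ℝ} (h : ∀ i K, sN (co F) i K ≤ C) : ‖F‖ ≤ C := by
  have hC : 0 ≤ C := by simpa [sN] using h 0 0
  have : ‖va F‖ ≤ C := by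
    rw [← ZeroAtInftyContinuousMap.norm_toBCF_eq_norm, BoundedContinuousFunction.norm_le hC]
    intro i
    exact norm_apply_le (h i)
  exact this

theorem sN_le_norm (F : XS 𝕜) (i K : ℕ) : sN (co F) i K ≤ ‖F‖ := by
  refine (sN_le_norm_apply F i K).trans ?_
  exact (va F).toBCF.norm_coe_le_norm i

theorem co_mem (F : XS 𝕜) : Mem (co F) := by
  refine ⟨fun i => ⟨‖F‖, sN_le_norm F i⟩, fun ε hε => ?_⟩
  have h := (va F).zero_at_infty'
  rw [cocompact_eq_cofinite, Nat.cofinite_eq_atTop] at h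
  have h2 := (Metric.tendsto_nhds.mp h) ε hε
  obtain ⟨i1, hi1⟩ := eventually_atTop.mp h2
  refine ⟨i1, fun i hi K => (sN_le_norm_apply F i K).trans ?_⟩
  have := hi1 i hi
  rw [dist_zero_right] at this
  exact this.le

/-- Construction of elements. -/
theorem exists_of_mem {x : ℕ → 𝕜} (hx : Mem x) : ∃ F : XS 𝕜, co F = x := by
  have hs : ∀ i, Memℓp (fun k => algebraMap ℝ 𝕜 (w i k) * x k) 1 := by
    intro i
    obtain ⟨C, hC⟩ := hx.1 i
    apply memℓp_gen
    simp only [ENNReal.toReal_one, Real.rpow_one, norm_mul, norm_algebraMap',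
      Real.norm_of_nonneg (w_nonneg i _)]
    exact summable_of_sum_range_le (c := C)
      (fun k => mul_nonneg (w_nonneg i k) (norm_nonneg _)) hC
  let f : ℕ → lp (fun _ : ℕ => 𝕜) 1 := fun i => ⟨fun k => algebraMap ℝ 𝕜 (w i k) * x k, hs i⟩
  have hf : ∀ i k, (f i : ℕ → 𝕜) k = algebraMap ℝ 𝕜 (w i k) * x k := fun i k => rfl
  have ht : Tendsto f (cocompact ℕ) (𝓝 0) := by
    rw [cocompact_eq_cofinite, Nat.cofinite_eq_atTop, Metric.tendsto_atTop]
    intro ε hε
    obtain ⟨i1, hi1⟩ := hx.2 (ε / 2) (by linarith)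
    refine ⟨i1, fun i hi => ?_⟩
    rw [dist_zero_right]
    have : ‖f i‖ ≤ ε / 2 := by
      apply lp_norm_le
      intro K
      simp only [hf, norm_mul, norm_algebraMap', Real.norm_of_nonneg (w_nonneg i _)]
      exact hi1 i hi K
    linarith
  let F : Amb 𝕜 := ⟨⟨f, continuous_of_discreteTopology⟩, ht⟩
  have hF : ∀ i, F i = f i := fun i => rfl
  have h4 : ∀ k : ℕ, (4 : 𝕜) ^ k * algebraMap ℝ 𝕜 (w 0 k) = 1 := by
    intro k
    rw [w_zero, map_pow, map_div₀, map_one, amap4, ← mul_pow]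
    have h40 : (4 : 𝕜) ≠ 0 := by norm_num
    rw [mul_one_div, div_self h40, one_pow]
  have hFX : F ∈ XX 𝕜 := by
    intro i k
    rw [hF, hF, hf, hf, map_mul, map_pow, amap4]
    calc algebraMap ℝ 𝕜 (w i k) * x k = algebraMap ℝ 𝕜 (w i k) * ((4 : 𝕜) ^ k * algebraMap ℝ 𝕜 (w 0 k)) * x k := by
          rw [h4, mul_one]
      _ = _ := by ring
  refine ⟨⟨F, hFX⟩, ?_⟩
  funext k
  rw [co_apply]
  change (4 : 𝕜) ^ k * (f 0 : ℕ → 𝕜) k = x k
  rw [hf, ← mul_assoc, h4, one_mul]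

end Pool.Agent.Helper25.HFH
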