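import Pool.Agent.Helper25.HFHSpace1
set_option autoImplicit false

namespace Pool.Agent.Helper25.HFH

open Filter Topology Finset
open scoped ENNReal

variable {𝕜 : Type} [RCLike 𝕜]

theorem Mem.shift {x : ℕ → 𝕜} (hx : Mem x) : Mem (fun k => x (k + 1)) := by
  refine ⟨fun i => ?_, fun ε hε => ?_⟩
  · obtain ⟨C, hC⟩ := hx.1 i
    refine ⟨4 * C, fun K => (sN_shift x i K).trans ?_⟩
    have := hC (K + 1)
    linarith
  · obtain ⟨i1, h⟩ := hx.2 (ε / 4) (by linarith)
    refine ⟨i1, fun i hi K => (sN_shift x i K).trans ?_⟩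
    have := h i hi (K + 1)
    linarith

theorem Mem.mono {x y : ℕ → 𝕜} (hx : Mem x) (h : ∀ k, ‖y k‖ ≤ ‖x k‖) : Mem y := by
  refine ⟨fun i => ?_, fun ε hε => ?_⟩
  · obtain ⟨C, hC⟩ := hx.1 i
    exact ⟨C, fun K => (sN_le_of_le h i K).trans (hC K)⟩
  · obtain ⟨i1, h'⟩ := hx.2 ε hε
    exact ⟨i1, fun i hi K => (sN_le_of_le h i K).trans (h' i hi K)⟩

/-- The element with given coordinates. -/
noncomputable def mk {x : ℕ → 𝕜} (hx : Mem x) : XS 𝕜 := (exists_of_mem hx).choose

theorem co_mk {x : ℕ → 𝕜} (hx : Mem x) : co (mk hx) = x := (exists_of_mem hx).choose_spec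

/-- The backward shift. -/
noncomputable def TL : XS 𝕜 →ₗ[𝕜] XS 𝕜 where
  toFun F := mk (co_mem F).shift
  map_add' F G := by
    apply co_inj
    rw [map_add co (mk _) (mk _)]
    simp only [co_mk, map_add co F G]
    rfl
  map_smul' c F := by
    apply co_inj
    rw [map_smul co _ (mk _)]
    simp only [co_mk, map_smul co c F]
    rfl

theorem co_TL (F : XS 𝕜) : co (TL F) = fun k => co F (k + 1) := co_mk (co_mem F).shift

/-- The backward shift, as a bounded operator. -/
noncomputable def TT : XS 𝕜 →L[𝕜] XS 𝕜 := TL.mkContinuous 4 (by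
  intro F
  apply XX_norm_le
  intro i K
  rw [co_TL]
  refine (sN_shift (co F) i K).trans ?_
  have := sN_le_norm F i (K + 1)
  linarith)

theorem co_TT (F : XS 𝕜) (k : ℕ) : co (TT F) k = co F (k + 1) := by
  change co (TL F) k = _
  rw [co_TL]

theorem co_iter (n : ℕ) (F : XS 𝕜) (k : ℕ) : co (TT^[n] F) k = co F (n + k) := by
  induction n generalizing k with
  | zero => simp
  | succ n ih =>
    rw [Function.iterate_succ_apply', co_TT, ih, ← add_assoc, add_right_comm]

/-! ### Finitely supported elements -/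

theorem sN_fin {x : ℕ → 𝕜} {s : ℕ} (hx : ∀ k, s < k → x k = 0) {Y : ℝ}
    (hY : ∑ k ∈ range (s + 1), ‖x k‖ ≤ Y) (i K : ℕ) : sN x i K ≤ Y / LL i := by
  have hL := LL_pos' i
  have h1 : sN x i K ≤ sN x i (max K (s + 1)) := sN_mono x i (le_max_left _ _)
  have h2 : sN x i (max K (s + 1)) = sN x i (s + 1) := by
    unfold sN
    symm
    apply sum_subset (range_mono (le_max_right _ _))
    intro k _ hk
    rw [mem_range, not_lt] at hk
    rw [hx k (by omega), norm_zero, mul_zero]
  have h3 : sN x i (s + 1) ≤ ∑ k ∈ range (s + 1), (1 / (LL i : ℝ)) * ‖x k‖ :=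
    sum_le_sum fun k _ => mul_le_mul_of_nonneg_right (w_le_inv i k) (norm_nonneg _)
  rw [← mul_sum] at h3
  calc sN x i K ≤ (1 / (LL i : ℝ)) * ∑ k ∈ range (s + 1), ‖x k‖ := by linarith
    _ ≤ (1 / (LL i : ℝ)) * Y := mul_le_mul_of_nonneg_left hY (by positivity)
    _ = Y / LL i := by ring

theorem tendsto_LL : Tendsto (fun i => (LL i : ℝ)) atTop atTop := by
  apply tendsto_natCast_atTop_atTop.comp
  exact tendsto_atTop_mono (fun i => (LL_gt i).le) tendsto_id

theorem small_div (Y : ℝ) {ε : ℝ} (hε : 0 < ε) : ∃ i1, ∀ i ≥ i1, Y / LL i ≤ ε := by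
  have h : Tendsto (fun i => Y / (LL i : ℝ)) atTop (𝓝 0) := tendsto_const_nhds.div_atTop tendsto_LL
  exact eventually_atTop.mp (h.eventually (ge_mem_nhds hε))

theorem Mem.of_fin {x : ℕ → 𝕜} {s : ℕ} (hx : ∀ k, s < k → x k = 0) : Mem x := by
  refine ⟨fun i => ⟨_, sN_fin hx le_rfl i⟩, fun ε hε => ?_⟩
  obtain ⟨i1, h⟩ := small_div (∑ k ∈ range (s + 1), ‖x k‖) hε
  exact ⟨i1, fun i hi K => (sN_fin hx le_rfl i K).trans (h i hi)⟩

theorem exists_small_tail (f : ℕ → ℝ) {C : ℝ} (hC : ∀ K, f K ≤ C) {ε : ℝ} (hε : 0 < ε) :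
    ∃ K, ∀ K', f K' ≤ f K + ε := by
  have hb : BddAbove (Set.range f) := ⟨C, by rintro _ ⟨K, rfl⟩; exact hC K⟩
  obtain ⟨K, hK⟩ := exists_lt_of_lt_ciSup (show (⨆ K, f K) - ε < ⨆ K, f K by linarith)
  refine ⟨K, fun K' => ?_⟩
  have := le_ciSup hb K'
  linarith

/-- Truncations approximate. -/
theorem exists_trunc (F : XS 𝕜) {ε : ℝ} (hε : 0 < ε) : ∃ (K : ℕ) (G : XS 𝕜),
    (∀ k, co G k = if k < K then co F k else 0) ∧ ‖F - G‖ ≤ ε := by
  obtain ⟨h1, h2⟩ := co_mem F
  obtain ⟨i1, hi1⟩ := h2 ε hε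
  have h3 : ∀ i, ∃ K, ∀ K', sN (co F) i K' ≤ sN (co F) i K + ε := by
    intro i
    obtain ⟨C, hC⟩ := h1 i
    exact exists_small_tail _ hC hε
  choose Kf hKf using h3
  set K := (range i1).sup Kf with hK
  have hm : Mem (fun k => if k < K then co F k else 0) := by
    apply (co_mem F).mono
    intro k
    split_ifs <;> simp
  refine ⟨K, mk hm, fun k => by rw [co_mk], ?_⟩
  apply XX_norm_le
  intro i K'
  have hco : co (F - mk hm) = fun k => if k < K then 0 else co F k := by
    rw [map_sub, co_mk]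
    funext k
    simp only [Pi.sub_apply]
    split_ifs <;> simp
  rw [hco]
  by_cases hi : i < i1
  · have hKK : Kf i ≤ K := le_sup (f := Kf) (mem_range.mpr hi)
    have h4 : sN (fun k => if k < K then 0 else co F k) i K' ≤
        sN (fun k => if k < K then 0 else co F k) i (max K K') := sN_mono _ _ (le_max_right _ _)
    have h5 : sN (fun k => if k < K then 0 else co F k) i (max K K') + sN (co F) i K =
        sN (co F) i (max K K') := by
      unfold sN
      rw [← sum_range_add_sum_Ico _ (le_max_left K K'), ← sum_range_add_sum_Ico _ (le_max_left K K')]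
      have e1 : ∑ k ∈ range K, w i k * ‖if k < K then (0 : 𝕜) else co F k‖ = 0 := by
        apply sum_eq_zero
        intro k hk
        rw [if_pos (mem_range.mp hk)]; simp
      have e2 : ∑ k ∈ Ico K (max K K'), w i k * ‖if k < K then (0 : 𝕜) else co F k‖ =
          ∑ k ∈ Ico K (max K K'), w i k * ‖co F k‖ := by
        apply sum_congr rfl
        intro k hk
        rw [if_neg (not_lt.mpr (mem_Ico.mp hk).1)]
      rw [e1, e2]; ring
    have h6 := hKf i (max K K')
    have h7 := sN_mono (co F) i hKK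
    linarith
  · refine le_trans ?_ (hi1 i (not_lt.mp hi) K')
    apply sN_le_of_le
    intro k
    split_ifs <;> simp

/-- The unit vectors. -/
noncomputable def ee (n : ℕ) : XS 𝕜 :=
  mk (Mem.of_fin (x := fun k => if k = n then 1 else 0) (s := n) (fun k hk => if_neg (by omega)))

theorem co_ee (n k : ℕ) : co (ee n : XS 𝕜) k = if k = n then 1 else 0 := by
  unfold ee
  rw [co_mk]

theorem ee_span : closure (Submodule.span 𝕜 (Set.range (ee : ℕ → XS 𝕜)) : Set (XS 𝕜)) = Set.univ := by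
  rw [Set.eq_univ_iff_forall]
  intro F
  rw [Metric.mem_closure_iff]
  intro ε hε
  obtain ⟨K, G, h1, h2⟩ := exists_trunc F (half_pos hε)
  refine ⟨G, ?_, by rw [dist_eq_norm]; linarith⟩
  have : G = ∑ k ∈ range K, co F k • (ee k : XS 𝕜) := by
    apply co_inj
    rw [map_sum]
    funext j
    simp only [map_smul, Finset.sum_apply, Pi.smul_apply, co_ee, smul_eq_mul, mul_ite, mul_one,
      mul_zero, sum_ite_eq, mem_range, h1]
  rw [this]
  exact Submodule.sum_mem _ fun k _ => Submodule.smul_mem _ _ (Submodule.subset_span ⟨k, rfl⟩)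

instance : TopologicalSpace.SeparableSpace (XS 𝕜) := by
  rw [← TopologicalSpace.isSeparable_univ_iff, ← ee_span]
  apply TopologicalSpace.IsSeparable.closure
  apply TopologicalSpace.IsSeparable.span
  exact (Set.countable_range _).isSeparable

theorem ee_li : LinearIndependent 𝕜 (ee : ℕ → XS 𝕜) := by
  rw [linearIndependent_iff']
  intro s g hg i hi
  have h := congrArg (fun F => co F i) hg
  simpa [map_sum, co_ee, hi] using h

theorem XX_inf : ¬ FiniteDimensional 𝕜 (XS 𝕜) := by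
  intro h
  have := (ee_li (𝕜 := 𝕜)).finite
  exact not_finite ℕ

end Pool.Agent.Helper25.HFH
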