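import Pool.Agent.Helper25.NADefs

/-!
Common tools for MP_5ffaeb_an: renorming of a vector space by a norm given as a seminorm that
vanishes only at zero, and a strictly convex renorming of `c₀`.
-/

set_option autoImplicit false

open scoped ZeroAtInfty ENNReal

namespace Pool.Agent.Helper25.NA

/-! ### Renorming -/

section Renorm

variable {𝕜 : Type*} {E : Type*} [NormedField 𝕜] [AddCommGroup E] [Module 𝕜 E]

/-- The vector space `E` equipped with the norm `p`. -/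
def Renorm (p : Seminorm 𝕜 E) (_hp : ∀ x, p x = 0 → x = 0) : Type _ := E

variable (p : Seminorm 𝕜 E) (hp : ∀ x, p x = 0 → x = 0)

instance Renorm.instAddCommGroup : AddCommGroup (Renorm p hp) := inferInstanceAs (AddCommGroup E)

instance Renorm.instModule : Module 𝕜 (Renorm p hp) := inferInstanceAs (Module 𝕜 E)

noncomputable instance Renorm.instNormedAddCommGroup : NormedAddCommGroup (Renorm p hp) :=
  AddGroupNorm.toNormedAddCommGroup (E := Renorm p hp)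
    { toFun := fun x => p x
      map_zero' := map_zero p
      add_le' := fun x y => map_add_le_add p x y
      neg' := fun x => map_neg_eq_map p x
      eq_zero_of_map_eq_zero' := hp }

/-- The identity map as a linear equivalence. -/
def Renorm.equiv : Renorm p hp ≃ₗ[𝕜] E := LinearEquiv.refl 𝕜 E

theorem Renorm.norm_def (x : Renorm p hp) : ‖x‖ = p (Renorm.equiv p hp x) := rfl

noncomputable instance Renorm.instNormedSpace : NormedSpace 𝕜 (Renorm p hp) where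
  norm_smul_le a x := le_of_eq (map_smul_eq_mul p a (Renorm.equiv p hp x))

theorem Renorm.norm_symm (x : E) : ‖(Renorm.equiv p hp).symm x‖ = p x := rfl

end Renorm

section RenormComplete

variable {𝕜 : Type*} {E : Type*} [RCLike 𝕜] [NormedAddCommGroup E] [NormedSpace 𝕜 E]
  (p : Seminorm 𝕜 E) (hp : ∀ x, p x = 0 → x = 0)

/-- The identity as a continuous linear map from the old to the new norm. -/
noncomputable def Renorm.toNew {C : ℝ} (hC : ∀ x : E, p x ≤ C * ‖x‖) : E →L[𝕜] Renorm p hp :=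
  LinearMap.mkContinuous (Renorm.equiv p hp).symm.toLinearMap C hC

/-- The identity as a continuous linear map from the new to the old norm. -/
noncomputable def Renorm.toOld {c : ℝ} (hc : ∀ x : E, ‖x‖ ≤ c * p x) : Renorm p hp →L[𝕜] E :=
  LinearMap.mkContinuous (Renorm.equiv p hp).toLinearMap c (fun x => hc (Renorm.equiv p hp x))

/-- The identity as a continuous linear equivalence. -/
noncomputable def Renorm.cle {C c : ℝ} (hC : ∀ x : E, p x ≤ C * ‖x‖)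
    (hc : ∀ x : E, ‖x‖ ≤ c * p x) : Renorm p hp ≃L[𝕜] E :=
  { Renorm.equiv p hp with
    continuous_toFun := (Renorm.toOld p hp hc).continuous
    continuous_invFun := (Renorm.toNew p hp hC).continuous }

theorem Renorm.completeSpace [CompleteSpace E] {C c : ℝ} (hC : ∀ x : E, p x ≤ C * ‖x‖)
    (hc : ∀ x : E, ‖x‖ ≤ c * p x) : CompleteSpace (Renorm p hp) :=
  (completeSpace_congr (e := (Renorm.cle p hp hC hc).toEquiv)
    (Renorm.cle p hp hC hc).isUniformEmbedding).2 inferInstance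

end RenormComplete

/-! ### A strictly convex renorming of `c₀` -/

section StrictC0

variable (𝕜 : Type) [RCLike 𝕜]

/-- The Hilbert space `ℓ²(ℕ)`. -/
abbrev H2 : Type := lp (fun _ : ℕ => 𝕜) 2

theorem c0_norm_apply_le (y : C₀(ℕ, 𝕜)) (n : ℕ) : ‖y n‖ ≤ ‖y‖ := by
  have := BoundedContinuousFunction.norm_coe_le_norm y.toBCF n
  rwa [ZeroAtInftyContinuousMap.norm_toBCF_eq_norm] at this

theorem c0_norm_le {y : C₀(ℕ, 𝕜)} {C : ℝ} (hC : 0 ≤ C) (h : ∀ n, ‖y n‖ ≤ C) : ‖y‖ ≤ C := by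
  rw [← ZeroAtInftyContinuousMap.norm_toBCF_eq_norm]
  exact (BoundedContinuousFunction.norm_le hC).2 h

/-- The sequence `(2⁻ⁿ yₙ)` is square-summable for `y ∈ c₀`. -/
theorem memℓp_J (y : C₀(ℕ, 𝕜)) : Memℓp (fun n : ℕ => ((1 / 2 : ℝ) ^ n : ℝ) • y n) 2 := by
  apply memℓp_gen
  have h1 : Summable fun n : ℕ => ‖y‖ ^ 2 * ((1 / 4 : ℝ) ^ n) :=
    (summable_geometric_of_lt_one (by norm_num) (by norm_num)).mul_left _
  refine Summable.of_nonneg_of_le (fun n => by positivity) (fun n => ?_) h1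
  have h2 : ‖y n‖ ≤ ‖y‖ := c0_norm_apply_le 𝕜 y n
  have h3 : (2 : ℝ≥0∞).toReal = 2 := by norm_num
  rw [h3, norm_smul]
  simp only [Real.rpow_two, norm_pow, mul_pow]
  have h4 : (‖(1 / 2 : ℝ)‖ ^ n) ^ 2 = (1 / 4 : ℝ) ^ n := by
    rw [← pow_mul, mul_comm, pow_mul]; norm_num
  rw [h4]
  have : ‖y n‖ ^ 2 ≤ ‖y‖ ^ 2 := by gcongr
  have h5 : (0 : ℝ) ≤ (1 / 4 : ℝ) ^ n := by positivity
  nlinarith

/-- The injection `y ↦ (2⁻ⁿ yₙ)` of `c₀` into `ℓ²`. -/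
noncomputable def J : C₀(ℕ, 𝕜) →ₗ[𝕜] H2 𝕜 where
  toFun y := ⟨fun n : ℕ => ((1 / 2 : ℝ) ^ n : ℝ) • y n, memℓp_J 𝕜 y⟩
  map_add' x y := by
    ext n
    simp [smul_add]
  map_smul' c x := by
    ext n
    simp

theorem J_apply (y : C₀(ℕ, 𝕜)) (n : ℕ) : (J 𝕜 y : ℕ → 𝕜) n = ((1 / 2 : ℝ) ^ n : ℝ) • y n := rfl

theorem J_norm_le (y : C₀(ℕ, 𝕜)) : ‖J 𝕜 y‖ ≤ 2 * ‖y‖ := by
  have h3 : (2 : ℝ≥0∞).toReal = 2 := by norm_num
  rw [lp.norm_eq_tsum_rpow (by norm_num)]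
  rw [h3]
  have h1 : Summable fun n : ℕ => ‖y‖ ^ 2 * ((1 / 4 : ℝ) ^ n) :=
    (summable_geometric_of_lt_one (by norm_num) (by norm_num)).mul_left _
  have hle : ∀ n : ℕ, ‖(J 𝕜 y : ℕ → 𝕜) n‖ ^ (2 : ℝ) ≤ ‖y‖ ^ 2 * ((1 / 4 : ℝ) ^ n) := by
    intro n
    have h2 : ‖y n‖ ≤ ‖y‖ := c0_norm_apply_le 𝕜 y n
    rw [J_apply, norm_smul]
    simp only [Real.rpow_two, norm_pow, mul_pow]
    have h4 : (‖(1 / 2 : ℝ)‖ ^ n) ^ 2 = (1 / 4 : ℝ) ^ n := by
      rw [← pow_mul, mul_comm, pow_mul]; norm_num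
    rw [h4]
    have : ‖y n‖ ^ 2 ≤ ‖y‖ ^ 2 := by gcongr
    have h5 : (0 : ℝ) ≤ (1 / 4 : ℝ) ^ n := by positivity
    nlinarith
  have hs : Summable fun n : ℕ => ‖(J 𝕜 y : ℕ → 𝕜) n‖ ^ (2 : ℝ) :=
    Summable.of_nonneg_of_le (fun n => by positivity) hle h1
  have h5 : ∑' n : ℕ, ‖(J 𝕜 y : ℕ → 𝕜) n‖ ^ (2 : ℝ) ≤ ∑' n : ℕ, ‖y‖ ^ 2 * ((1 / 4 : ℝ) ^ n) :=
    Summable.tsum_le_tsum hle hs h1
  rw [tsum_mul_left, tsum_geometric_of_lt_one (by norm_num) (by norm_num)] at h5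
  have h6 : ∑' n : ℕ, ‖(J 𝕜 y : ℕ → 𝕜) n‖ ^ (2 : ℝ) ≤ (2 * ‖y‖) ^ 2 := by
    have : ‖y‖ ^ 2 * (1 - 1 / 4 : ℝ)⁻¹ ≤ (2 * ‖y‖) ^ 2 := by
      norm_num; nlinarith [sq_nonneg ‖y‖]
    linarith
  rw [← Real.sqrt_eq_rpow]
  exact Real.sqrt_le_iff.2 ⟨by positivity, h6⟩

theorem J_injective {y : C₀(ℕ, 𝕜)} (h : J 𝕜 y = 0) : y = 0 := by
  ext n
  have h1 : (J 𝕜 y : ℕ → 𝕜) n = 0 := by rw [h]; rfl
  rw [J_apply] at h1
  have h2 : ((1 / 2 : ℝ) ^ n : ℝ) ≠ 0 := by positivity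
  simpa using (smul_eq_zero.1 h1).resolve_left h2

/-- The strictly convex norm `‖y‖ + ‖(2⁻ⁿ yₙ)‖₂` on `c₀`. -/
noncomputable def pY : Seminorm 𝕜 C₀(ℕ, 𝕜) :=
  Seminorm.of (fun y => ‖y‖ + ‖J 𝕜 y‖)
    (fun x y => by
      rw [map_add]
      have := norm_add_le x y
      have := norm_add_le (J 𝕜 x) (J 𝕜 y)
      linarith)
    (fun a x => by
      rw [map_smul, norm_smul, norm_smul]; ring)

theorem pY_apply (y : C₀(ℕ, 𝕜)) : pY 𝕜 y = ‖y‖ + ‖J 𝕜 y‖ := rfl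

theorem pY_zero (y : C₀(ℕ, 𝕜)) (h : pY 𝕜 y = 0) : y = 0 := by
  rw [pY_apply] at h
  have := norm_nonneg (J 𝕜 y)
  have := norm_nonneg y
  exact norm_eq_zero.1 (by linarith)

/-- The Banach space `c₀` with the strictly convex norm `‖y‖ + ‖(2⁻ⁿ yₙ)‖₂`. -/
abbrev Y0 : Type := Renorm (pY 𝕜) (pY_zero 𝕜)

theorem pY_le (y : C₀(ℕ, 𝕜)) : pY 𝕜 y ≤ 3 * ‖y‖ := by
  rw [pY_apply]
  have := J_norm_le 𝕜 y
  linarith

theorem le_pY (y : C₀(ℕ, 𝕜)) : ‖y‖ ≤ 1 * pY 𝕜 y := by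
  rw [pY_apply]
  have := norm_nonneg (J 𝕜 y)
  linarith

instance : CompleteSpace (Y0 𝕜) :=
  Renorm.completeSpace (pY 𝕜) (pY_zero 𝕜) (pY_le 𝕜) (le_pY 𝕜)

/-- Equality in the triangle inequality of an inner product space. -/
theorem smul_eq_of_norm_add {H : Type*} [NormedAddCommGroup H] [InnerProductSpace 𝕜 H] {x y : H}
    (h : ‖x + y‖ = ‖x‖ + ‖y‖) : (‖y‖ : 𝕜) • x = (‖x‖ : 𝕜) • y := by
  have h1 : RCLike.re (inner 𝕜 x y) = ‖x‖ * ‖y‖ := by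
    have := @norm_add_sq 𝕜 H _ _ _ x y
    rw [h] at this
    nlinarith
  rw [← sub_eq_zero, ← norm_eq_zero, ← sq_eq_zero_iff, @norm_sub_sq 𝕜 H]
  rw [inner_smul_left, inner_smul_right, norm_smul, norm_smul]
  simp only [RCLike.conj_ofReal, RCLike.norm_ofReal, abs_norm, RCLike.re_ofReal_mul]
  rw [h1]; ring

/-- Strict convexity of `Y0` (midpoint form). -/
theorem Y0_strict {a b : Y0 𝕜} (ha : ‖a‖ ≤ 1) (hb : ‖b‖ ≤ 1) (hab : 2 ≤ ‖a + b‖) : a = b := by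
  set a' : C₀(ℕ, 𝕜) := Renorm.equiv _ _ a with ha'
  set b' : C₀(ℕ, 𝕜) := Renorm.equiv _ _ b with hb'
  have e1 : ‖a‖ = ‖a'‖ + ‖J 𝕜 a'‖ := rfl
  have e2 : ‖b‖ = ‖b'‖ + ‖J 𝕜 b'‖ := rfl
  have e3 : ‖a + b‖ = ‖a' + b'‖ + ‖J 𝕜 (a' + b')‖ := rfl
  have t1 := norm_add_le a' b'
  have t2 := norm_add_le (J 𝕜 a') (J 𝕜 b')
  rw [map_add] at e3
  have h1 : ‖J 𝕜 a' + J 𝕜 b'‖ = ‖J 𝕜 a'‖ + ‖J 𝕜 b'‖ := by linarith
  have h2 := smul_eq_of_norm_add 𝕜 h1
  rw [← map_smul (J 𝕜), ← map_smul (J 𝕜), ← sub_eq_zero, ← map_sub (J 𝕜)] at h2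
  have h3 := sub_eq_zero.1 (J_injective 𝕜 h2)
  have na : ‖a‖ = 1 := by
    have := norm_add_le a b
    linarith
  have nb : ‖b‖ = 1 := by
    have := norm_add_le a b
    linarith
  have h4 : (‖J 𝕜 b'‖ : 𝕜) • a = (‖J 𝕜 a'‖ : 𝕜) • b := h3
  have h5 : ‖J 𝕜 b'‖ = ‖J 𝕜 a'‖ := by
    have := congrArg norm h4
    rw [norm_smul, norm_smul, na, nb] at this
    simpa using this
  have h6 : ‖J 𝕜 a'‖ ≠ 0 := by
    intro h0
    have : a' = 0 := J_injective 𝕜 (norm_eq_zero.1 h0)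
    rw [this] at e1
    simp [na] at e1
  rw [h5] at h4
  exact smul_right_injective _ (by exact_mod_cast h6) h4

end StrictC0
section C0

variable (𝕜 : Type) [RCLike 𝕜]

/-- The unit vectors of `c₀`. -/
noncomputable def dl (n : ℕ) : C₀(ℕ, 𝕜) where
  toFun := Pi.single n 1
  continuous_toFun := continuous_of_discreteTopology
  zero_at_infty' := by
    rw [Filter.cocompact_eq_cofinite]
    apply tendsto_const_nhds.congr'
    rw [Filter.EventuallyEq, Filter.eventually_cofinite]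
    apply (Set.finite_singleton n).subset
    intro m hm
    by_contra h
    exact hm (by rw [Pi.single_apply, if_neg (by simpa using h)])

theorem dl_apply (n m : ℕ) : dl 𝕜 n m = if m = n then 1 else 0 := by
  change (Pi.single n (1 : 𝕜) : ℕ → 𝕜) m = _
  rw [Pi.single_apply]

theorem norm_dl (n : ℕ) : ‖dl 𝕜 n‖ = 1 := by
  apply le_antisymm
  · apply c0_norm_le 𝕜 zero_le_one
    intro m
    rw [dl_apply]; split_ifs <;> simp
  · have := c0_norm_apply_le 𝕜 (dl 𝕜 n) n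
    rw [dl_apply] at this
    simpa using this

end C0

end Pool.Agent.Helper25.NA
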