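import Mathlib

/-!
Definitions for MP_5ffaeb_an: norm attaining operators, the Bishop-Phelps-Bollobas property of a
pair of normed spaces, and one-complemented subspaces.
-/

set_option autoImplicit false

namespace Pool.Agent.Helper25.NA

/-! ### Definitions used in the statements -/

section Defs

variable (𝕜 : Type*) [RCLike 𝕜]

/-- The operator `T` attains its norm: `‖T x‖ = ‖T‖` for some `x` in the unit sphere. -/
def AttainsNorm {𝕜 : Type*} [RCLike 𝕜] {X Y : Type*} [NormedAddCommGroup X] [NormedSpace 𝕜 X]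
    [NormedAddCommGroup Y] [NormedSpace 𝕜 Y] (T : X →L[𝕜] Y) : Prop :=
  ∃ x : X, ‖x‖ = 1 ∧ ‖T x‖ = ‖T‖

/-- `NA(X,Y)` is norm-dense in `L(X,Y)`. -/
def NADense (X Y : Type*) [NormedAddCommGroup X] [NormedSpace 𝕜 X]
    [NormedAddCommGroup Y] [NormedSpace 𝕜 Y] : Prop :=
  Dense {T : X →L[𝕜] Y | AttainsNorm T}

/-- The pair `(X,Y)` has the Bishop-Phelps-Bollobas property. -/
def HasBPBp (X Y : Type*) [NormedAddCommGroup X] [NormedSpace 𝕜 X]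
    [NormedAddCommGroup Y] [NormedSpace 𝕜 Y] : Prop :=
  ∀ ε : ℝ, 0 < ε → ε < 1 → ∃ η : ℝ, 0 < η ∧
    ∀ T : X →L[𝕜] Y, ‖T‖ = 1 → ∀ x₀ : X, ‖x₀‖ = 1 → 1 - η < ‖T x₀‖ →
      ∃ S : X →L[𝕜] Y, ∃ u₀ : X, ‖S‖ = 1 ∧ ‖u₀‖ = 1 ∧ ‖S u₀‖ = 1 ∧
        ‖x₀ - u₀‖ < ε ∧ ‖S - T‖ < ε

/-- The subspace `X₁` is closed and one-complemented in `X`: it is the range of a bounded linear
projection of norm at most one. -/
def OneComplemented {𝕜 : Type*} [RCLike 𝕜] {X : Type*} [NormedAddCommGroup X] [NormedSpace 𝕜 X]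
    (X₁ : Submodule 𝕜 X) : Prop :=
  IsClosed (X₁ : Set X) ∧
    ∃ P : X →L[𝕜] X, (∀ x, P (P x) = P x) ∧ (∀ x, x ∈ X₁ ↔ ∃ y, P y = x) ∧ ‖P‖ ≤ 1

end Defs

end Pool.Agent.Helper25.NA
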