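import Pool.Agent.Helper25.NACommon

/-!
For MP_5ffaeb_an, Q1: a three-dimensional space `X3 𝕜` such that `(X3 𝕜, Y)` has the
Bishop-Phelps-Bollobas property for every `Y`, although `X3 𝕜` contains the two-dimensional `ℓ₁`
space as a one-complemented subspace.
-/

set_option autoImplicit false

open scoped ZeroAtInfty ENNReal

namespace Pool.Agent.Helper25.NA

section X3

/-- The parameters `r_k = 1/(k+1)!`. -/
noncomputable def rr (k : ℕ) : ℝ := 1 / ((k + 1).factorial : ℝ)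

/-- The parameters `t_k = 1/((k+1)(k+1)!)`. -/
noncomputable def tt (k : ℕ) : ℝ := rr k / (k + 1)

theorem rr_pos (k : ℕ) : 0 < rr k := by unfold rr; positivity

theorem tt_pos (k : ℕ) : 0 < tt k := by unfold tt; have := rr_pos k; positivity

theorem rr_le_one (k : ℕ) : rr k ≤ 1 := by
  unfold rr
  rw [div_le_one (by positivity)]
  exact_mod_cast Nat.factorial_pos (k + 1)

theorem tt_le (k : ℕ) : tt k ≤ 1 / (k + 1) := by
  unfold tt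
  have := rr_le_one k
  gcongr

theorem tt_le_one (k : ℕ) : tt k ≤ 1 := by
  refine (tt_le k).trans ?_
  rw [div_le_one (by positivity)]
  have : (0 : ℝ) ≤ k := by positivity
  linarith

theorem rr_eq (k : ℕ) : rr k = (k + 1) * tt k := by
  unfold tt; field_simp

theorem rr_succ (k : ℕ) : rr (k + 1) = rr k / (k + 2) := by
  unfold rr
  rw [Nat.factorial_succ (k + 1)]
  push_cast
  field_simp
  ring

theorem rr_anti {j k : ℕ} (h : j ≤ k) : rr k ≤ rr j := by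
  unfold rr
  have : (j + 1).factorial ≤ (k + 1).factorial := Nat.factorial_le (by omega)
  gcongr

variable (𝕜 : Type) [RCLike 𝕜]

/-- Three-dimensional Hilbert space. -/
abbrev E3 : Type := EuclideanSpace 𝕜 (Fin 3)

variable {𝕜}

/-- The norms whose supremum is the norm of the three-dimensional space. -/
noncomputable def Nk (k : ℕ) (w : E3 𝕜) : ℝ :=
  (1 - tt k) * (‖w 0‖ + ‖w 1‖) + tt k * ‖w‖ + rr k * ‖w 2‖

theorem norm_coord_le (w : E3 𝕜) (i : Fin 3) : ‖w i‖ ≤ ‖w‖ := PiLp.norm_apply_le w i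

theorem Nk_nonneg (k : ℕ) (w : E3 𝕜) : 0 ≤ Nk k w := by
  unfold Nk
  have h1 := tt_pos k
  have h2 := tt_le_one k
  have h3 := rr_pos k
  have h4 : 0 ≤ 1 - tt k := by linarith
  positivity

theorem Nk_le (k : ℕ) (w : E3 𝕜) : Nk k w ≤ 4 * ‖w‖ := by
  unfold Nk
  have h1 := (tt_pos k).le
  have h2 := tt_le_one k
  have h3 := (rr_pos k).le
  have h4 := rr_le_one k
  have h5 := norm_coord_le w 0
  have h6 := norm_coord_le w 1
  have h7 := norm_coord_le w 2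
  have h8 := norm_nonneg w
  have h9 := norm_nonneg (w 2)
  have a1 : (1 - tt k) * (‖w 0‖ + ‖w 1‖) ≤ (1 - tt k) * (2 * ‖w‖) :=
    mul_le_mul_of_nonneg_left (by linarith) (by linarith)
  have a2 : rr k * ‖w 2‖ ≤ 1 * ‖w‖ := mul_le_mul h4 h7 h9 zero_le_one
  have a3 : tt k * ‖w‖ ≤ 1 * ‖w‖ := mul_le_mul_of_nonneg_right h2 h8
  nlinarith

theorem Nk_add (k : ℕ) (v w : E3 𝕜) : Nk k (v + w) ≤ Nk k v + Nk k w := by
  unfold Nk
  have h1 := (tt_pos k).le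
  have h2 := tt_le_one k
  have h3 := (rr_pos k).le
  have e : ∀ i, (v + w) i = v i + w i := fun i => rfl
  rw [e, e, e]
  have a0 := norm_add_le (v 0) (w 0)
  have a1 := norm_add_le (v 1) (w 1)
  have a2 := norm_add_le (v 2) (w 2)
  have a3 := norm_add_le v w
  have b1 := mul_le_mul_of_nonneg_left (add_le_add a0 a1) (sub_nonneg.2 h2)
  have b2 := mul_le_mul_of_nonneg_left a2 h3
  have b3 := mul_le_mul_of_nonneg_left a3 h1
  nlinarith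

theorem Nk_smul (k : ℕ) (a : 𝕜) (w : E3 𝕜) : Nk k (a • w) = ‖a‖ * Nk k w := by
  unfold Nk
  have e : ∀ i, (a • w) i = a * w i := fun i => rfl
  rw [e, e, e, norm_smul, norm_mul, norm_mul, norm_mul]
  ring

theorem Nk_bdd (w : E3 𝕜) : BddAbove (Set.range fun k => Nk k w) :=
  ⟨4 * ‖w‖, by rintro _ ⟨k, rfl⟩; exact Nk_le k w⟩

variable (𝕜)

/-- The norm of the three-dimensional space. -/
noncomputable def p3 : Seminorm 𝕜 (E3 𝕜) :=
  Seminorm.of (fun w => ⨆ k, Nk k w)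
    (fun x y => by
      apply ciSup_le
      intro k
      exact (Nk_add k x y).trans (add_le_add (le_ciSup (Nk_bdd x) k) (le_ciSup (Nk_bdd y) k)))
    (fun a x => by
      simp only [Nk_smul]
      rw [Real.mul_iSup_of_nonneg (norm_nonneg a)])

variable {𝕜}

theorem Nk_le_p3 (k : ℕ) (w : E3 𝕜) : Nk k w ≤ p3 𝕜 w := le_ciSup (Nk_bdd w) k

theorem p3_le_of (w : E3 𝕜) {c : ℝ} (h : ∀ k, Nk k w ≤ c) : p3 𝕜 w ≤ c := ciSup_le h

theorem p3_le (w : E3 𝕜) : p3 𝕜 w ≤ 4 * ‖w‖ := p3_le_of w fun k => Nk_le k w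

theorem norm_le_p3 (w : E3 𝕜) : ‖w‖ ≤ 1 * p3 𝕜 w := by
  rw [one_mul]
  refine le_trans ?_ (Nk_le_p3 0 w)
  unfold Nk
  have h0 : tt 0 = 1 := by unfold tt rr; norm_num
  rw [h0]
  have := rr_pos 0
  have := norm_nonneg (w 2)
  have : 0 ≤ rr 0 * ‖w 2‖ := by positivity
  linarith

theorem p3_zero (w : E3 𝕜) (h : p3 𝕜 w = 0) : w = 0 := by
  have := norm_le_p3 w
  rw [h, mul_zero] at this
  exact norm_le_zero_iff.1 this

theorem tendsto_tt : Filter.Tendsto tt Filter.atTop (nhds 0) := by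
  refine squeeze_zero (fun k => (tt_pos k).le) tt_le ?_
  exact tendsto_one_div_add_atTop_nhds_zero_nat

theorem tendsto_rr : Filter.Tendsto rr Filter.atTop (nhds 0) := by
  have h : ∀ k, rr k ≤ 1 / ((k : ℝ) + 1) := by
    intro k
    unfold rr
    have : k + 1 ≤ (k + 1).factorial := Nat.self_le_factorial (k + 1)
    have h2 : ((k : ℝ) + 1) ≤ ((k + 1).factorial : ℝ) := by exact_mod_cast this
    gcongr
  exact squeeze_zero (fun k => (rr_pos k).le) h tendsto_one_div_add_atTop_nhds_zero_nat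

theorem tendsto_Nk (w : E3 𝕜) :
    Filter.Tendsto (fun k => Nk k w) Filter.atTop (nhds (‖w 0‖ + ‖w 1‖)) := by
  have h := (((tendsto_const_nhds (x := (1 : ℝ))).sub tendsto_tt).mul_const (‖w 0‖ + ‖w 1‖)).add
    (tendsto_tt.mul_const ‖w‖)
  have h2 := h.add (tendsto_rr.mul_const ‖w 2‖)
  simpa [Nk] using h2

theorem l1_le_p3 (w : E3 𝕜) : ‖w 0‖ + ‖w 1‖ ≤ p3 𝕜 w :=
  le_of_tendsto' (tendsto_Nk w) fun k => Nk_le_p3 k w

theorem norm_le_sum (w : E3 𝕜) : ‖w‖ ≤ ‖w 0‖ + ‖w 1‖ + ‖w 2‖ := by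
  rw [EuclideanSpace.norm_eq, Fin.sum_univ_three]
  apply Real.sqrt_le_iff.2
  constructor
  · positivity
  · have := norm_nonneg (w 0)
    have := norm_nonneg (w 1)
    have := norm_nonneg (w 2)
    nlinarith [mul_nonneg (norm_nonneg (w 0)) (norm_nonneg (w 1)),
      mul_nonneg (norm_nonneg (w 0)) (norm_nonneg (w 2)),
      mul_nonneg (norm_nonneg (w 1)) (norm_nonneg (w 2))]

theorem p3_eq_l1 (w : E3 𝕜) (h : w 2 = 0) : p3 𝕜 w = ‖w 0‖ + ‖w 1‖ := by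
  apply le_antisymm _ (l1_le_p3 w)
  apply p3_le_of
  intro k
  unfold Nk
  have h1 := norm_le_sum w
  rw [h, norm_zero] at h1 ⊢
  have h2 := (tt_pos k).le
  nlinarith

/-- The third unit vector. -/
noncomputable def e2 : E3 𝕜 := EuclideanSpace.single 2 1

theorem e2_0 : (e2 : E3 𝕜) 0 = 0 := by simp [e2]
theorem e2_1 : (e2 : E3 𝕜) 1 = 0 := by simp [e2]
theorem e2_2 : (e2 : E3 𝕜) 2 = 1 := by simp [e2]
theorem norm_e2 : ‖(e2 : E3 𝕜)‖ = 1 := by simp [e2]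

/-- The key flatness estimate. -/
theorem p3_flat (w : E3 𝕜) (h2 : w 2 = 0) (h1 : ‖w 0‖ + ‖w 1‖ = 1) (k : ℕ) (ζ : 𝕜)
    (hζ : ‖ζ‖ = (1 / (k + 1)) * (1 - ‖w‖)) :
    p3 𝕜 (w + ζ • e2) ≤ 1 + 2 / (k + 1) * tt k := by
  have hR : ‖w‖ ≤ 1 := by
    have := norm_le_sum w
    rw [h2, norm_zero] at this
    linarith
  have hR0 := norm_nonneg w
  have hζ0 := norm_nonneg ζ
  apply p3_le_of
  intro j
  unfold Nk
  have c0 : (w + ζ • e2 : E3 𝕜) 0 = w 0 := by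
    change w 0 + ζ * (e2 : E3 𝕜) 0 = _
    rw [e2_0]; ring
  have c1 : (w + ζ • e2 : E3 𝕜) 1 = w 1 := by
    change w 1 + ζ * (e2 : E3 𝕜) 1 = _
    rw [e2_1]; ring
  have c2 : (w + ζ • e2 : E3 𝕜) 2 = ζ := by
    change w 2 + ζ * (e2 : E3 𝕜) 2 = _
    rw [e2_2, h2]; ring
  rw [c0, c1, c2, h1]
  have hn : ‖w + ζ • e2‖ ≤ ‖w‖ + ‖ζ‖ := by
    refine (norm_add_le _ _).trans ?_
    rw [norm_smul, norm_e2, mul_one]
  have htj := tt_pos j
  have hrj := rr_pos j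
  have htk := tt_pos k
  have hrk := rr_pos k
  have s1 : tt j * ‖w + ζ • e2‖ ≤ tt j * (‖w‖ + ‖ζ‖) := mul_le_mul_of_nonneg_left hn htj.le
  set δ := 1 - ‖w‖ with hδ
  have hδ0 : 0 ≤ δ := by linarith
  have hδ1 : δ ≤ 1 := by linarith
  have hk1 : (0 : ℝ) < k + 1 := by positivity
  have hj1 : (0 : ℝ) < j + 1 := by positivity
  -- it suffices to bound the following quantity
  suffices hs : -(tt j) * δ + (tt j + rr j) * ‖ζ‖ ≤ 2 / (k + 1) * tt k by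
    have : ‖w‖ = 1 - δ := by rw [hδ]; ring
    rw [this] at s1
    nlinarith
  rw [hζ]
  rw [rr_eq j]
  rcases lt_trichotomy j k with hjk | hjk | hjk
  · -- j < k
    have hjk' : (j : ℝ) + 1 ≤ k := by exact_mod_cast hjk
    have e1 : -(tt j) * δ + (tt j + (j + 1) * tt j) * (1 / (k + 1) * δ)
        = tt j * δ * ((j + 1 - k) / (k + 1)) := by field_simp; ring
    rw [e1]
    have e2 : (j + 1 - k : ℝ) / (k + 1) ≤ 0 := by
      apply div_nonpos_of_nonpos_of_nonneg <;> linarith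
    have e3 : 0 ≤ tt j * δ := by positivity
    have e4 : 0 ≤ 2 / ((k : ℝ) + 1) * tt k := by positivity
    nlinarith
  · subst hjk
    have e1 : -(tt j) * δ + (tt j + (j + 1) * tt j) * (1 / (j + 1) * δ)
        = tt j * δ / (j + 1) := by field_simp; ring
    rw [e1]
    have e2 : tt j * δ ≤ tt j * 1 := mul_le_mul_of_nonneg_left hδ1 htj.le
    have e3 : tt j * δ / (j + 1) ≤ tt j * 1 / (j + 1) := by gcongr
    have e4 : 2 / ((j : ℝ) + 1) * tt j = 2 * (tt j / (j + 1)) := by ring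
    have e5 : 0 ≤ tt j / (j + 1) := by positivity
    rw [mul_one] at e3
    linarith
  · -- k < j
    have e0 : rr j ≤ rr (k + 1) := rr_anti (by omega)
    rw [rr_succ, rr_eq k] at e0
    have e1 : tt j ≤ rr j := by
      rw [rr_eq j]
      have : (0 : ℝ) ≤ j := by positivity
      nlinarith
    rw [← rr_eq j]
    have e2 : -(tt j) * δ ≤ 0 := by nlinarith
    have e3 : (tt j + rr j) * (1 / (k + 1) * δ) ≤ (2 * rr j) * (1 / (k + 1) * 1) := by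
      apply mul_le_mul
      · linarith
      · gcongr
      · positivity
      · positivity
    have e4 : (2 * rr j) * (1 / ((k : ℝ) + 1) * 1) ≤ (2 * ((k + 1) * tt k / (k + 2))) * (1 / (k + 1) * 1) := by
      gcongr
    have e5 : (2 * (((k : ℝ) + 1) * tt k / (k + 2))) * (1 / (k + 1) * 1) = 2 / (k + 2) * tt k := by
      field_simp
    have e6 : 2 / ((k : ℝ) + 2) * tt k ≤ 2 / (k + 1) * tt k := by
      gcongr
      linarith
    linarith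


/-! ### Slices -/

/-- The functional used to expose points. -/
noncomputable def ff (k : ℕ) (a0 a1 a2 : 𝕜) (v : E3 𝕜) : E3 𝕜 →ₗ[𝕜] 𝕜 where
  toFun w := ((1 - tt k : ℝ) : 𝕜) * (a0 * w 0 + a1 * w 1) + ((tt k : ℝ) : 𝕜) * inner 𝕜 v w +
    ((rr k : ℝ) : 𝕜) * (a2 * w 2)
  map_add' x y := by
    have e : ∀ i, (x + y) i = x i + y i := fun i => rfl
    rw [e, e, e, inner_add_right]
    ring
  map_smul' c x := by
    have e : ∀ i, (c • x) i = c * x i := fun i => rfl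
    rw [e, e, e, inner_smul_right, RingHom.id_apply, smul_eq_mul]
    ring

theorem ff_apply (k : ℕ) (a0 a1 a2 : 𝕜) (v w : E3 𝕜) : ff k a0 a1 a2 v w =
    ((1 - tt k : ℝ) : 𝕜) * (a0 * w 0 + a1 * w 1) + ((tt k : ℝ) : 𝕜) * inner 𝕜 v w +
    ((rr k : ℝ) : 𝕜) * (a2 * w 2) := rfl

theorem norm_ff_le (k : ℕ) {a0 a1 a2 : 𝕜} (h0 : ‖a0‖ ≤ 1) (h1 : ‖a1‖ ≤ 1) (h2 : ‖a2‖ ≤ 1)
    {v : E3 𝕜} (hv : ‖v‖ ≤ 1) (w : E3 𝕜) : ‖ff k a0 a1 a2 v w‖ ≤ Nk k w := by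
  rw [ff_apply]
  unfold Nk
  have ht := tt_pos k
  have ht1 := tt_le_one k
  have hr := rr_pos k
  refine (norm_add_le _ _).trans (add_le_add ((norm_add_le _ _).trans (add_le_add ?_ ?_)) ?_)
  · rw [norm_mul, RCLike.norm_ofReal, abs_of_nonneg (by linarith)]
    apply mul_le_mul_of_nonneg_left _ (by linarith)
    refine (norm_add_le _ _).trans ?_
    rw [norm_mul, norm_mul]
    have := mul_le_mul_of_nonneg_right h0 (norm_nonneg (w 0))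
    have := mul_le_mul_of_nonneg_right h1 (norm_nonneg (w 1))
    linarith
  · rw [norm_mul, RCLike.norm_ofReal, abs_of_pos ht]
    apply mul_le_mul_of_nonneg_left _ ht.le
    refine (norm_inner_le_norm v w).trans ?_
    have := mul_le_mul_of_nonneg_right hv (norm_nonneg w)
    linarith
  · rw [norm_mul, RCLike.norm_ofReal, abs_of_pos hr]
    apply mul_le_mul_of_nonneg_left _ hr.le
    rw [norm_mul]
    have := mul_le_mul_of_nonneg_right h2 (norm_nonneg (w 2))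
    linarith

theorem re_ff_le (k : ℕ) {a0 a1 a2 : 𝕜} (h0 : ‖a0‖ ≤ 1) (h1 : ‖a1‖ ≤ 1) (h2 : ‖a2‖ ≤ 1)
    {v : E3 𝕜} (w : E3 𝕜) : RCLike.re (ff k a0 a1 a2 v w) ≤
      Nk k w - tt k * (‖w‖ - RCLike.re (inner 𝕜 v w)) := by
  rw [ff_apply]
  unfold Nk
  have ht := tt_pos k
  have ht1 := tt_le_one k
  have hr := rr_pos k
  rw [map_add, map_add, RCLike.re_ofReal_mul, RCLike.re_ofReal_mul, RCLike.re_ofReal_mul, map_add]
  have b0 : RCLike.re (a0 * w 0) ≤ ‖w 0‖ := by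
    refine (RCLike.re_le_norm _).trans ?_
    rw [norm_mul]
    have := mul_le_mul_of_nonneg_right h0 (norm_nonneg (w 0))
    linarith
  have b1 : RCLike.re (a1 * w 1) ≤ ‖w 1‖ := by
    refine (RCLike.re_le_norm _).trans ?_
    rw [norm_mul]
    have := mul_le_mul_of_nonneg_right h1 (norm_nonneg (w 1))
    linarith
  have b2 : RCLike.re (a2 * w 2) ≤ ‖w 2‖ := by
    refine (RCLike.re_le_norm _).trans ?_
    rw [norm_mul]
    have := mul_le_mul_of_nonneg_right h2 (norm_nonneg (w 2))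
    linarith
  have c1 := mul_le_mul_of_nonneg_left (add_le_add b0 b1) (sub_nonneg.2 ht1)
  have c2 := mul_le_mul_of_nonneg_left b2 hr.le
  linarith

/-- Points of the ball that are nearly aligned with `w₀` are close to `w₀`. -/
theorem near_of_aligned {w0 w : E3 𝕜} (hw0 : p3 𝕜 w0 = 1) (hw : p3 𝕜 w ≤ 1) {c : ℝ} (hc0 : 0 < c)
    (h1 : 1 - c ≤ p3 𝕜 w)
    (h2 : ‖w‖ - RCLike.re (inner 𝕜 (((‖w0‖ : 𝕜)⁻¹) • w0) w) ≤ c) :
    p3 𝕜 (w - w0) ≤ 8 * Real.sqrt (2 * c) + c := by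
  have hn0 : ‖w0‖ ≠ 0 := by
    intro h
    have : w0 = 0 := norm_eq_zero.1 h
    rw [this, map_zero] at hw0
    exact zero_ne_one hw0
  have hn0' : 0 < ‖w0‖ := lt_of_le_of_ne (norm_nonneg _) (Ne.symm hn0)
  set v : E3 𝕜 := ((‖w0‖ : 𝕜)⁻¹) • w0 with hv
  have hvn : ‖v‖ = 1 := by
    rw [hv, norm_smul, norm_inv, RCLike.norm_ofReal, abs_norm, inv_mul_cancel₀ hn0]
  have hwn : ‖w‖ ≤ 1 := by
    have := norm_le_p3 w
    linarith
  have hwn0 := norm_nonneg w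
  have h3 : ‖w - (‖w‖ : 𝕜) • v‖ ≤ Real.sqrt (2 * c) := by
    apply Real.le_sqrt_of_sq_le
    rw [@norm_sub_sq 𝕜, norm_smul, hvn, RCLike.norm_ofReal, abs_norm, inner_smul_right,
      RCLike.re_ofReal_mul, ← inner_conj_symm, RCLike.conj_re]
    nlinarith
  set μ : ℝ := ‖w‖ / ‖w0‖ with hμ
  have hμ0 : 0 ≤ μ := by positivity
  have h4 : (‖w‖ : 𝕜) • v = (μ : 𝕜) • w0 := by
    rw [hv, smul_smul, hμ]
    push_cast
    rw [div_eq_mul_inv]
  rw [h4] at h3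
  have h5 : p3 𝕜 (w - (μ : 𝕜) • w0) ≤ 4 * Real.sqrt (2 * c) := (p3_le _).trans (by linarith)
  have h6 : p3 𝕜 ((μ : 𝕜) • w0) = μ := by
    rw [map_smul_eq_mul, hw0, RCLike.norm_ofReal, abs_of_nonneg hμ0, mul_one]
  have h7 : p3 𝕜 w ≤ p3 𝕜 (w - (μ : 𝕜) • w0) + μ := by
    have := map_add_le_add (p3 𝕜) (w - (μ : 𝕜) • w0) ((μ : 𝕜) • w0)
    rw [sub_add_cancel, h6] at this
    exact this
  have h8 : μ ≤ p3 𝕜 (w - (μ : 𝕜) • w0) + p3 𝕜 w := by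
    have := map_add_le_add (p3 𝕜) (-(w - (μ : 𝕜) • w0)) w
    rw [map_neg_eq_map] at this
    have e : -(w - (μ : 𝕜) • w0) + w = (μ : 𝕜) • w0 := by abel
    rw [e, h6] at this
    exact this
  have h9 : |μ - 1| ≤ 4 * Real.sqrt (2 * c) + c := by
    rw [abs_le]
    constructor <;> linarith
  have e : w - w0 = (w - (μ : 𝕜) • w0) + ((μ - 1 : ℝ) : 𝕜) • w0 := by
    push_cast
    rw [sub_smul, one_smul]; abel
  have h10 := map_add_le_add (p3 𝕜) (w - (μ : 𝕜) • w0) (((μ - 1 : ℝ) : 𝕜) • w0)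
  rw [← e, map_smul_eq_mul, hw0, RCLike.norm_ofReal, mul_one] at h10
  linarith

/-- The three-dimensional space. -/
abbrev X3 (𝕜 : Type) [RCLike 𝕜] : Type := Renorm (p3 𝕜) p3_zero

instance : FiniteDimensional 𝕜 (X3 𝕜) := inferInstanceAs (FiniteDimensional 𝕜 (E3 𝕜))

theorem finrank_X3 : Module.finrank 𝕜 (X3 𝕜) = 3 := by
  have : Module.finrank 𝕜 (X3 𝕜) = Module.finrank 𝕜 (E3 𝕜) :=
    LinearEquiv.finrank_eq (Renorm.equiv (p3 𝕜) p3_zero)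
  rw [this]; simp

instance : CompleteSpace (X3 𝕜) :=
  Renorm.completeSpace (p3 𝕜) p3_zero p3_le norm_le_p3

end X3

section Perturb

variable {𝕜 : Type*} [RCLike 𝕜] {X Y : Type*} [NormedAddCommGroup X] [NormedSpace 𝕜 X]
  [FiniteDimensional 𝕜 X] [NormedAddCommGroup Y] [NormedSpace 𝕜 Y]

theorem exists_attain (T : X →L[𝕜] Y) : ∃ v : X, ‖v‖ ≤ 1 ∧ ‖T‖ ≤ ‖T v‖ := by
  have : ProperSpace X := FiniteDimensional.proper_rclike 𝕜 X
  have hc : IsCompact (Metric.closedBall (0 : X) 1) := isCompact_closedBall 0 1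
  obtain ⟨v, hv, hmax⟩ := hc.exists_isMaxOn ⟨0, by simp⟩
    (f := fun x => ‖T x‖) (T.continuous.norm.continuousOn)
  refine ⟨v, by simpa using hv, ?_⟩
  apply T.opNorm_le_bound (norm_nonneg _)
  intro w
  by_cases hw : w = 0
  · rw [hw]; simp
  have hw' : ‖w‖ ≠ 0 := norm_ne_zero_iff.2 hw
  have h1 : ((‖w‖ : 𝕜)⁻¹) • w ∈ Metric.closedBall (0 : X) 1 := by
    rw [mem_closedBall_zero_iff, norm_smul, norm_inv, RCLike.norm_ofReal, abs_norm,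
      inv_mul_cancel₀ hw']
  have h2 := hmax h1
  simp only [Set.mem_ofPred_eq, map_smul, norm_smul, norm_inv, RCLike.norm_ofReal, abs_norm] at h2
  have h3 : 0 < ‖w‖ := lt_of_le_of_ne (norm_nonneg _) (Ne.symm hw')
  rwa [inv_mul_le_iff₀ h3, mul_comm] at h2

theorem exists_unimodular (z : 𝕜) : ∃ θ : 𝕜, ‖θ‖ = 1 ∧ θ * z = (‖z‖ : 𝕜) := by
  by_cases hz : z = 0
  · exact ⟨1, by simp, by simp [hz]⟩
  · have hz' : ‖z‖ ≠ 0 := norm_ne_zero_iff.2 hz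
    refine ⟨(‖z‖ : 𝕜) / z, ?_, ?_⟩
    · rw [norm_div, RCLike.norm_ofReal, abs_norm, div_self hz']
    · field_simp

/-- The perturbation lemma. -/
theorem perturb {w0 u : X} {ε κ a : ℝ} (hκ : 0 < κ) (ha : 0 ≤ a) (hu : ‖u‖ ≤ 1) (f : X →L[𝕜] 𝕜) (hf : ‖f‖ ≤ 1)
    (hsl : ∀ w : X, ‖w‖ ≤ 1 → a < RCLike.re (f w) → ‖w - w0‖ < ε)
    (T : X →L[𝕜] Y) (hT : ‖T‖ ≤ 1) (h : 1 < ‖T u‖ * (1 + κ * (RCLike.re (f u) - a))) :
    ∃ S : X →L[𝕜] Y, ∃ u0 : X, ‖S‖ = 1 ∧ ‖u0‖ = 1 ∧ ‖S u0‖ = 1 ∧ ‖u0 - w0‖ < ε ∧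
      ‖S - T‖ ≤ 2 * κ := by
  set y := T u with hy
  set S' : X →L[𝕜] Y := T + (κ : 𝕜) • f.smulRight y with hS'
  have hS'a : ∀ w, S' w = T w + (κ : 𝕜) • (f w • y) := fun w => rfl
  have hyn : ‖y‖ ≤ 1 := by
    have := T.le_opNorm u
    have h0 := norm_nonneg u
    have h1 := norm_nonneg T
    nlinarith
  obtain ⟨v, hv1, hv2⟩ := exists_attain S'
  -- lower bound at `u`
  have hlow : (1 + κ * RCLike.re (f u)) * ‖y‖ ≤ ‖S' u‖ := by
    have e : S' u = (1 + (κ : 𝕜) * f u) • y := by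
      rw [hS'a, add_smul, one_smul, smul_smul]
    rw [e, norm_smul]
    apply mul_le_mul_of_nonneg_right _ (norm_nonneg _)
    refine le_trans (le_of_eq ?_) (RCLike.re_le_norm _)
    rw [map_add, RCLike.one_re, RCLike.re_ofReal_mul]
  have hSu : ‖S' u‖ ≤ ‖S'‖ := by
    have := S'.le_opNorm u
    have h1 := norm_nonneg S'
    nlinarith
  have hup : ‖S' v‖ ≤ 1 + κ * (‖f v‖ * ‖y‖) := by
    rw [hS'a]
    refine (norm_add_le _ _).trans ?_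
    rw [norm_smul, norm_smul, RCLike.norm_ofReal, abs_of_pos hκ]
    have := T.le_opNorm v
    have h1 := norm_nonneg T
    have h0 := norm_nonneg v
    nlinarith
  have hy0 : 0 < ‖y‖ := by
    rcases (norm_nonneg y).lt_or_eq with h0 | h0
    · exact h0
    · rw [← h0, zero_mul] at h
      linarith
  have hfa : a < ‖f v‖ := by
    have h1 : 1 + κ * (a * ‖y‖) < 1 + κ * (‖f v‖ * ‖y‖) := by nlinarith
    have h2 : κ * (a * ‖y‖) < κ * (‖f v‖ * ‖y‖) := by linarith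
    exact lt_of_mul_lt_mul_right (lt_of_mul_lt_mul_left h2 hκ.le) hy0.le
  have hS'1 : 1 < ‖S'‖ := by
    have h1 : 1 + κ * (a * ‖y‖) < (1 + κ * RCLike.re (f u)) * ‖y‖ := by nlinarith
    have h2 : 0 ≤ κ * (a * ‖y‖) := by positivity
    linarith
  have hS'2 : ‖S' - T‖ ≤ κ := by
    have e : S' - T = (κ : 𝕜) • f.smulRight y := by rw [hS']; abel
    rw [e, norm_smul, RCLike.norm_ofReal, abs_of_pos hκ, ContinuousLinearMap.norm_smulRight_apply]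
    have : ‖f‖ * ‖y‖ ≤ 1 * 1 := mul_le_mul hf hyn (norm_nonneg _) zero_le_one
    nlinarith
  have hS'3 : ‖S'‖ ≤ 1 + κ := by
    have := norm_add_le T (S' - T)
    rw [add_sub_cancel] at this
    linarith
  have hS'0 : 0 < ‖S'‖ := by linarith
  have hvn : ‖v‖ = 1 := by
    apply le_antisymm hv1
    have := S'.le_opNorm v
    by_contra hcon
    push Not at hcon
    nlinarith
  have hv3 : ‖S' v‖ = ‖S'‖ := by
    apply le_antisymm _ hv2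
    have := S'.le_opNorm v
    rwa [hvn, mul_one] at this
  obtain ⟨θ, hθ1, hθ2⟩ := exists_unimodular (f v)
  refine ⟨((‖S'‖ : 𝕜)⁻¹) • S', θ • v, ?_, ?_, ?_, ?_, ?_⟩
  · rw [norm_smul, norm_inv, RCLike.norm_ofReal, abs_norm, inv_mul_cancel₀ hS'0.ne']
  · rw [norm_smul, hθ1, hvn, one_mul]
  · change ‖((‖S'‖ : 𝕜)⁻¹) • (S' (θ • v))‖ = 1
    rw [map_smul, norm_smul, norm_smul, hθ1, hv3, norm_inv, RCLike.norm_ofReal, abs_norm, one_mul,
      inv_mul_cancel₀ hS'0.ne']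
  · apply hsl
    · rw [norm_smul, hθ1, hvn, one_mul]
    · rw [map_smul, smul_eq_mul, hθ2, RCLike.ofReal_re]
      exact hfa
  · have e : ((‖S'‖ : 𝕜)⁻¹) • S' - T = ((((‖S'‖)⁻¹ - 1 : ℝ) : 𝕜)) • S' + (S' - T) := by
      push_cast
      rw [sub_smul, one_smul]; abel
    rw [e]
    refine (norm_add_le _ _).trans ?_
    rw [norm_smul, RCLike.norm_ofReal]
    have h1 : |(‖S'‖)⁻¹ - 1| * ‖S'‖ = ‖S'‖ - 1 := by
      have h2 : (‖S'‖)⁻¹ ≤ 1 := inv_le_one_of_one_le₀ hS'1.le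
      rw [abs_of_nonpos (by linarith)]
      field_simp
      ring
    rw [h1]
    linarith

/-- From local to global: compactness of the sphere. -/
theorem bpbp_of_local (h : ∀ w0 : X, ‖w0‖ = 1 → ∀ ε : ℝ, 0 < ε → ε < 1 → ∃ δ : ℝ, 0 < δ ∧
    ∀ T : X →L[𝕜] Y, ‖T‖ = 1 → 1 - δ < ‖T w0‖ → ∃ S : X →L[𝕜] Y, ∃ u0 : X,
      ‖S‖ = 1 ∧ ‖u0‖ = 1 ∧ ‖S u0‖ = 1 ∧ ‖u0 - w0‖ < ε ∧ ‖S - T‖ < ε) : HasBPBp 𝕜 X Y := by
  intro ε hε hε1
  have hProper : ProperSpace X := FiniteDimensional.proper_rclike 𝕜 X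
  choose! δ hδ0 hδ using fun (w0 : X) (hw : ‖w0‖ = 1) => h w0 hw (ε / 2) (by linarith) (by linarith)
  have hc : IsCompact (Metric.sphere (0 : X) 1) := isCompact_sphere 0 1
  obtain ⟨t, ht1, ht2⟩ := hc.elim_nhds_subcover (fun w0 => Metric.ball w0 (min (δ w0 / 2) (ε / 2)))
    (fun w0 hw0 => Metric.ball_mem_nhds w0 (by
      have := hδ0 w0 (by simpa using hw0)
      apply lt_min <;> linarith))
  -- a lower bound for the `δ`s
  obtain ⟨η, hη0, hη⟩ : ∃ η : ℝ, 0 < η ∧ ∀ w0 ∈ t, η ≤ δ w0 / 2 := by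
    by_cases hte : t.Nonempty
    · obtain ⟨m, hm, hmin⟩ := t.exists_min_image (fun w => δ w / 2) hte
      refine ⟨δ m / 2, ?_, hmin⟩
      have := hδ0 m (by simpa using ht1 m hm)
      linarith
    · refine ⟨1, one_pos, fun w0 hw0 => ?_⟩
      exact absurd ⟨w0, hw0⟩ hte
  refine ⟨η, hη0, fun T hT x0 hx0 hTx0 => ?_⟩
  have hx0' : x0 ∈ Metric.sphere (0 : X) 1 := by simpa using hx0
  have h1 := ht2 hx0'
  simp only [Set.mem_iUnion, exists_prop] at h1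
  obtain ⟨w0, hw0t, hw0⟩ := h1
  rw [Metric.mem_ball, dist_eq_norm, lt_min_iff] at hw0
  have hw0n : ‖w0‖ = 1 := by simpa using ht1 w0 hw0t
  have hη' := hη w0 hw0t
  have h2 : 1 - δ w0 < ‖T w0‖ := by
    have h3 : ‖T x0‖ ≤ ‖T w0‖ + ‖T (x0 - w0)‖ := by
      have := norm_add_le (T w0) (T (x0 - w0))
      rwa [← map_add, add_sub_cancel] at this
    have h4 := T.le_opNorm (x0 - w0)
    rw [hT, one_mul] at h4
    linarith [hw0.1]
  obtain ⟨S, u0, hS1, hS2, hS3, hS4, hS5⟩ := hδ w0 hw0n T hT h2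
  refine ⟨S, u0, hS1, hS2, hS3, ?_, by linarith⟩
  have h5 : ‖x0 - u0‖ ≤ ‖x0 - w0‖ + ‖u0 - w0‖ := by
    have := norm_sub_le (x0 - w0) (u0 - w0)
    rwa [sub_sub_sub_cancel_right] at this
  linarith [hw0.2]

end Perturb

section X3b

variable {𝕜 : Type} [RCLike 𝕜]

theorem Nk_attained (w : E3 𝕜) (h : w 2 ≠ 0) : ∃ k, p3 𝕜 w = Nk k w := by
  have h2 : 0 < ‖w 2‖ := norm_pos_iff.2 h
  obtain ⟨m, hm⟩ := exists_nat_gt ((‖w 0‖ + ‖w 1‖) / ‖w 2‖)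
  have hm2 : ‖w 0‖ + ‖w 1‖ < Nk m w := by
    rw [div_lt_iff₀ h2] at hm
    unfold Nk
    rw [rr_eq]
    have ht := tt_pos m
    have h3 := norm_nonneg w
    have h4 : 0 < tt m * (‖w‖ + (m * ‖w 2‖ - (‖w 0‖ + ‖w 1‖)) + ‖w 2‖) := by
      apply mul_pos ht
      linarith
    nlinarith
  have h3 := (tendsto_Nk w).eventually_lt_const hm2
  rw [Filter.eventually_atTop] at h3
  obtain ⟨J, hJ⟩ := h3
  obtain ⟨k, -, hk⟩ := (Finset.range (J + m + 1)).exists_max_image (fun k => Nk k w)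
    ⟨0, by simp⟩
  refine ⟨k, le_antisymm (p3_le_of w fun j => ?_) (Nk_le_p3 k w)⟩
  by_cases hj : j < J + m + 1
  · exact hk j (Finset.mem_range.2 hj)
  · exact (hJ j (by omega)).le.trans (hk m (Finset.mem_range.2 (by omega)))

/-! ### Numerical inequalities -/

theorem num1 {κc k : ℝ} (h : 64 < k * κc) (h0 : 0 < κc) : 2 * 32 ≤ κc * (k + 1) := by
  nlinarith

theorem num2 {s q x : ℝ} (hq : 0 < q) (hs : 0 < s) (h : 1 - s / 8 - q ≤ x) :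
    (1 - s / 8 - 2 * q) * (1 + q) ≤ x := by
  nlinarith [mul_pos hq hs, mul_pos hq hq]

theorem num3 {q : ℝ} (hq0 : 0 < q) : 1 - q ≤ (1 + q)⁻¹ := by
  rw [← one_div, le_div_iff₀ (by linarith)]
  nlinarith

theorem num4 {s q : ℝ} (hs : 0 < s) (hs1 : s ≤ 1) (hqs : q ≤ s / 16) :
    1 < (1 - s / 8 - 2 * q) * (1 + s) := by
  have h1 : 1 - s / 4 ≤ 1 - s / 8 - 2 * q := by linarith
  have h2 : (1 - s / 4) * (1 + s) ≤ (1 - s / 8 - 2 * q) * (1 + s) :=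
    mul_le_mul_of_nonneg_right h1 (by linarith)
  nlinarith

theorem num5 {s x : ℝ} (hs : 0 < s) (h : 1 - s / (1 + s) < x) : 1 < x * (1 + s) := by
  have e2 : (1 - s / (1 + s)) * (1 + s) = 1 := by field_simp; ring
  have := mul_lt_mul_of_pos_right h (by linarith : (0 : ℝ) < 1 + s)
  linarith

theorem num6 {c t : ℝ} (_hc : 0 < c) (hc1 : c < 1) (ht : 0 < t) (ht1 : t ≤ 1) :
    0 ≤ 1 - c * t := by
  have : c * t ≤ 1 * 1 := mul_le_mul hc1.le ht1 ht.le zero_le_one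
  linarith

theorem num7 {ε : ℝ} (hε : 0 < ε) (hε1 : ε < 1) : (ε / 20) ^ 2 < 1 := by nlinarith

/-- The exposing functional on the new space. -/
noncomputable def fX (k : ℕ) (a0 a1 a2 : 𝕜) (h0 : ‖a0‖ ≤ 1) (h1 : ‖a1‖ ≤ 1) (h2 : ‖a2‖ ≤ 1)
    (v : E3 𝕜) (hv : ‖v‖ ≤ 1) : X3 𝕜 →L[𝕜] 𝕜 :=
  LinearMap.mkContinuous ((ff k a0 a1 a2 v).comp (Renorm.equiv (p3 𝕜) p3_zero).toLinearMap) 1
    (fun w => by
      rw [one_mul]
      exact (norm_ff_le k h0 h1 h2 hv _).trans (Nk_le_p3 k _))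

theorem fX_apply (k : ℕ) (a0 a1 a2 : 𝕜) (h0 : ‖a0‖ ≤ 1) (h1 : ‖a1‖ ≤ 1) (h2 : ‖a2‖ ≤ 1)
    (v : E3 𝕜) (hv : ‖v‖ ≤ 1) (w : X3 𝕜) :
    fX k a0 a1 a2 h0 h1 h2 v hv w = ff k a0 a1 a2 v (Renorm.equiv (p3 𝕜) p3_zero w) := rfl

theorem fX_norm (k : ℕ) (a0 a1 a2 : 𝕜) (h0 : ‖a0‖ ≤ 1) (h1 : ‖a1‖ ≤ 1) (h2 : ‖a2‖ ≤ 1)
    (v : E3 𝕜) (hv : ‖v‖ ≤ 1) : ‖fX k a0 a1 a2 h0 h1 h2 v hv‖ ≤ 1 :=
  LinearMap.mkContinuous_norm_le _ zero_le_one _

theorem slice_small {w0 : E3 𝕜} (hw0 : p3 𝕜 w0 = 1) {ε : ℝ} (hε : 0 < ε) (hε1 : ε < 1) (k : ℕ)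
    {a0 a1 a2 : 𝕜} (h0 : ‖a0‖ ≤ 1) (h1 : ‖a1‖ ≤ 1) (h2 : ‖a2‖ ≤ 1)
    (hv : ‖((‖w0‖ : 𝕜)⁻¹) • w0‖ ≤ 1)
    (w : E3 𝕜) (hw : p3 𝕜 w ≤ 1)
    (hs : 1 - (ε / 20) ^ 2 * tt k < RCLike.re (ff k a0 a1 a2 (((‖w0‖ : 𝕜)⁻¹) • w0) w)) :
    p3 𝕜 (w - w0) < ε := by
  set v : E3 𝕜 := ((‖w0‖ : 𝕜)⁻¹) • w0 with hvdef
  set c : ℝ := (ε / 20) ^ 2 with hc
  have hc0 : 0 < c := by positivity
  have ht := tt_pos k
  have ht1 := tt_le_one k
  have b1 := re_ff_le k h0 h1 h2 (v := v) w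
  have b2 := Nk_le_p3 k w
  have b3 : ‖w‖ - RCLike.re (inner 𝕜 v w) ≤ c := by
    have : tt k * (‖w‖ - RCLike.re (inner 𝕜 v w)) ≤ tt k * c := by nlinarith
    exact le_of_mul_le_mul_left this ht
  have b4 : 1 - c ≤ p3 𝕜 w := by
    have b5 := norm_ff_le k h0 h1 h2 hv w
    have b6 := RCLike.re_le_norm (ff k a0 a1 a2 v w)
    have b7 : c * tt k ≤ c * 1 := mul_le_mul_of_nonneg_left ht1 hc0.le
    linarith
  have b8 := near_of_aligned hw0 hw hc0 b4 b3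
  have b9 : Real.sqrt (2 * c) ≤ ε / 10 := by
    apply Real.sqrt_le_iff.2
    constructor
    · positivity
    · rw [hc]; nlinarith [sq_nonneg ε]
  have b10 : c < ε / 20 := by
    rw [hc]; nlinarith
  linarith

theorem inner_normalized {w0 : E3 𝕜} (h : w0 ≠ 0) :
    inner 𝕜 (((‖w0‖ : 𝕜)⁻¹) • w0) w0 = (‖w0‖ : 𝕜) := by
  have h' : (‖w0‖ : 𝕜) ≠ 0 := by exact_mod_cast norm_ne_zero_iff.2 h
  rw [inner_smul_left, inner_self_eq_norm_sq_to_K, map_inv₀, RCLike.conj_ofReal]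
  field_simp

/-- The local Bishop-Phelps-Bollobas property of the three-dimensional space. -/
theorem X3_local {Y : Type*} [NormedAddCommGroup Y] [NormedSpace 𝕜 Y] (w0 : X3 𝕜) (hw0 : ‖w0‖ = 1)
    (ε : ℝ) (hε : 0 < ε) (hε1 : ε < 1) : ∃ δ : ℝ, 0 < δ ∧
    ∀ T : X3 𝕜 →L[𝕜] Y, ‖T‖ = 1 → 1 - δ < ‖T w0‖ → ∃ S : X3 𝕜 →L[𝕜] Y, ∃ u0 : X3 𝕜,
      ‖S‖ = 1 ∧ ‖u0‖ = 1 ∧ ‖S u0‖ = 1 ∧ ‖u0 - w0‖ < ε ∧ ‖S - T‖ < ε := by
  set x0 : E3 𝕜 := Renorm.equiv (p3 𝕜) p3_zero w0 with hx0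
  have hp0 : p3 𝕜 x0 = 1 := hw0
  have hx0ne : x0 ≠ 0 := by
    intro h
    rw [h, map_zero] at hp0
    exact zero_ne_one hp0
  have hn0 : 0 < ‖x0‖ := norm_pos_iff.2 hx0ne
  set v : E3 𝕜 := ((‖x0‖ : 𝕜)⁻¹) • x0 with hv
  have hvn : ‖v‖ ≤ 1 := by
    rw [hv, norm_smul, norm_inv, RCLike.norm_ofReal, abs_norm, inv_mul_cancel₀ hn0.ne']
  have hvin : inner 𝕜 v x0 = (‖x0‖ : 𝕜) := inner_normalized hx0ne
  set κ : ℝ := ε / 4 with hκ
  have hκ0 : 0 < κ := by positivity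
  set c : ℝ := (ε / 20) ^ 2 with hc
  have hc0 : 0 < c := by positivity
  have hc1 : c < 1 := num7 hε hε1
  obtain ⟨θ0, hθ0, hθ0'⟩ := exists_unimodular (x0 0)
  obtain ⟨θ1, hθ1, hθ1'⟩ := exists_unimodular (x0 1)
  obtain ⟨θ2, hθ2, hθ2'⟩ := exists_unimodular (x0 2)
  by_cases h2 : x0 2 = 0
  · -- the point lies in the non-rotund plane
    have hl1 : ‖x0 0‖ + ‖x0 1‖ = 1 := by rw [← p3_eq_l1 x0 h2]; exact hp0
    obtain ⟨k, hk⟩ := exists_nat_gt (64 / (κ * c))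
    have hκc : 0 < κ * c := by positivity
    set ω : ℝ := 2 / ((k : ℝ) + 1) with hω
    have hω0 : 0 < ω := by positivity
    have hω1 : ω ≤ κ * c / 32 := by
      rw [hω]
      rw [div_lt_iff₀ hκc] at hk
      rw [div_le_div_iff₀ (by positivity) (by norm_num)]
      exact num1 hk hκc
    have ht := tt_pos k
    have ht1 := tt_le_one k
    have hR : ‖x0‖ ≤ 1 := by
      have := norm_le_sum x0
      rw [h2, norm_zero] at this
      linarith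
    set z : ℝ := (1 / ((k : ℝ) + 1)) * (1 - ‖x0‖) with hz
    have hz0 : 0 ≤ z := by
      have : 0 ≤ 1 - ‖x0‖ := by linarith
      positivity
    have hzn : ‖(z : 𝕜)‖ = z := by rw [RCLike.norm_ofReal, abs_of_nonneg hz0]
    have hzn' : ‖(-(z : 𝕜))‖ = z := by rw [norm_neg, hzn]
    set q : ℝ := ω * tt k with hq
    have hq0 : 0 < q := by positivity
    have hfl1 : p3 𝕜 (x0 + (z : 𝕜) • e2) ≤ 1 + q := p3_flat x0 h2 hl1 k (z : 𝕜) hzn
    have hfl2 : p3 𝕜 (x0 + (-(z : 𝕜)) • e2) ≤ 1 + q := p3_flat x0 h2 hl1 k (-(z : 𝕜)) hzn'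
    set g := fX k θ0 θ1 1 hθ0.le hθ1.le (by simp) v hvn with hg
    set b : X3 𝕜 := (Renorm.equiv (p3 𝕜) p3_zero).symm (x0 + (z : 𝕜) • e2) with hb
    set b' : X3 𝕜 := (Renorm.equiv (p3 𝕜) p3_zero).symm (x0 + (-(z : 𝕜)) • e2) with hb'
    have hbn : ‖b‖ ≤ 1 + q := hfl1
    have hbn' : ‖b'‖ ≤ 1 + q := hfl2
    have hbb : b + b' = (2 : 𝕜) • w0 := by
      rw [hb, hb', ← map_add]
      have : x0 + (z : 𝕜) • e2 + (x0 + (-(z : 𝕜)) • e2) = (2 : 𝕜) • x0 := by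
        rw [two_smul 𝕜, neg_smul]; abel
      rw [this, map_smul, hx0, LinearEquiv.symm_apply_apply]
    have hgb : g b = 1 := by
      rw [hg, fX_apply, hb, LinearEquiv.apply_symm_apply, ff_apply]
      have c0 : (x0 + (z : 𝕜) • e2 : E3 𝕜) 0 = x0 0 := by
        change x0 0 + (z : 𝕜) * (e2 : E3 𝕜) 0 = _
        rw [e2_0]; ring
      have c1 : (x0 + (z : 𝕜) • e2 : E3 𝕜) 1 = x0 1 := by
        change x0 1 + (z : 𝕜) * (e2 : E3 𝕜) 1 = _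
        rw [e2_1]; ring
      have c2 : (x0 + (z : 𝕜) • e2 : E3 𝕜) 2 = (z : 𝕜) := by
        change x0 2 + (z : 𝕜) * (e2 : E3 𝕜) 2 = _
        rw [e2_2, h2]; ring
      have c3 : inner 𝕜 v (e2 : E3 𝕜) = 0 := by
        rw [hv, inner_smul_left, e2, EuclideanSpace.inner_single_right, h2]
        simp
      rw [c0, c1, c2, inner_add_right, inner_smul_right, c3, hvin, hθ0', hθ1']
      have hreal : (1 - tt k) * (‖x0 0‖ + ‖x0 1‖) + tt k * ‖x0‖ + rr k * z = 1 := by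
        rw [hl1, hz, rr_eq]
        field_simp
        ring
      have := congrArg (fun r : ℝ => (r : 𝕜)) hreal
      push_cast at this ⊢
      linear_combination this
    set u : X3 𝕜 := (((1 + q : ℝ) : 𝕜)⁻¹) • b with hu
    have hun : ‖u‖ ≤ 1 := by
      rw [hu, norm_smul, norm_inv, RCLike.norm_ofReal, abs_of_pos (by positivity),
        inv_mul_le_iff₀ (by positivity), mul_one]
      exact hbn
    have hgu : RCLike.re (g u) = (1 + q)⁻¹ := by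
      rw [hu, map_smul, hgb, smul_eq_mul, mul_one, ← RCLike.ofReal_inv, RCLike.ofReal_re]
    set s : ℝ := κ * c * tt k / 2 with hs
    have hs0 : 0 < s := by positivity
    have hs1 : s ≤ 1 := by
      have e1 : κ * c ≤ 1 * 1 := mul_le_mul (by linarith) hc1.le hc0.le zero_le_one
      have e2 : κ * c * tt k ≤ 1 * 1 := mul_le_mul (by linarith) ht1 ht.le zero_le_one
      rw [hs]; linarith
    refine ⟨s / 16, by positivity, fun T hT hTw => ?_⟩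
    have hTb : 1 - s / 8 - q ≤ ‖T b‖ := by
      have e1 : ‖T b + T b'‖ ≤ ‖T b‖ + ‖T b'‖ := norm_add_le _ _
      rw [← map_add, hbb, map_smul, norm_smul] at e1
      have e2 : ‖(2 : 𝕜)‖ = 2 := by simp
      rw [e2] at e1
      have e3 := T.le_opNorm b'
      rw [hT, one_mul] at e3
      linarith
    have hTu : (1 - s / 8 - 2 * q) ≤ ‖T u‖ := by
      rw [hu, map_smul, norm_smul, norm_inv, RCLike.norm_ofReal, abs_of_pos (by positivity),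
        ← div_eq_inv_mul, le_div_iff₀ (by positivity)]
      exact num2 hq0 hs0 hTb
    have hqs : q ≤ s / 16 := by
      have : ω * tt k ≤ κ * c / 32 * tt k := mul_le_mul_of_nonneg_right hω1 ht.le
      rw [hq, hs]; linarith
    have hgu' : s ≤ κ * (RCLike.re (g u) - (1 - c * tt k)) := by
      rw [hgu]
      have e1 : 1 - q ≤ (1 + q)⁻¹ := num3 hq0
      have e2 : q ≤ c * tt k / 2 := by
        have e3 : κ * c * tt k ≤ 1 * c * tt k := by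
          apply mul_le_mul_of_nonneg_right _ ht.le
          apply mul_le_mul_of_nonneg_right _ hc0.le
          linarith
        rw [hs] at hqs
        have e4 : 0 ≤ c * tt k := by positivity
        linarith
      have e3 : κ * (c * tt k / 2) ≤ κ * ((1 + q)⁻¹ - (1 - c * tt k)) :=
        mul_le_mul_of_nonneg_left (by linarith) hκ0.le
      rw [hs]; linarith
    have hfin : 1 < ‖T u‖ * (1 + κ * (RCLike.re (g u) - (1 - c * tt k))) := by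
      have e1 : (1 - s / 8 - 2 * q) * (1 + s) ≤ ‖T u‖ * (1 + κ * (RCLike.re (g u) - (1 - c * tt k))) := by
        apply mul_le_mul hTu (by linarith) (by positivity) (norm_nonneg _)
      have e2 : 1 < (1 - s / 8 - 2 * q) * (1 + s) := num4 hs0 hs1 hqs
      linarith
    obtain ⟨S, u0, hS1, hS2, hS3, hS4, hS5⟩ := perturb (w0 := w0) (u := u) (ε := ε) hκ0
      (a := 1 - c * tt k) (num6 hc0 hc1 ht ht1) hun g (fX_norm _ _ _ _ _ _ _ _ _)
      (fun w hw hw' => slice_small hp0 hε hε1 k hθ0.le hθ1.le (by simp) hvn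
        (Renorm.equiv (p3 𝕜) p3_zero w) hw hw') T hT.le hfin
    exact ⟨S, u0, hS1, hS2, hS3, hS4, by rw [hκ] at hS5; linarith⟩
  · -- the point is strongly exposed
    obtain ⟨k, hk⟩ := Nk_attained x0 h2
    have ht := tt_pos k
    have ht1 := tt_le_one k
    set g := fX k θ0 θ1 θ2 hθ0.le hθ1.le hθ2.le v hvn with hg
    have hgw : g w0 = 1 := by
      rw [hg, fX_apply, ff_apply, ← hx0, hvin, hθ0', hθ1', hθ2']
      rw [hp0] at hk
      have := congrArg (fun r : ℝ => (r : 𝕜)) hk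
      simp only [Nk] at this
      push_cast at this ⊢
      linear_combination -this
    set s : ℝ := κ * (c * tt k) with hs
    have hs0 : 0 < s := by positivity
    refine ⟨s / (1 + s), by positivity, fun T hT hTw => ?_⟩
    have hfin : 1 < ‖T w0‖ * (1 + κ * (RCLike.re (g w0) - (1 - c * tt k))) := by
      rw [hgw, RCLike.one_re]
      have e1 : 1 + κ * (1 - (1 - c * tt k)) = 1 + s := by rw [hs]; ring
      rw [e1]
      exact num5 hs0 hTw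
    obtain ⟨S, u0, hS1, hS2, hS3, hS4, hS5⟩ := perturb (w0 := w0) (u := w0) (ε := ε) hκ0
      (a := 1 - c * tt k) (num6 hc0 hc1 ht ht1) hw0.le g (fX_norm _ _ _ _ _ _ _ _ _)
      (fun w hw hw' => slice_small hp0 hε hε1 k hθ0.le hθ1.le hθ2.le hvn
        (Renorm.equiv (p3 𝕜) p3_zero w) hw hw') T hT.le hfin
    exact ⟨S, u0, hS1, hS2, hS3, hS4, by rw [hκ] at hS5; linarith⟩

theorem X3_bpbp (Y : Type*) [NormedAddCommGroup Y] [NormedSpace 𝕜 Y] : HasBPBp 𝕜 (X3 𝕜) Y :=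
  bpbp_of_local fun w0 hw0 ε hε hε1 => X3_local w0 hw0 ε hε hε1

end X3b
section Fail

variable (𝕜 : Type) [RCLike 𝕜]

theorem norm_J_dl (n : ℕ) : ‖J 𝕜 (dl 𝕜 n)‖ = (1 / 2 : ℝ) ^ n := by
  have h : J 𝕜 (dl 𝕜 n) = lp.single 2 n (((1 / 2 : ℝ) ^ n : ℝ) : 𝕜) := by
    ext m
    rw [J_apply, dl_apply, lp.single_apply, Pi.single_apply]
    by_cases hm : m = n
    · subst hm
      rw [if_pos rfl, if_pos rfl, RCLike.real_smul_eq_coe_mul, mul_one]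
    · rw [if_neg hm, if_neg hm, smul_zero]
  rw [h, lp.norm_single (by norm_num), RCLike.norm_ofReal, abs_of_nonneg (by positivity)]

/-- Strict convexity of `Y0`, general convex combinations. -/
theorem Y0_strict' {A B : Y0 𝕜} (hA : ‖A‖ ≤ 1) (hB : ‖B‖ ≤ 1) {s t : ℝ} (hs : 0 < s) (ht : 0 < t)
    (hst : s + t = 1) (h : 1 ≤ ‖(s : 𝕜) • A + (t : 𝕜) • B‖) : A = B := by
  wlog hle : s ≤ t generalizing A B s t
  · exact (this hB hA ht hs (by linarith) (by rwa [add_comm]) (by linarith)).symm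
  apply Y0_strict 𝕜 hA hB
  have e : (s : 𝕜) • A + (t : 𝕜) • B = (s : 𝕜) • (A + B) + ((t - s : ℝ) : 𝕜) • B := by
    push_cast
    rw [smul_add, sub_smul]; abel
  rw [e] at h
  have h1 := norm_add_le ((s : 𝕜) • (A + B)) (((t - s : ℝ) : 𝕜) • B)
  rw [norm_smul, norm_smul, RCLike.norm_ofReal, RCLike.norm_ofReal, abs_of_pos hs,
    abs_of_nonneg (by linarith)] at h1
  have h2 : (t - s) * ‖B‖ ≤ (t - s) * 1 := mul_le_mul_of_nonneg_left hB (by linarith)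
  have h3 : s * 2 ≤ s * ‖A + B‖ := by linarith
  exact le_of_mul_le_mul_left h3 hs

theorem exists_phase {𝕜 : Type} [RCLike 𝕜] (z : 𝕜) : ∃ θ : 𝕜, ‖θ‖ = 1 ∧ z = (‖z‖ : 𝕜) * θ := by
  by_cases hz : z = 0
  · exact ⟨1, by simp, by simp [hz]⟩
  · have hz' : ‖z‖ ≠ 0 := norm_ne_zero_iff.2 hz
    have hz'' : (‖z‖ : 𝕜) ≠ 0 := by exact_mod_cast hz'
    refine ⟨z / (‖z‖ : 𝕜), ?_, ?_⟩
    · rw [norm_div, RCLike.norm_ofReal, abs_norm, div_self hz']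
    · field_simp

theorem phase_near {𝕜 : Type} [RCLike 𝕜] {z θ : 𝕜} (_hθ : ‖θ‖ = 1) (h : z = (‖z‖ : 𝕜) * θ)
    (hz : 7 / 16 ≤ ‖z‖) : ‖θ - 1‖ ≤ 32 / 7 * ‖(1 / 2 : 𝕜) - z‖ := by
  have h1 : (‖z‖ : 𝕜) * (θ - 1) = (z - 1 / 2) + ((1 / 2 - ‖z‖ : ℝ) : 𝕜) := by
    push_cast
    rw [mul_sub, mul_one, ← h]; ring
  have h2 : ‖(‖z‖ : 𝕜) * (θ - 1)‖ ≤ 2 * ‖(1 / 2 : 𝕜) - z‖ := by
    rw [h1]
    refine (norm_add_le _ _).trans ?_
    rw [norm_sub_rev, RCLike.norm_ofReal]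
    have h3 : |1 / 2 - ‖z‖| ≤ ‖(1 / 2 : 𝕜) - z‖ := by
      have := abs_norm_sub_norm_le (1 / 2 : 𝕜) z
      have h4 : ‖(1 / 2 : 𝕜)‖ = 1 / 2 := by simp
      rwa [h4] at this
    linarith
  rw [norm_mul, RCLike.norm_ofReal, abs_norm] at h2
  have h3 := norm_nonneg (θ - 1)
  nlinarith

/-- If `W` is isometric to the two-dimensional `ℓ₁` space, then the pair `(W, Y0)` fails the
Bishop-Phelps-Bollobas property. -/
theorem fail_of_l1 (W : Type) [NormedAddCommGroup W] [NormedSpace 𝕜 W]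
    (i : (𝕜 × 𝕜) ≃ₗ[𝕜] W) (hi : ∀ p : 𝕜 × 𝕜, ‖i p‖ = ‖p.1‖ + ‖p.2‖) : ¬ HasBPBp 𝕜 W (Y0 𝕜) := by
  intro hB
  obtain ⟨η, hη, H⟩ := hB (1 / 16) (by norm_num) (by norm_num)
  -- choose n
  obtain ⟨n, hn1, hn2⟩ : ∃ n : ℕ, 1 ≤ n ∧ 2 * (1 / 2 : ℝ) ^ n < η := by
    obtain ⟨m, hm⟩ := exists_pow_lt_of_lt_one (y := (1 / 2 : ℝ)) (half_pos hη) (by norm_num)
    refine ⟨m + 1, by omega, ?_⟩
    rw [pow_succ]
    have : 0 < (1 / 2 : ℝ) ^ m := by positivity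
    linarith
  set q : ℝ := (1 / 2 : ℝ) ^ n with hq
  have hq0 : 0 < q := by positivity
  have hq1 : q ≤ 1 / 2 := by
    rw [hq]
    calc (1 / 2 : ℝ) ^ n ≤ (1 / 2 : ℝ) ^ 1 := pow_le_pow_of_le_one (by norm_num) (by norm_num) hn1
      _ = 1 / 2 := by norm_num
  -- the two vectors of Y0
  set a : Y0 𝕜 := (Renorm.equiv (pY 𝕜) (pY_zero 𝕜)).symm (dl 𝕜 n + dl 𝕜 (n + 1)) with ha
  set b : Y0 𝕜 := (Renorm.equiv (pY 𝕜) (pY_zero 𝕜)).symm (dl 𝕜 n - dl 𝕜 (n + 1)) with hb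
  set en : Y0 𝕜 := (Renorm.equiv (pY 𝕜) (pY_zero 𝕜)).symm (dl 𝕜 n) with hen
  set en1 : Y0 𝕜 := (Renorm.equiv (pY 𝕜) (pY_zero 𝕜)).symm (dl 𝕜 (n + 1)) with hen1
  have hen_norm : 1 ≤ ‖en‖ := by
    have h1 : ‖en‖ = ‖dl 𝕜 n‖ + ‖J 𝕜 (dl 𝕜 n)‖ := rfl
    rw [h1, norm_dl]
    linarith [norm_nonneg (J 𝕜 (dl 𝕜 n))]
  have hen1_norm : 1 ≤ ‖en1‖ := by
    have h1 : ‖en1‖ = ‖dl 𝕜 (n + 1)‖ + ‖J 𝕜 (dl 𝕜 (n + 1))‖ := rfl
    rw [h1, norm_dl]
    linarith [norm_nonneg (J 𝕜 (dl 𝕜 (n + 1)))]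
  have hJ : ‖J 𝕜 (dl 𝕜 n)‖ + ‖J 𝕜 (dl 𝕜 (n + 1))‖ ≤ 2 * q := by
    rw [norm_J_dl, norm_J_dl, pow_succ]
    linarith
  have ha_norm : ‖a‖ ≤ 1 + 2 * q := by
    have h1 : ‖a‖ = ‖dl 𝕜 n + dl 𝕜 (n + 1)‖ + ‖J 𝕜 (dl 𝕜 n + dl 𝕜 (n + 1))‖ := rfl
    have h2 : ‖dl 𝕜 n + dl 𝕜 (n + 1)‖ ≤ 1 := by
      apply c0_norm_le 𝕜 zero_le_one
      intro m
      rw [ZeroAtInftyContinuousMap.add_apply, dl_apply, dl_apply]
      by_cases h1 : m = n
      · rw [if_pos h1, if_neg (by omega)]; simp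
      · rw [if_neg h1]; split_ifs <;> simp
    have h3 := norm_add_le (J 𝕜 (dl 𝕜 n)) (J 𝕜 (dl 𝕜 (n + 1)))
    rw [← map_add] at h3
    linarith
  have hb_norm : ‖b‖ ≤ 1 + 2 * q := by
    have h1 : ‖b‖ = ‖dl 𝕜 n - dl 𝕜 (n + 1)‖ + ‖J 𝕜 (dl 𝕜 n - dl 𝕜 (n + 1))‖ := rfl
    have h2 : ‖dl 𝕜 n - dl 𝕜 (n + 1)‖ ≤ 1 := by
      apply c0_norm_le 𝕜 zero_le_one
      intro m
      rw [ZeroAtInftyContinuousMap.sub_apply, dl_apply, dl_apply]
      by_cases h1 : m = n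
      · rw [if_pos h1, if_neg (by omega)]; simp
      · rw [if_neg h1]; split_ifs <;> simp
    have h3 := norm_sub_le (J 𝕜 (dl 𝕜 n)) (J 𝕜 (dl 𝕜 (n + 1)))
    rw [← map_sub] at h3
    linarith
  -- the operator
  set L : (𝕜 × 𝕜) →ₗ[𝕜] Y0 𝕜 := (LinearMap.fst 𝕜 𝕜 𝕜).smulRight a + (LinearMap.snd 𝕜 𝕜 𝕜).smulRight b
    with hL
  have hLa : ∀ p : 𝕜 × 𝕜, L p = p.1 • a + p.2 • b := fun p => rfl
  set T' : W →L[𝕜] Y0 𝕜 := LinearMap.mkContinuous (L.comp i.symm.toLinearMap) (1 + 2 * q) (by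
    intro w
    obtain ⟨p, rfl⟩ := i.surjective w
    have e1 : (L.comp i.symm.toLinearMap) (i p) = L p := by
      simp
    rw [e1, hLa, hi]
    refine (norm_add_le _ _).trans ?_
    rw [norm_smul, norm_smul]
    have h1 := mul_le_mul_of_nonneg_left ha_norm (norm_nonneg p.1)
    have h2 := mul_le_mul_of_nonneg_left hb_norm (norm_nonneg p.2)
    linarith) with hT'
  have hT'a : ∀ p : 𝕜 × 𝕜, T' (i p) = p.1 • a + p.2 • b := by
    intro p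
    change L (i.symm (i p)) = _
    rw [LinearEquiv.symm_apply_apply, hLa]
  have hT'n : ‖T'‖ ≤ 1 + 2 * q := LinearMap.mkContinuous_norm_le _ (by positivity) _
  set x0 : W := i (1 / 2, 1 / 2) with hx0
  have h12 : ‖(1 / 2 : 𝕜)‖ = 1 / 2 := by simp
  have hx0n : ‖x0‖ = 1 := by
    rw [hx0, hi, h12]; norm_num
  have hT'x0 : T' x0 = en := by
    rw [hx0, hT'a, ← smul_add, ha, hb, ← map_add, hen, ← map_smul]
    congr 1
    have : dl 𝕜 n + dl 𝕜 (n + 1) + (dl 𝕜 n - dl 𝕜 (n + 1)) = dl 𝕜 n + dl 𝕜 n := by abel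
    rw [this, ← two_smul 𝕜 (dl 𝕜 n), smul_smul]
    norm_num
  have hT'1 : 1 ≤ ‖T'‖ := by
    have := T'.le_opNorm x0
    rw [hT'x0, hx0n, mul_one] at this
    linarith
  have hT'0 : 0 < ‖T'‖ := by linarith
  set T : W →L[𝕜] Y0 𝕜 := ((‖T'‖ : 𝕜)⁻¹) • T' with hT
  have hTn : ‖T‖ = 1 := by
    rw [hT, norm_smul, norm_inv, RCLike.norm_ofReal, abs_norm, inv_mul_cancel₀ hT'0.ne']
  have hTa : ∀ w, ‖T w‖ = ‖T' w‖ / ‖T'‖ := by
    intro w
    change ‖((‖T'‖ : 𝕜)⁻¹) • T' w‖ = _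
    rw [norm_smul, norm_inv, RCLike.norm_ofReal, abs_norm, div_eq_inv_mul]
  have hTx0 : 1 - η < ‖T x0‖ := by
    rw [hTa, hT'x0, lt_div_iff₀ hT'0]
    by_cases h1 : 1 - η ≤ 0
    · nlinarith
    · push Not at h1
      have : (1 - η) * ‖T'‖ ≤ (1 - η) * (1 + 2 * q) := mul_le_mul_of_nonneg_left hT'n h1.le
      nlinarith
  obtain ⟨S, u0, hS, hu0, hSu0, hxu, hST⟩ := H T hTn x0 hx0n hTx0
  obtain ⟨⟨α, β⟩, rfl⟩ := i.surjective u0
  rw [hi] at hu0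
  dsimp only at hu0
  have hxu' : ‖(1 / 2 : 𝕜) - α‖ + ‖(1 / 2 : 𝕜) - β‖ < 1 / 16 := by
    rw [hx0, ← map_sub, hi] at hxu
    exact hxu
  have hα : 7 / 16 ≤ ‖α‖ := by
    have h1 := norm_sub_norm_le (1 / 2 : 𝕜) α
    rw [h12] at h1
    linarith [norm_nonneg ((1 / 2 : 𝕜) - β)]
  have hβ : 7 / 16 ≤ ‖β‖ := by
    have h1 := norm_sub_norm_le (1 / 2 : 𝕜) β
    rw [h12] at h1
    linarith [norm_nonneg ((1 / 2 : 𝕜) - α)]
  obtain ⟨θ1, hθ1, hαθ⟩ := exists_phase α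
  obtain ⟨θ2, hθ2, hβθ⟩ := exists_phase β
  set A : Y0 𝕜 := S (i (1, 0)) with hA
  set B : Y0 𝕜 := S (i (0, 1)) with hB
  have hAn : ‖A‖ ≤ 1 := by
    have := S.le_opNorm (i (1, 0))
    rw [hS, hi] at this
    simpa using this
  have hBn : ‖B‖ ≤ 1 := by
    have := S.le_opNorm (i (0, 1))
    rw [hS, hi] at this
    simpa using this
  have hdec : S (i (α, β)) = (‖α‖ : 𝕜) • (θ1 • A) + (‖β‖ : 𝕜) • (θ2 • B) := by
    rw [smul_smul, smul_smul, ← hαθ, ← hβθ, hA, hB, ← map_smul, ← map_smul, ← map_smul, ← map_smul,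
      ← map_add, ← map_add]
    congr 2
    ext <;> simp
  have hAB : θ1 • A = θ2 • B := by
    apply Y0_strict' 𝕜 (s := ‖α‖) (t := ‖β‖)
    · rw [norm_smul, hθ1, one_mul]; exact hAn
    · rw [norm_smul, hθ2, one_mul]; exact hBn
    · linarith
    · linarith
    · exact hu0
    · rw [← hdec, hSu0]
  have hθ : ‖θ2 - θ1‖ < 2 / 7 := by
    have h1 := phase_near hθ1 hαθ hα
    have h2 := phase_near hθ2 hβθ hβ
    have h3 : θ2 - θ1 = (θ2 - 1) - (θ1 - 1) := by ring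
    rw [h3]
    refine (norm_sub_le _ _).trans_lt ?_
    linarith
  have hdiff : ‖A - B‖ < 2 / 7 := by
    have h1 : ‖A - B‖ = ‖θ1 • (A - B)‖ := by rw [norm_smul, hθ1, one_mul]
    rw [h1, smul_sub, hAB, ← sub_smul, norm_smul]
    have := mul_le_mul_of_nonneg_left hBn (norm_nonneg (θ2 - θ1))
    linarith
  set d : W := i (1, -1) with hd
  have hdn : ‖d‖ = 2 := by
    rw [hd, hi]; norm_num
  have hSd : S d = A - B := by
    rw [hd, hA, hB, ← map_sub, ← map_sub]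
    congr 2
    ext <;> simp
  have hTd : 1 ≤ ‖T d‖ := by
    rw [hTa, le_div_iff₀ hT'0, one_mul, hd, hT'a]
    have h1 : ((1 : 𝕜), (-1 : 𝕜)).1 • a + ((1 : 𝕜), (-1 : 𝕜)).2 • b = (2 : 𝕜) • en1 := by
      dsimp only
      rw [one_smul, neg_smul, one_smul, ← sub_eq_add_neg, ha, hb, ← map_sub, hen1, ← map_smul]
      congr 1
      have : dl 𝕜 n + dl 𝕜 (n + 1) - (dl 𝕜 n - dl 𝕜 (n + 1)) = dl 𝕜 (n + 1) + dl 𝕜 (n + 1) := by
        abel
      rw [this, ← two_smul 𝕜 (dl 𝕜 (n + 1))]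
    rw [h1, norm_smul]
    have h2 : ‖(2 : 𝕜)‖ = 2 := by simp
    rw [h2]
    linarith
  have hfin : ‖(S - T) d‖ ≤ 1 / 16 * 2 := by
    have := (S - T).le_opNorm d
    rw [hdn] at this
    linarith
  have h3 : (S - T) d = S d - T d := rfl
  rw [h3, hSd] at hfin
  have h4 := norm_sub_norm_le (T d) (A - B)
  rw [norm_sub_rev (T d)] at h4
  linarith

end Fail

section Sub

variable {𝕜 : Type} [RCLike 𝕜]

/-- The one-complemented plane in the three-dimensional space. -/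
noncomputable def X31 (𝕜 : Type) [RCLike 𝕜] : Submodule 𝕜 (X3 𝕜) :=
  LinearMap.ker ((PiLp.projₗ 2 (fun _ : Fin 3 => 𝕜) 2).comp
    (Renorm.equiv (p3 𝕜) p3_zero).toLinearMap)

theorem mem_X31 (w : X3 𝕜) : w ∈ X31 𝕜 ↔ (Renorm.equiv (p3 𝕜) p3_zero w) 2 = 0 := Iff.rfl

/-- The projection `w ↦ w - w₂ e₂`. -/
noncomputable def pr3 : E3 𝕜 →ₗ[𝕜] E3 𝕜 :=
  LinearMap.id - (PiLp.projₗ 2 (fun _ : Fin 3 => 𝕜) 2).smulRight e2

theorem pr3_apply (w : E3 𝕜) : pr3 w = w - w 2 • e2 := rfl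

theorem pr3_0 (w : E3 𝕜) : (pr3 w) 0 = w 0 := by
  rw [pr3_apply]
  change w 0 - w 2 * (e2 : E3 𝕜) 0 = w 0
  rw [e2_0]; ring

theorem pr3_1 (w : E3 𝕜) : (pr3 w) 1 = w 1 := by
  rw [pr3_apply]
  change w 1 - w 2 * (e2 : E3 𝕜) 1 = w 1
  rw [e2_1]; ring

theorem pr3_2 (w : E3 𝕜) : (pr3 w) 2 = 0 := by
  rw [pr3_apply]
  change w 2 - w 2 * (e2 : E3 𝕜) 2 = 0
  rw [e2_2]; ring

theorem p3_pr3_le (w : E3 𝕜) : p3 𝕜 (pr3 w) ≤ p3 𝕜 w := by
  rw [p3_eq_l1 _ (pr3_2 w), pr3_0, pr3_1]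
  exact l1_le_p3 w

theorem pr3_of_zero {w : E3 𝕜} (h : w 2 = 0) : pr3 w = w := by
  rw [pr3_apply, h, zero_smul, sub_zero]

/-- The norm one projection of the three-dimensional space onto the plane. -/
noncomputable def P3 (𝕜 : Type) [RCLike 𝕜] : X3 𝕜 →L[𝕜] X3 𝕜 :=
  LinearMap.mkContinuous ((Renorm.equiv (p3 𝕜) p3_zero).symm.toLinearMap.comp
    (pr3.comp (Renorm.equiv (p3 𝕜) p3_zero).toLinearMap)) 1
    (fun w => by rw [one_mul]; exact p3_pr3_le _)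

theorem P3_apply (w : X3 𝕜) : P3 𝕜 w =
    (Renorm.equiv (p3 𝕜) p3_zero).symm (pr3 (Renorm.equiv (p3 𝕜) p3_zero w)) := rfl

theorem X31_oneComplemented : OneComplemented (X31 𝕜) := by
  constructor
  · exact (X31 𝕜).closed_of_finiteDimensional
  · refine ⟨P3 𝕜, fun x => ?_, fun x => ?_, LinearMap.mkContinuous_norm_le _ zero_le_one _⟩
    · rw [P3_apply, P3_apply, LinearEquiv.apply_symm_apply, pr3_of_zero (pr3_2 _)]
    · constructor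
      · intro hx
        refine ⟨x, ?_⟩
        rw [P3_apply, pr3_of_zero ((mem_X31 x).1 hx), LinearEquiv.symm_apply_apply]
      · rintro ⟨y, rfl⟩
        rw [mem_X31, P3_apply, LinearEquiv.apply_symm_apply, pr3_2]

/-- The plane is isometric to the two-dimensional `ℓ₁` space. -/
noncomputable def i31 (𝕜 : Type) [RCLike 𝕜] : (𝕜 × 𝕜) ≃ₗ[𝕜] X31 𝕜 where
  toFun p := ⟨(Renorm.equiv (p3 𝕜) p3_zero).symm (!₂[p.1, p.2, 0] : E3 𝕜), by
    rw [mem_X31, LinearEquiv.apply_symm_apply]; rfl⟩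
  map_add' p q := by
    apply Subtype.ext
    apply (Renorm.equiv (p3 𝕜) p3_zero).injective
    change (!₂[p.1 + q.1, p.2 + q.2, 0] : E3 𝕜) = !₂[p.1, p.2, 0] + !₂[q.1, q.2, 0]
    ext j; fin_cases j <;> simp
  map_smul' c p := by
    apply Subtype.ext
    apply (Renorm.equiv (p3 𝕜) p3_zero).injective
    change (!₂[c * p.1, c * p.2, 0] : E3 𝕜) = c • !₂[p.1, p.2, 0]
    ext j; fin_cases j <;> simp
  invFun w := ((Renorm.equiv (p3 𝕜) p3_zero w.1) 0, (Renorm.equiv (p3 𝕜) p3_zero w.1) 1)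
  left_inv p := rfl
  right_inv w := by
    apply Subtype.ext
    apply (Renorm.equiv (p3 𝕜) p3_zero).injective
    have h := (mem_X31 w.1).1 w.2
    change (!₂[(Renorm.equiv (p3 𝕜) p3_zero w.1) 0, (Renorm.equiv (p3 𝕜) p3_zero w.1) 1, 0] : E3 𝕜)
      = (Renorm.equiv (p3 𝕜) p3_zero w.1)
    ext j; fin_cases j
    · simp
    · simp
    · simpa using h.symm

theorem i31_norm (p : 𝕜 × 𝕜) : ‖i31 𝕜 p‖ = ‖p.1‖ + ‖p.2‖ := by
  change p3 𝕜 (!₂[p.1, p.2, 0] : E3 𝕜) = _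
  rw [p3_eq_l1 _ (by rfl)]
  rfl

theorem X31_fail : ¬ HasBPBp 𝕜 (X31 𝕜) (Y0 𝕜) := fail_of_l1 𝕜 (X31 𝕜) (i31 𝕜) i31_norm

end Sub

end Pool.Agent.Helper25.NA
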