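import Pool.Agent.Helper25.NACommon

/-!
For MP_5ffaeb_an, Q2: every Banach space `Z ≠ 0` is one-complemented in the space `XA 𝕜 Z`, which
is `Z ⊕ ℓ₁(S_Z)` with a norm having property alpha, and so has Lindenstrauss' property A.
-/

set_option autoImplicit false

open scoped ZeroAtInfty ENNReal

namespace Pool.Agent.Helper25.NA

section PropA

variable (𝕜 : Type) [RCLike 𝕜] (Z : Type) [NormedAddCommGroup Z] [NormedSpace 𝕜 Z]

/-- The unit sphere of `Z` as an index set. -/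
abbrev Sph : Type := {u : Z // ‖u‖ = 1}

/-- `ℓ₁` over the unit sphere of `Z`. -/
abbrev L1 : Type := lp (fun _ : Sph Z => 𝕜) 1

open Classical in
/-- The unit vectors of `ℓ₁`. -/
noncomputable def ee (u : Sph Z) : L1 𝕜 Z := lp.single 1 u (1 : 𝕜)

/-- The underlying vector space `Z ⊕ ℓ₁(S_Z)`. -/
abbrev EE : Type := Z × L1 𝕜 Z

/-- The functionals that are bounded by one at all the points `(u, ± e_u)`. -/
abbrev KK : Type := {F : EE 𝕜 Z →L[𝕜] 𝕜 // ∀ u : Sph Z, ‖F (u.1, ee 𝕜 Z u)‖ ≤ 1 ∧ ‖F (u.1, - ee 𝕜 Z u)‖ ≤ 1}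

instance : Nonempty (KK 𝕜 Z) := ⟨⟨0, fun u => by simp⟩⟩

omit [NormedSpace 𝕜 Z] in
theorem ee_norm (u : Sph Z) : ‖ee 𝕜 Z u‖ = 1 := by
  classical
  unfold ee
  rw [lp.norm_single (by norm_num)]
  simp

variable {𝕜 Z}

theorem KK_fst_le (F : KK 𝕜 Z) (x : Z) : ‖F.1 (x, 0)‖ ≤ ‖x‖ := by
  by_cases hx : x = 0
  · subst hx
    have : ((0 : Z), (0 : L1 𝕜 Z)) = 0 := rfl
    rw [this, map_zero]; simp
  · have hx' : ‖x‖ ≠ 0 := norm_ne_zero_iff.2 hx
    set u : Sph Z := ⟨((‖x‖ : 𝕜)⁻¹) • x, by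
      rw [norm_smul, norm_inv, RCLike.norm_ofReal, abs_norm, inv_mul_cancel₀ hx']⟩ with hu
    have h1 := F.2 u
    have h2 : F.1 (x, 0) = ((‖x‖ : 𝕜) / 2) * (F.1 (u.1, ee 𝕜 Z u) + F.1 (u.1, - ee 𝕜 Z u)) := by
      rw [← map_add, ← smul_eq_mul, ← map_smul]
      congr 1
      ext1
      · simp only [Prod.fst_add, Prod.smul_fst, hu]
        rw [← two_smul 𝕜, smul_smul, smul_smul]
        have : (‖x‖ : 𝕜) ≠ 0 := by exact_mod_cast hx'
        field_simp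
        simp
      · simp
    rw [h2, norm_mul]
    have h3 := norm_add_le (F.1 (u.1, ee 𝕜 Z u)) (F.1 (u.1, - ee 𝕜 Z u))
    have h4 : ‖(‖x‖ : 𝕜) / 2‖ = ‖x‖ / 2 := by
      rw [norm_div, RCLike.norm_ofReal, abs_norm]; simp
    rw [h4]
    have h5 : 0 ≤ ‖x‖ / 2 := by positivity
    nlinarith [h1.1, h1.2]

theorem KK_snd_single_le (F : KK 𝕜 Z) (u : Sph Z) : ‖F.1 (0, ee 𝕜 Z u)‖ ≤ 1 := by
  have h1 := F.2 u
  have h2 : F.1 (0, ee 𝕜 Z u) = (1 / 2 : 𝕜) * (F.1 (u.1, ee 𝕜 Z u) - F.1 (u.1, - ee 𝕜 Z u)) := by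
    rw [← map_sub, ← smul_eq_mul, ← map_smul]
    congr 1
    ext1
    · simp
    · simp only [Prod.snd_sub, Prod.smul_snd, sub_neg_eq_add]
      rw [← two_smul 𝕜, smul_smul]
      norm_num
  rw [h2, norm_mul]
  have h3 := norm_sub_le (F.1 (u.1, ee 𝕜 Z u)) (F.1 (u.1, - ee 𝕜 Z u))
  have h4 : ‖(1 / 2 : 𝕜)‖ = 1 / 2 := by simp
  rw [h4]
  nlinarith [h1.1, h1.2]

theorem KK_snd_le (F : KK 𝕜 Z) (z : L1 𝕜 Z) : ‖F.1 (0, z)‖ ≤ ‖z‖ := by
  classical
  have h1 := lp.hasSum_single (p := (1 : ℝ≥0∞)) (by norm_num) z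
  have h2 : HasSum (fun u => F.1 (0, lp.single 1 u (z u))) (F.1 (0, z)) := by
    have := h1.mapL (F.1.comp (ContinuousLinearMap.inr 𝕜 Z (L1 𝕜 Z)))
    simpa using this
  have h3 : ∀ u, ‖F.1 (0, lp.single 1 u (z u))‖ ≤ ‖z u‖ := by
    intro u
    have : ((0 : Z), (lp.single 1 u (z u) : L1 𝕜 Z)) = (z u) • ((0 : Z), ee 𝕜 Z u) := by
      ext1
      · simp
      · simp only [ee, Prod.smul_snd]
        rw [← lp.single_smul, smul_eq_mul, mul_one]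
    rw [this, map_smul, norm_smul]
    have := KK_snd_single_le F u
    have h0 : 0 ≤ ‖z u‖ := norm_nonneg _
    nlinarith
  have h4 : HasSum (fun u => ‖z u‖) ‖z‖ := by
    have h5 := lp.hasSum_norm (p := (1 : ℝ≥0∞)) (by norm_num) z
    simpa using h5
  exact h2.norm_le_of_bounded h4 h3

theorem KK_le (F : KK 𝕜 Z) (w : EE 𝕜 Z) : ‖F.1 w‖ ≤ ‖w.1‖ + ‖w.2‖ := by
  have h : w = (w.1, 0) + (0, w.2) := by ext1 <;> simp
  have h2 : F.1 w = F.1 (w.1, 0) + F.1 (0, w.2) := by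
    rw [← map_add]; congr 1
  rw [h2]
  exact (norm_add_le _ _).trans (add_le_add (KK_fst_le F _) (KK_snd_le F _))


theorem KK_bdd (w : EE 𝕜 Z) : BddAbove (Set.range fun F : KK 𝕜 Z => ‖F.1 w‖) :=
  ⟨‖w.1‖ + ‖w.2‖, by rintro _ ⟨F, rfl⟩; exact KK_le F w⟩

variable (𝕜 Z)

/-- The norm of the space `Z ⊕ ℓ₁(S_Z)` with property alpha: the supremum of the functionals that
are bounded by one at all the points `(u, ± e_u)`; its unit ball is the closed absolutely convex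
hull of these points. -/
noncomputable def pA : Seminorm 𝕜 (EE 𝕜 Z) :=
  Seminorm.of (fun w => ⨆ F : KK 𝕜 Z, ‖F.1 w‖)
    (fun x y => by
      apply ciSup_le
      intro F
      rw [map_add]
      exact (norm_add_le _ _).trans (add_le_add (le_ciSup (KK_bdd x) F) (le_ciSup (KK_bdd y) F)))
    (fun a x => by
      simp only [map_smul, norm_smul]
      rw [Real.mul_iSup_of_nonneg (norm_nonneg a)])

variable {𝕜 Z}

theorem pA_apply (w : EE 𝕜 Z) : pA 𝕜 Z w = ⨆ F : KK 𝕜 Z, ‖F.1 w‖ := rfl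

theorem KK_le_pA (F : KK 𝕜 Z) (w : EE 𝕜 Z) : ‖F.1 w‖ ≤ pA 𝕜 Z w := le_ciSup (KK_bdd w) F

theorem pA_le_of (w : EE 𝕜 Z) {c : ℝ} (h : ∀ F : KK 𝕜 Z, ‖F.1 w‖ ≤ c) : pA 𝕜 Z w ≤ c :=
  ciSup_le h

theorem pA_le (w : EE 𝕜 Z) : pA 𝕜 Z w ≤ ‖w.1‖ + ‖w.2‖ := pA_le_of w fun F => KK_le F w

/-- A functional `(g, h)` with small norms lies in `KK`. -/
theorem fst_le_pA (w : EE 𝕜 Z) : ‖w.1‖ ≤ pA 𝕜 Z w := by
  by_cases hw : w.1 = 0
  · rw [hw, norm_zero]; exact apply_nonneg _ _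
  · obtain ⟨g, hg1, hg2⟩ := exists_dual_vector 𝕜 w.1 (norm_ne_zero_iff.2 hw)
    set F : KK 𝕜 Z := ⟨g.comp (ContinuousLinearMap.fst 𝕜 Z (L1 𝕜 Z)), fun u => by
      constructor
      · have := g.le_opNorm u.1
        rw [hg1, u.2] at this
        simpa using this
      · have := g.le_opNorm u.1
        rw [hg1, u.2] at this
        simpa using this⟩ with hF
    have h1 := KK_le_pA F w
    have h2 : F.1 w = (‖w.1‖ : 𝕜) := by simp [hF, hg2]
    rw [h2, RCLike.norm_ofReal, abs_norm] at h1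
    exact h1

theorem snd_le_pA (w : EE 𝕜 Z) : ‖w.2‖ ≤ pA 𝕜 Z w := by
  by_cases hw : w.2 = 0
  · rw [hw, norm_zero]; exact apply_nonneg _ _
  · obtain ⟨g, hg1, hg2⟩ := exists_dual_vector 𝕜 w.2 (norm_ne_zero_iff.2 hw)
    set F : KK 𝕜 Z := ⟨g.comp (ContinuousLinearMap.snd 𝕜 Z (L1 𝕜 Z)), fun u => by
      constructor
      · have := g.le_opNorm (ee 𝕜 Z u)
        rw [hg1, ee_norm] at this
        simpa using this
      · have := g.le_opNorm (ee 𝕜 Z u)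
        rw [hg1, ee_norm] at this
        simpa using this⟩ with hF
    have h1 := KK_le_pA F w
    have h2 : F.1 w = (‖w.2‖ : 𝕜) := by simp [hF, hg2]
    rw [h2, RCLike.norm_ofReal, abs_norm] at h1
    exact h1

theorem norm_le_pA (w : EE 𝕜 Z) : ‖w‖ ≤ 1 * pA 𝕜 Z w := by
  rw [one_mul, Prod.norm_def]
  exact max_le (fst_le_pA w) (snd_le_pA w)

theorem pA_le' (w : EE 𝕜 Z) : pA 𝕜 Z w ≤ 2 * ‖w‖ := by
  have h1 := pA_le w
  have h2 := norm_fst_le w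
  have h3 := norm_snd_le w
  linarith

theorem pA_zero (w : EE 𝕜 Z) (h : pA 𝕜 Z w = 0) : w = 0 := by
  have := norm_le_pA w
  rw [h, mul_zero] at this
  exact norm_le_zero_iff.1 this

variable (𝕜 Z)

/-- The renormed space `Z ⊕ ℓ₁(S_Z)`. -/
abbrev XA : Type := Renorm (pA 𝕜 Z) pA_zero

instance [CompleteSpace Z] : CompleteSpace (XA 𝕜 Z) :=
  Renorm.completeSpace (pA 𝕜 Z) pA_zero pA_le' norm_le_pA

/-- The points `(u, s e_u)`, `s = ±1`. -/
noncomputable def pt (u : Sph Z) (s : Bool) : XA 𝕜 Z :=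
  (Renorm.equiv (pA 𝕜 Z) pA_zero).symm (u.1, if s then ee 𝕜 Z u else - ee 𝕜 Z u)

variable {𝕜 Z}

theorem norm_pt_le (u : Sph Z) (s : Bool) : ‖pt 𝕜 Z u s‖ ≤ 1 := by
  unfold pt
  rw [Renorm.norm_symm]
  apply pA_le_of
  intro F
  have := F.2 u
  cases s
  · simpa using this.2
  · simpa using this.1

/-- The operator norm on the new space is the supremum over the points `(u, ± e_u)`. -/
theorem opNorm_le_of_pt {Y : Type*} [NormedAddCommGroup Y] [NormedSpace 𝕜 Y]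
    (T : XA 𝕜 Z →L[𝕜] Y) {c : ℝ} (hc : 0 < c) (h : ∀ u s, ‖T (pt 𝕜 Z u s)‖ ≤ c) : ‖T‖ ≤ c := by
  apply T.opNorm_le_bound hc.le
  intro w
  by_cases hw : T w = 0
  · rw [hw, norm_zero]; positivity
  obtain ⟨g, hg1, hg2⟩ := exists_dual_vector 𝕜 (T w) (norm_ne_zero_iff.2 hw)
  set F0 : EE 𝕜 Z →L[𝕜] 𝕜 := (c : 𝕜)⁻¹ • ((g.comp T).comp (Renorm.toNew (pA 𝕜 Z) pA_zero pA_le'))
    with hF0
  have hF0' : ∀ v : EE 𝕜 Z, F0 v = (c : 𝕜)⁻¹ * g (T ((Renorm.equiv (pA 𝕜 Z) pA_zero).symm v)) := by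
    intro v; rfl
  have hcn : ‖(c : 𝕜)⁻¹‖ = c⁻¹ := by rw [norm_inv, RCLike.norm_ofReal, abs_of_pos hc]
  have key : ∀ u s, ‖F0 (Renorm.equiv (pA 𝕜 Z) pA_zero (pt 𝕜 Z u s))‖ ≤ 1 := by
    intro u s
    rw [hF0', LinearEquiv.symm_apply_apply, norm_mul, hcn]
    have h1 := g.le_opNorm (T (pt 𝕜 Z u s))
    rw [hg1, one_mul] at h1
    have h2 := h1.trans (h u s)
    rw [inv_mul_le_iff₀ hc, mul_one]
    exact h2
  set F : KK 𝕜 Z := ⟨F0, fun u => ⟨by simpa [pt] using key u true, by simpa [pt] using key u false⟩⟩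
  have h3 := KK_le_pA F (Renorm.equiv (pA 𝕜 Z) pA_zero w)
  have h4 : F.1 (Renorm.equiv (pA 𝕜 Z) pA_zero w) = (c : 𝕜)⁻¹ * (‖T w‖ : 𝕜) := by
    change F0 _ = _
    rw [hF0', LinearEquiv.symm_apply_apply, hg2]
  rw [h4, norm_mul, hcn, RCLike.norm_ofReal, abs_norm, inv_mul_le_iff₀ hc] at h3
  exact h3


/-- The functionals of property alpha. -/
theorem exists_alpha (u : Sph Z) (s : Bool) : ∃ f : XA 𝕜 Z →L[𝕜] 𝕜, ‖f‖ ≤ 1 ∧
    f (pt 𝕜 Z u s) = 1 ∧ ∀ v t, (v, t) ≠ (u, s) → ‖f (pt 𝕜 Z v t)‖ ≤ 1 / 2 := by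
  classical
  obtain ⟨g, hg1, hg2⟩ := exists_dual_vector 𝕜 u.1 (by rw [u.2]; norm_num)
  rw [u.2] at hg2
  -- the coordinate functional
  set ev : L1 𝕜 Z →L[𝕜] 𝕜 := LinearMap.mkContinuous
    { toFun := fun z => z u, map_add' := fun _ _ => rfl, map_smul' := fun _ _ => rfl } 1
    (fun z => by rw [one_mul]; exact lp.norm_apply_le_norm (by norm_num) z u) with hev
  have hev' : ∀ z : L1 𝕜 Z, ev z = z u := fun z => rfl
  have hee : ∀ v : Sph Z, ev (ee 𝕜 Z v) = if v = u then 1 else 0 := by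
    intro v
    rw [hev', ee, lp.single_apply]
    by_cases hvu : v = u
    · subst hvu; simp
    · rw [if_neg hvu, Pi.single_eq_of_ne (Ne.symm hvu)]
  set σ : 𝕜 := if s then 1 else -1 with hσ
  have hσn : ‖σ‖ = 1 := by rw [hσ]; split_ifs <;> simp
  set F0 : EE 𝕜 Z →L[𝕜] 𝕜 := (1 / 2 : 𝕜) • (g.comp (ContinuousLinearMap.fst 𝕜 Z (L1 𝕜 Z))) +
    (σ / 2) • (ev.comp (ContinuousLinearMap.snd 𝕜 Z (L1 𝕜 Z))) with hF0
  have hF0' : ∀ w : EE 𝕜 Z, F0 w = (1 / 2 : 𝕜) * g w.1 + (σ / 2) * ev w.2 := fun w => rfl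
  have gle : ∀ v : Sph Z, ‖g v.1‖ ≤ 1 := by
    intro v
    have := g.le_opNorm v.1
    rwa [hg1, v.2, one_mul] at this
  have evle : ∀ v : Sph Z, ‖ev (ee 𝕜 Z v)‖ ≤ 1 := by
    intro v
    rw [hee]; split_ifs <;> simp
  have h12 : ‖(1 / 2 : 𝕜)‖ = 1 / 2 := by simp
  have hs2 : ‖(σ / 2 : 𝕜)‖ = 1 / 2 := by rw [norm_div, hσn]; simp
  have hbd : ∀ v : Sph Z, ‖F0 (v.1, ee 𝕜 Z v)‖ ≤ 1 ∧ ‖F0 (v.1, - ee 𝕜 Z v)‖ ≤ 1 := by
    intro v
    constructor
    · rw [hF0']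
      refine (norm_add_le _ _).trans ?_
      rw [norm_mul, norm_mul, h12, hs2]
      have := gle v
      have := evle v
      dsimp only
      linarith
    · rw [hF0']
      refine (norm_add_le _ _).trans ?_
      rw [norm_mul, norm_mul, h12, hs2]
      have := gle v
      have := evle v
      dsimp only
      rw [map_neg, norm_neg]
      linarith
  set F : KK 𝕜 Z := ⟨F0, hbd⟩ with hF
  refine ⟨LinearMap.mkContinuous (F0.toLinearMap.comp (Renorm.equiv (pA 𝕜 Z) pA_zero).toLinearMap)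
    1 ?_, ?_, ?_, ?_⟩
  · intro w
    rw [one_mul]
    exact KK_le_pA F (Renorm.equiv (pA 𝕜 Z) pA_zero w)
  · exact LinearMap.mkContinuous_norm_le _ zero_le_one _
  · change F0 (u.1, if s then ee 𝕜 Z u else - ee 𝕜 Z u) = 1
    rw [hF0']
    dsimp only
    rw [hg2]
    cases s
    · simp only [hσ, Bool.false_eq_true, if_false, map_neg, hee, if_true]
      push_cast; ring
    · simp only [hσ, if_true, hee]
      push_cast; ring
  · intro v t hvt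
    change ‖F0 (v.1, if t then ee 𝕜 Z v else - ee 𝕜 Z v)‖ ≤ 1 / 2
    rw [hF0']
    dsimp only
    by_cases hvu : v = u
    · subst hvu
      have hts : t ≠ s := fun h => hvt (by rw [h])
      have : (1 / 2 : 𝕜) * g v.1 + σ / 2 * ev (if t then ee 𝕜 Z v else - ee 𝕜 Z v) = 0 := by
        rw [hg2]
        cases s <;> cases t
        · exact absurd rfl hts
        · simp only [hσ, Bool.false_eq_true, if_false, if_true, hee]
          push_cast; ring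
        · simp only [hσ, Bool.false_eq_true, if_false, if_true, map_neg, hee]
          push_cast; ring
        · exact absurd rfl hts
      rw [this]; simp
    · have h0 : ev (if t then ee 𝕜 Z v else - ee 𝕜 Z v) = 0 := by
        split_ifs
        · rw [hee, if_neg hvu]
        · rw [map_neg, hee, if_neg hvu, neg_zero]
      rw [h0, mul_zero, add_zero, norm_mul, h12]
      have := gle v
      linarith

variable (𝕜 Z) in
include 𝕜 in
theorem exists_sph [Nontrivial Z] : Nonempty (Sph Z) := by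
  obtain ⟨x, hx⟩ := exists_ne (0 : Z)
  have hx' : ‖x‖ ≠ 0 := norm_ne_zero_iff.2 hx
  exact ⟨⟨((‖x‖ : 𝕜)⁻¹) • x, by
    rw [norm_smul, norm_inv, RCLike.norm_ofReal, abs_norm, inv_mul_cancel₀ hx']⟩⟩

theorem norm_pt (u : Sph Z) (s : Bool) : ‖pt 𝕜 Z u s‖ = 1 := by
  apply le_antisymm (norm_pt_le u s)
  obtain ⟨f, hf1, hf2, -⟩ := exists_alpha (𝕜 := 𝕜) u s
  have := f.le_opNorm (pt 𝕜 Z u s)
  rw [hf2, norm_one] at this
  have h0 := norm_nonneg (pt 𝕜 Z u s)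
  nlinarith

/-- The space `Z ⊕ ℓ₁(S_Z)` has Lindenstrauss' property A. -/
theorem XA_dense [Nontrivial Z] (Y : Type*) [NormedAddCommGroup Y] [NormedSpace 𝕜 Y] :
    NADense 𝕜 (XA 𝕜 Z) Y := by
  intro T
  rw [Metric.mem_closure_iff]
  intro ε hε
  obtain ⟨u0⟩ := exists_sph 𝕜 Z
  by_cases hT : T = 0
  · refine ⟨T, ⟨pt 𝕜 Z u0 true, norm_pt _ _, ?_⟩, by rwa [dist_self]⟩
    rw [hT]; simp
  have hs : 0 < ‖T‖ := norm_pos_iff.2 hT
  -- relative size of the perturbation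
  set κ : ℝ := ε / (2 * ‖T‖) with hκ
  have hκ0 : 0 < κ := by positivity
  -- choose a point where T almost attains its norm
  obtain ⟨u, s, hus⟩ : ∃ u s, ‖T‖ * (1 + κ / 2) / (1 + κ) < ‖T (pt 𝕜 Z u s)‖ := by
    by_contra hcon
    push Not at hcon
    have h1 := opNorm_le_of_pt T (c := ‖T‖ * (1 + κ / 2) / (1 + κ)) (by positivity) hcon
    rw [le_div_iff₀ (by positivity)] at h1
    nlinarith
  obtain ⟨f, hf1, hf2, hf3⟩ := exists_alpha (𝕜 := 𝕜) u s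
  set y := T (pt 𝕜 Z u s) with hy
  have hyT : ‖y‖ ≤ ‖T‖ := by
    have := T.le_opNorm (pt 𝕜 Z u s)
    rwa [norm_pt, mul_one] at this
  set S : XA 𝕜 Z →L[𝕜] Y := T + (κ : 𝕜) • f.smulRight y with hS
  have hS' : ∀ w, S w = T w + (κ : 𝕜) • (f w • y) := fun w => rfl
  have hSp : S (pt 𝕜 Z u s) = ((1 + κ : ℝ) : 𝕜) • y := by
    rw [hS', hf2, one_smul, ← hy]
    push_cast
    rw [add_smul, one_smul]
  have hSpn : ‖S (pt 𝕜 Z u s)‖ = (1 + κ) * ‖y‖ := by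
    rw [hSp, norm_smul, RCLike.norm_ofReal, abs_of_pos (by positivity)]
  have hbig : ‖T‖ * (1 + κ / 2) < (1 + κ) * ‖y‖ := by
    rw [div_lt_iff₀ (by positivity)] at hus
    linarith
  have hall : ∀ v t, ‖S (pt 𝕜 Z v t)‖ ≤ ‖S (pt 𝕜 Z u s)‖ := by
    intro v t
    by_cases hvt : (v, t) = (u, s)
    · rw [Prod.mk.injEq] at hvt
      rw [hvt.1, hvt.2]
    · rw [hSpn, hS']
      refine (norm_add_le _ _).trans ?_
      rw [norm_smul, norm_smul, RCLike.norm_ofReal, abs_of_pos hκ0]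
      have h1 := hf3 v t hvt
      have h2 := T.le_opNorm (pt 𝕜 Z v t)
      rw [norm_pt, mul_one] at h2
      have h3 : ‖f (pt 𝕜 Z v t)‖ * ‖y‖ ≤ 1 / 2 * ‖T‖ :=
        mul_le_mul h1 hyT (norm_nonneg _) (by norm_num)
      have h4 : κ * (‖f (pt 𝕜 Z v t)‖ * ‖y‖) ≤ κ * (1 / 2 * ‖T‖) :=
        mul_le_mul_of_nonneg_left h3 hκ0.le
      nlinarith
  have hSpos : 0 < ‖S (pt 𝕜 Z u s)‖ := by
    rw [hSpn]
    have : 0 < ‖T‖ * (1 + κ / 2) := by positivity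
    linarith
  have hSle : ‖S‖ ≤ ‖S (pt 𝕜 Z u s)‖ := opNorm_le_of_pt S hSpos hall
  refine ⟨S, ⟨pt 𝕜 Z u s, norm_pt _ _, ?_⟩, ?_⟩
  · apply le_antisymm _ hSle
    have := S.le_opNorm (pt 𝕜 Z u s)
    rwa [norm_pt, mul_one] at this
  · rw [dist_eq_norm]
    have h1 : T - S = -((κ : 𝕜) • f.smulRight y) := by rw [hS]; abel
    rw [h1, norm_neg, norm_smul, RCLike.norm_ofReal, abs_of_pos hκ0,
      ContinuousLinearMap.norm_smulRight_apply]
    have h2 : ‖f‖ * ‖y‖ ≤ 1 * ‖T‖ := mul_le_mul hf1 hyT (norm_nonneg _) (by norm_num)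
    have h3 : κ * (‖f‖ * ‖y‖) ≤ κ * (1 * ‖T‖) := mul_le_mul_of_nonneg_left h2 hκ0.le
    have h4 : κ * (1 * ‖T‖) = ε / 2 := by rw [hκ]; field_simp
    linarith


variable (𝕜 Z)

/-- The projection of `Z ⊕ ℓ₁(S_Z)` onto `Z`. -/
noncomputable def prA : XA 𝕜 Z →L[𝕜] XA 𝕜 Z :=
  LinearMap.mkContinuous ((Renorm.equiv (pA 𝕜 Z) pA_zero).symm.toLinearMap.comp
    ((LinearMap.inl 𝕜 Z (L1 𝕜 Z)).comp ((LinearMap.fst 𝕜 Z (L1 𝕜 Z)).comp
      (Renorm.equiv (pA 𝕜 Z) pA_zero).toLinearMap))) 1 (by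
    intro w
    rw [one_mul]
    change pA 𝕜 Z ((Renorm.equiv (pA 𝕜 Z) pA_zero w).1, 0) ≤ pA 𝕜 Z (Renorm.equiv (pA 𝕜 Z) pA_zero w)
    refine le_trans (pA_le _) ?_
    simpa using fst_le_pA (Renorm.equiv (pA 𝕜 Z) pA_zero w))

/-- The copy of `Z` inside `Z ⊕ ℓ₁(S_Z)`. -/
noncomputable def XA1 : Submodule 𝕜 (XA 𝕜 Z) :=
  LinearMap.ker ((LinearMap.snd 𝕜 Z (L1 𝕜 Z)).comp (Renorm.equiv (pA 𝕜 Z) pA_zero).toLinearMap)

variable {𝕜 Z}

theorem mem_XA1 (w : XA 𝕜 Z) : w ∈ XA1 𝕜 Z ↔ (Renorm.equiv (pA 𝕜 Z) pA_zero w).2 = 0 := Iff.rfl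

theorem prA_apply (w : XA 𝕜 Z) : Renorm.equiv (pA 𝕜 Z) pA_zero (prA 𝕜 Z w) =
    ((Renorm.equiv (pA 𝕜 Z) pA_zero w).1, 0) := rfl

theorem XA1_oneComplemented : OneComplemented (XA1 𝕜 Z) := by
  constructor
  · have : (XA1 𝕜 Z : Set (XA 𝕜 Z)) = (fun w => (Renorm.toOld (pA 𝕜 Z) pA_zero norm_le_pA w).2) ⁻¹' {0} := by
      ext w; rfl
    rw [this]
    exact isClosed_singleton.preimage (continuous_snd.comp (ContinuousLinearMap.continuous _))
  · refine ⟨prA 𝕜 Z, fun x => rfl, fun x => ?_, LinearMap.mkContinuous_norm_le _ zero_le_one _⟩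
    constructor
    · intro hx
      refine ⟨x, ?_⟩
      apply (Renorm.equiv (pA 𝕜 Z) pA_zero).injective
      rw [prA_apply]
      rw [mem_XA1] at hx
      rw [← hx]
    · rintro ⟨y, rfl⟩
      rw [mem_XA1, prA_apply]


/-- `Z` is isometric to the subspace `XA1`. -/
noncomputable def inA : Z ≃ₗᵢ[𝕜] XA1 𝕜 Z where
  toFun x := ⟨(Renorm.equiv (pA 𝕜 Z) pA_zero).symm (x, 0), by rw [mem_XA1]; rfl⟩
  map_add' x y := by
    apply Subtype.ext
    apply (Renorm.equiv (pA 𝕜 Z) pA_zero).injective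
    change ((x + y, 0) : EE 𝕜 Z) = (x, 0) + (y, 0)
    simp
  map_smul' c x := by
    apply Subtype.ext
    apply (Renorm.equiv (pA 𝕜 Z) pA_zero).injective
    change ((c • x, 0) : EE 𝕜 Z) = c • (x, 0)
    simp
  invFun w := (Renorm.equiv (pA 𝕜 Z) pA_zero w.1).1
  left_inv x := rfl
  right_inv w := by
    apply Subtype.ext
    apply (Renorm.equiv (pA 𝕜 Z) pA_zero).injective
    have h := (mem_XA1 w.1).1 w.2
    change ((Renorm.equiv (pA 𝕜 Z) pA_zero w.1).1, (0 : L1 𝕜 Z)) = _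
    rw [← h]
  norm_map' x := by
    change pA 𝕜 Z (x, 0) = ‖x‖
    apply le_antisymm
    · refine (pA_le _).trans ?_
      simp
    · exact fst_le_pA ((x, 0) : EE 𝕜 Z)

end PropA

theorem NADense.exists_near {𝕜 : Type*} [RCLike 𝕜] {X Y : Type*} [NormedAddCommGroup X]
    [NormedSpace 𝕜 X] [NormedAddCommGroup Y] [NormedSpace 𝕜 Y] (h : NADense 𝕜 X Y)
    (T : X →L[𝕜] Y) (ε : ℝ) (hε : 0 < ε) : ∃ S : X →L[𝕜] Y, AttainsNorm S ∧ ‖T - S‖ < ε := by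
  obtain ⟨S, hS1, hS2⟩ := Metric.mem_closure_iff.1 (h T) ε hε
  exact ⟨S, hS1, by rwa [← dist_eq_norm]⟩

section C0

variable (𝕜 : Type) [RCLike 𝕜]

instance : Nontrivial C₀(ℕ, 𝕜) := ⟨dl 𝕜 0, 0, fun h => by
  have := norm_dl 𝕜 0
  rw [h] at this; simp at this⟩

theorem c0_small (x : C₀(ℕ, 𝕜)) : ∃ n, ‖x n‖ < 1 / 2 := by
  have h := x.zero_at_infty'
  rw [Filter.cocompact_eq_cofinite, Nat.cofinite_eq_atTop] at h
  have h2 := (Metric.tendsto_atTop.1 h) (1 / 2) (by norm_num)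
  obtain ⟨N, hN⟩ := h2
  refine ⟨N, ?_⟩
  have := hN N le_rfl
  rwa [dist_zero_right] at this


/-- If `W` is isometric to `c₀`, then the norm attaining operators from `W` to the strictly
convex renorming `Y0` of `c₀` are not dense. -/
theorem not_dense_of_iso (W : Type) [NormedAddCommGroup W] [NormedSpace 𝕜 W]
    (i : C₀(ℕ, 𝕜) ≃ₗᵢ[𝕜] W) : ¬ NADense 𝕜 W (Y0 𝕜) := by
  intro hd
  set T0 : W →L[𝕜] Y0 𝕜 := (Renorm.toNew (pY 𝕜) (pY_zero 𝕜) (pY_le 𝕜)).comp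
    (i.symm.toContinuousLinearEquiv : W →L[𝕜] C₀(ℕ, 𝕜)) with hT0def
  have T0_i : ∀ x : C₀(ℕ, 𝕜), ‖T0 (i x)‖ = pY 𝕜 x := by
    intro x
    have : i.symm (i x) = x := i.symm_apply_apply x
    change pY 𝕜 (i.symm (i x)) = _
    rw [this]
  obtain ⟨T, ⟨w, hw1, hw2⟩, hT⟩ := hd.exists_near T0 1 one_pos
  obtain ⟨x, rfl⟩ := i.surjective w
  rw [i.norm_map] at hw1
  obtain ⟨n, hn⟩ := c0_small 𝕜 x
  set e : C₀(ℕ, 𝕜) := (1 / 2 : 𝕜) • dl 𝕜 n with he
  have hen : ∀ m, ‖e m‖ ≤ if m = n then 1 / 2 else 0 := by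
    intro m
    rw [he, ZeroAtInftyContinuousMap.smul_apply, dl_apply]
    split_ifs <;> simp
  have hp : ‖x + e‖ ≤ 1 := by
    apply c0_norm_le 𝕜 zero_le_one
    intro m
    rw [ZeroAtInftyContinuousMap.add_apply]
    refine (norm_add_le _ _).trans ?_
    have h2 := hen m
    by_cases hmn : m = n
    · subst hmn; rw [if_pos rfl] at h2; linarith
    · rw [if_neg hmn] at h2
      have := c0_norm_apply_le 𝕜 x m
      linarith
  have hm : ‖x - e‖ ≤ 1 := by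
    apply c0_norm_le 𝕜 zero_le_one
    intro m
    rw [ZeroAtInftyContinuousMap.sub_apply]
    refine (norm_sub_le _ _).trans ?_
    have h2 := hen m
    by_cases hmn : m = n
    · subst hmn; rw [if_pos rfl] at h2; linarith
    · rw [if_neg hmn] at h2
      have := c0_norm_apply_le 𝕜 x m
      linarith
  -- the distance between `T` and `T0` is less than one, so `T e ≠ 0`
  have hTe : T (i e) ≠ 0 := by
    intro h0
    have h2 := (T0 - T).le_opNorm (i e)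
    have h2' : (T0 - T) (i e) = T0 (i e) - T (i e) := rfl
    rw [h2', h0, sub_zero, T0_i, i.norm_map] at h2
    have h3 := le_pY 𝕜 e
    have h4 : ‖e‖ = 1 / 2 := by rw [he, norm_smul, norm_dl]; simp
    rw [h4] at h2 h3
    nlinarith
  have hT0 : 0 < ‖T‖ := by
    apply norm_pos_iff.2
    rintro rfl
    simp at hTe
  -- strict convexity
  set c : 𝕜 := ((‖T‖ : 𝕜))⁻¹ with hc
  have hcn : ‖c‖ = ‖T‖⁻¹ := by rw [hc, norm_inv, RCLike.norm_ofReal, abs_norm]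
  have hab : c • T (i (x + e)) = c • T (i (x - e)) := by
    apply Y0_strict
    · rw [norm_smul, hcn, inv_mul_le_iff₀ hT0, mul_one]
      have := T.le_opNorm (i (x + e))
      rw [i.norm_map] at this
      nlinarith
    · rw [norm_smul, hcn, inv_mul_le_iff₀ hT0, mul_one]
      have := T.le_opNorm (i (x - e))
      rw [i.norm_map] at this
      nlinarith
    · rw [← smul_add, ← map_add, norm_smul, hcn, ← map_add]
      have h5 : x + e + (x - e) = x + x := by abel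
      rw [h5, map_add, map_add, ← two_smul 𝕜, norm_smul, hw2]
      have : ‖(2 : 𝕜)‖ = 2 := by simp
      rw [this]
      field_simp
      exact le_rfl
  have hc0 : c ≠ 0 := by
    rw [← norm_ne_zero_iff, hcn]; positivity
  have h6 := smul_right_injective _ hc0 hab
  rw [map_add, map_sub, map_add, map_sub] at h6
  have h7 : (2 : 𝕜) • T (i e) = 0 := by
    rw [two_smul]
    have h8 : T (i x) + T (i e) - (T (i x) - T (i e)) = 0 := by rw [h6]; abel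
    rw [← h8]; abel
  exact hTe ((smul_eq_zero.1 h7).resolve_left (by norm_num))

end C0

end Pool.Agent.Helper25.NA
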