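import Mathlib

/-!
Definitions for MP_643687_an: distributional solutions of the polyharmonic Hardy-Henon equation.
-/

set_option autoImplicit false
open MeasureTheory InnerProductSpace Filter Laplacian
open scoped ContDiff Topology

namespace Pool.Agent.Helper25.PH

/-- Euclidean space. -/
abbrev En (n : ℕ) : Type := EuclideanSpace ℝ (Fin n)

/-- `u` is a distributional solution of `(-Δ)^m u = |x|^σ u^p` in `ℝⁿ`: it is nonnegative and not
identically zero (almost everywhere), `u` and `|x|^σ u^p` are locally integrable, and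
`∫ u (-Δ)^m φ = ∫ |x|^σ u^p φ` for all smooth compactly supported `φ`. Here `Δ` is Mathlib's
Laplacian and `(-Δ)^m` is the `m`-th iterate of `f ↦ -Δ f`. -/
structure IsDistSol (n m : ℕ) (p σ : ℝ) (u : En n → ℝ) : Prop where
  nonneg : ∀ᵐ x, 0 ≤ u x
  ne_zero : ¬ (∀ᵐ x, u x = 0)
  locInt : LocallyIntegrable u
  locInt_rhs : LocallyIntegrable (fun x => ‖x‖ ^ σ * u x ^ p)
  eqn : ∀ φ : En n → ℝ, ContDiff ℝ ∞ φ → HasCompactSupport φ →
    ∫ x, u x * ((fun f : En n → ℝ => -(Δ f))^[m] φ) x = ∫ x, ‖x‖ ^ σ * u x ^ p * φ x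

end Pool.Agent.Helper25.PH
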