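import Pool.Agent.Helper25.PHDefs

/-!
For MP_643687_an: the proofs. Nonexistence by the test functions `|x|^b ξ(log|x|/R)`, existence by
the homogeneous functions `C|x|^(-θ)`.
-/

set_option autoImplicit false
open MeasureTheory InnerProductSpace Filter Laplacian
open scoped ContDiff Topology

namespace Pool.Agent.Helper25.PH

theorem laplacian_radial {n : ℕ} {F F' : ℝ → ℝ} {F2 : ℝ} {x : En n}
    (h1 : ∀ᶠ s in 𝓝 (‖x‖ ^ 2), HasDerivAt F (F' s) s)
    (h2 : HasDerivAt F' F2 (‖x‖ ^ 2)) :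
    Δ (fun y : En n => F (‖y‖ ^ 2)) x = 4 * ‖x‖ ^ 2 * F2 + 2 * n * F' (‖x‖ ^ 2) := by
  have hsq : ∀ y : En n, HasFDerivAt (fun y : En n => ‖y‖ ^ 2) (2 • (innerSL ℝ y)) y := fun y =>
    (hasStrictFDerivAt_norm_sq y).hasFDerivAt
  have hcont : Tendsto (fun y : En n => ‖y‖ ^ 2) (𝓝 x) (𝓝 (‖x‖ ^ 2)) :=
    (hsq x).continuousAt
  have e1 : fderiv ℝ (fun y : En n => F (‖y‖ ^ 2)) =ᶠ[𝓝 x]
      fun y => (F' (‖y‖ ^ 2)) • (2 • (innerSL ℝ y)) := by
    filter_upwards [hcont.eventually h1] with y hy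
    exact (hy.comp_hasFDerivAt y (hsq y)).fderiv
  have h3 : HasFDerivAt (fun y : En n => F' (‖y‖ ^ 2)) (F2 • (2 • (innerSL ℝ x))) x :=
    h2.comp_hasFDerivAt x (hsq x)
  have h4 : HasFDerivAt (fun y : En n => (2 : ℕ) • (innerSL ℝ y)) ((2 : ℕ) • (innerSL ℝ (E := En n))) x :=
    ((innerSL ℝ (E := En n)).hasFDerivAt (x := x)).const_smul (2 : ℕ)
  have h5 := h3.smul h4
  have e2 : fderiv ℝ (fderiv ℝ (fun y : En n => F (‖y‖ ^ 2))) x = _ := e1.fderiv_eq.trans h5.fderiv
  have h6 : ∀ i, inner ℝ ((EuclideanSpace.basisFun (Fin n) ℝ) i) ((EuclideanSpace.basisFun (Fin n) ℝ) i) = (1 : ℝ) := by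
    intro i
    rw [real_inner_self_eq_norm_sq, (EuclideanSpace.basisFun (Fin n) ℝ).norm_eq_one]; norm_num
  have h7 : ∀ i, inner ℝ x ((EuclideanSpace.basisFun (Fin n) ℝ) i) = x i := by
    intro i
    rw [EuclideanSpace.basisFun_apply, EuclideanSpace.inner_single_right]
    simp
  have h8 : ‖x‖ ^ 2 = ∑ i, x i ^ 2 := by
    rw [EuclideanSpace.norm_sq_eq]
    simp
  rw [laplacian_eq_iteratedFDeriv_orthonormalBasis _ (EuclideanSpace.basisFun (Fin n) ℝ)]
  have h9 : ∀ i, iteratedFDeriv ℝ 2 (fun y : En n => F (‖y‖ ^ 2)) x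
      ![(EuclideanSpace.basisFun (Fin n) ℝ) i, (EuclideanSpace.basisFun (Fin n) ℝ) i] =
      2 * F' (‖x‖ ^ 2) + 4 * F2 * x i ^ 2 := by
    intro i
    rw [iteratedFDeriv_two_apply, Matrix.cons_val_zero, Matrix.cons_val_one, e2]
    change F' (‖x‖ ^ 2) * ((2 : ℕ) • inner ℝ ((EuclideanSpace.basisFun (Fin n) ℝ) i)
      ((EuclideanSpace.basisFun (Fin n) ℝ) i)) +
      (F2 * ((2 : ℕ) • inner ℝ x ((EuclideanSpace.basisFun (Fin n) ℝ) i))) *
      ((2 : ℕ) • inner ℝ x ((EuclideanSpace.basisFun (Fin n) ℝ) i)) = _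
    rw [h6, h7, nsmul_eq_mul, nsmul_eq_mul]
    push_cast
    ring
  simp only [h9]
  rw [Finset.sum_add_distrib, Finset.sum_const, Finset.card_univ,
    Fintype.card_fin, nsmul_eq_mul, ← Finset.mul_sum, ← h8]
  ring

/-- First derivative of `s ↦ s^(c/2) H((log s)/2)`. -/
theorem hasDerivAt_profile {H : ℝ → ℝ} (c : ℝ) {s : ℝ} (hs : 0 < s)
    (hH : DifferentiableAt ℝ H (Real.log s / 2)) :
    HasDerivAt (fun s : ℝ => s ^ (c / 2) * H (Real.log s / 2))
      (1 / 2 * (s ^ ((c - 2) / 2) * (deriv H (Real.log s / 2) + c * H (Real.log s / 2)))) s := by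
  have h1 : HasDerivAt (fun s : ℝ => s ^ (c / 2)) (c / 2 * s ^ (c / 2 - 1)) s :=
    Real.hasDerivAt_rpow_const (Or.inl hs.ne')
  have h2 : HasDerivAt (fun s : ℝ => Real.log s / 2) (s⁻¹ / 2) s :=
    (Real.hasDerivAt_log hs.ne').div_const 2
  have h3 := hH.hasDerivAt.comp s h2
  have h4 := h1.mul h3
  refine h4.congr_deriv ?_
  have e1 : s ^ (c / 2) = s ^ (c / 2 - 1) * s := by
    rw [← Real.rpow_add_one hs.ne']; congr 1; ring
  have e2 : (c - 2) / 2 = c / 2 - 1 := by ring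
  rw [e2]
  change c / 2 * s ^ (c / 2 - 1) * H (Real.log s / 2) +
    s ^ (c / 2) * (deriv H (Real.log s / 2) * (s⁻¹ / 2)) = _
  rw [e1]
  field_simp
  ring

/-- Laplacian of `‖x‖^b G(log ‖x‖)` away from the origin. -/
theorem laplacian_profile {n : ℕ} {G : ℝ → ℝ} (hG : ContDiff ℝ ∞ G) (b : ℝ) {x : En n}
    (hx : x ≠ 0) :
    Δ (fun y : En n => ‖y‖ ^ b * G (Real.log ‖y‖)) x =
      ‖x‖ ^ (b - 2) * (deriv (deriv G) (Real.log ‖x‖) + (2 * b + n - 2) * deriv G (Real.log ‖x‖)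
        + b * (b + n - 2) * G (Real.log ‖x‖)) := by
  have hx' : 0 < ‖x‖ := norm_pos_iff.2 hx
  have hGd : Differentiable ℝ G := hG.differentiable (by simp)
  have hG1 : ContDiff ℝ ∞ (deriv G) := (contDiff_infty_iff_deriv.1 hG).2
  have hG1d : Differentiable ℝ (deriv G) := hG1.differentiable (by simp)
  set H1 : ℝ → ℝ := fun t => deriv G t + b * G t with hH1
  have hH1d : ∀ t, HasDerivAt H1 (deriv (deriv G) t + b * deriv G t) t := fun t =>
    (hG1d t).hasDerivAt.add ((hGd t).hasDerivAt.const_mul b)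
  -- rewrite as a function of the squared norm
  have e0 : (fun y : En n => ‖y‖ ^ b * G (Real.log ‖y‖)) =ᶠ[𝓝 x]
      fun y => (fun s : ℝ => s ^ (b / 2) * G (Real.log s / 2)) (‖y‖ ^ 2) := by
    filter_upwards [isOpen_ne.mem_nhds hx] with y hy
    have hy' : 0 < ‖y‖ := norm_pos_iff.2 hy
    have a1 : (‖y‖ ^ 2) ^ (b / 2) = ‖y‖ ^ b := by
      rw [← Real.rpow_natCast, ← Real.rpow_mul hy'.le]; congr 1; push_cast; ring
    have a2 : Real.log (‖y‖ ^ 2) / 2 = Real.log ‖y‖ := by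
      rw [Real.log_pow]; push_cast; ring
    simp only [a1, a2]
  have h0 : Δ (fun y : En n => ‖y‖ ^ b * G (Real.log ‖y‖)) x =
      Δ (fun y : En n => (fun s : ℝ => s ^ (b / 2) * G (Real.log s / 2)) (‖y‖ ^ 2)) x :=
    (laplacian_congr_nhds e0).self_of_nhds
  rw [h0]
  have hs : 0 < ‖x‖ ^ 2 := by positivity
  have k1 : ∀ᶠ s in 𝓝 (‖x‖ ^ 2), HasDerivAt (fun s : ℝ => s ^ (b / 2) * G (Real.log s / 2))
      (1 / 2 * (s ^ ((b - 2) / 2) * H1 (Real.log s / 2))) s := by
    filter_upwards [isOpen_Ioi.mem_nhds hs] with s hs'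
    exact hasDerivAt_profile b hs' (hGd _)
  have k2 : HasDerivAt (fun s : ℝ => 1 / 2 * (s ^ ((b - 2) / 2) * H1 (Real.log s / 2)))
      (1 / 2 * (1 / 2 * ((‖x‖ ^ 2) ^ ((b - 2 - 2) / 2) * (deriv H1 (Real.log (‖x‖ ^ 2) / 2) +
        (b - 2) * H1 (Real.log (‖x‖ ^ 2) / 2))))) (‖x‖ ^ 2) :=
    (hasDerivAt_profile (b - 2) hs (hH1d _).differentiableAt).const_mul (1 / 2)
  rw [laplacian_radial k1 k2]
  have a2 : Real.log (‖x‖ ^ 2) / 2 = Real.log ‖x‖ := by
    rw [Real.log_pow]; push_cast; ring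
  have a1 : (‖x‖ ^ 2) ^ ((b - 2) / 2) = ‖x‖ ^ (b - 2) := by
    rw [← Real.rpow_natCast, ← Real.rpow_mul hx'.le]; congr 1; push_cast; ring
  have a3 : ‖x‖ ^ 2 * (‖x‖ ^ 2) ^ ((b - 2 - 2) / 2) = ‖x‖ ^ (b - 2) := by
    rw [← Real.rpow_natCast ‖x‖ 2, ← Real.rpow_mul hx'.le, ← Real.rpow_add hx']; congr 1
    push_cast; ring
  rw [a2, a1, (hH1d _).deriv]
  have a4 : 4 * ‖x‖ ^ 2 * (1 / 2 * (1 / 2 * ((‖x‖ ^ 2) ^ ((b - 2 - 2) / 2) *
      (deriv (deriv G) (Real.log ‖x‖) + b * deriv G (Real.log ‖x‖) + (b - 2) * H1 (Real.log ‖x‖)))))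
      = (‖x‖ ^ 2 * (‖x‖ ^ 2) ^ ((b - 2 - 2) / 2)) *
      (deriv (deriv G) (Real.log ‖x‖) + b * deriv G (Real.log ‖x‖) + (b - 2) * H1 (Real.log ‖x‖)) := by
    ring
  rw [a4, a3, hH1]
  ring

/-! ### The cut-off function -/

theorem iteratedDeriv_pow_bump (ζ : ℝ → ℝ) (hζ : ContDiff ℝ ∞ ζ) (q : ℕ) :
    ∀ i : ℕ, i ≤ q → ∃ g : ℝ → ℝ, ContDiff ℝ ∞ g ∧
      iteratedDeriv i (fun t => ζ t ^ q) = fun t => ζ t ^ (q - i) * g t := by
  intro i
  induction i with
  | zero =>
    intro _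
    refine ⟨fun _ => 1, contDiff_const, ?_⟩
    ext t; simp
  | succ i ih =>
    intro hi
    obtain ⟨g, hg, hgi⟩ := ih (by omega)
    have hζ1 : ContDiff ℝ ∞ (deriv ζ) := (contDiff_infty_iff_deriv.1 hζ).2
    have hg1 : ContDiff ℝ ∞ (deriv g) := (contDiff_infty_iff_deriv.1 hg).2
    refine ⟨fun t => ((q - i : ℕ) : ℝ) * deriv ζ t * g t + ζ t * deriv g t, ?_, ?_⟩
    · exact ((contDiff_const.mul hζ1).mul hg).add (hζ.mul hg1)
    · rw [iteratedDeriv_succ, hgi]
      ext t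
      have h1 : HasDerivAt ζ (deriv ζ t) t := (hζ.differentiable (by simp) t).hasDerivAt
      have h2 : HasDerivAt g (deriv g t) t := (hg.differentiable (by simp) t).hasDerivAt
      have h3 := (h1.pow (q - i)).mul h2
      have e : q - i - 1 = q - (i + 1) := by omega
      have h4 := h3.deriv
      have e2 : q - i = (q - (i + 1)) + 1 := by omega
      calc deriv (fun t => ζ t ^ (q - i) * g t) t
          = ((q - i : ℕ) : ℝ) * ζ t ^ (q - i - 1) * deriv ζ t * g t + ζ t ^ (q - i) * deriv g t := h4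
        _ = _ := by
          rw [e]
          have : ζ t ^ (q - i) = ζ t ^ (q - (i + 1)) * ζ t := by
            conv_lhs => rw [e2]
            rw [pow_succ]
          rw [this]; ring

theorem exists_cutoff (N : ℕ) {p : ℝ} (hp : 1 < p) : ∃ ξ : ℝ → ℝ, ContDiff ℝ ∞ ξ ∧
    (∀ t, 0 ≤ ξ t) ∧ (∀ t, ξ t ≤ 1) ∧ (∀ t, |t| ≤ 1 → ξ t = 1) ∧ (∀ t, 2 ≤ |t| → ξ t = 0) ∧
    ∃ K : ℝ, 0 ≤ K ∧ ∀ i ≤ N, ∀ t, |iteratedDeriv i ξ t| ≤ K * ξ t ^ (1 / p) := by
  set bump : ContDiffBump (0 : ℝ) := ⟨1, 2, one_pos, one_lt_two⟩ with hbump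
  set ζ : ℝ → ℝ := fun t => bump t with hζdef
  have hζ : ContDiff ℝ ∞ ζ := bump.contDiff
  have hζ0 : ∀ t, 0 ≤ ζ t := fun t => bump.nonneg
  have hζ1 : ∀ t, ζ t ≤ 1 := fun t => bump.le_one
  have hζone : ∀ t, |t| ≤ 1 → ζ t = 1 := fun t ht => by
    apply bump.one_of_mem_closedBall
    simpa [Real.dist_eq] using ht
  have hζzero : ∀ t, 2 ≤ |t| → ζ t = 0 := fun t ht => by
    apply bump.zero_of_le_dist
    simpa [Real.dist_eq] using ht
  -- the power
  obtain ⟨q, hq⟩ := exists_nat_gt (N * p / (p - 1) + N)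
  have hp1 : 0 < p - 1 := by linarith
  have hp0 : 0 < p := by linarith
  have hN0 : (0 : ℝ) ≤ N * p / (p - 1) := by positivity
  have hqN : N < q := by
    have : (N : ℝ) < q := by linarith
    exact_mod_cast this
  have hqp : ∀ i ≤ N, (q : ℝ) / p ≤ ((q - i : ℕ) : ℝ) := by
    intro i hi
    rw [Nat.cast_sub (by omega), div_le_iff₀ hp0]
    have h1 : (N : ℝ) * p / (p - 1) < q := by
      have : (0 : ℝ) ≤ N := by positivity
      linarith
    rw [div_lt_iff₀ hp1] at h1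
    have h2 : (i : ℝ) * p ≤ N * p := by
      have : (i : ℝ) ≤ N := by exact_mod_cast hi
      nlinarith
    nlinarith
  refine ⟨fun t => ζ t ^ q, hζ.pow q, fun t => by have := hζ0 t; positivity,
    fun t => pow_le_one₀ (hζ0 t) (hζ1 t),
    fun t ht => by change ζ t ^ q = 1; rw [hζone t ht, one_pow], fun t ht => by
      change ζ t ^ q = 0; rw [hζzero t ht, zero_pow (by omega)], ?_⟩
  -- bounds of the derivatives
  have key : ∀ i ≤ N, ∃ K : ℝ, 0 ≤ K ∧ ∀ t, |iteratedDeriv i (fun t => ζ t ^ q) t| ≤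
      K * (ζ t ^ q) ^ (1 / p) := by
    intro i hi
    obtain ⟨g, hg, hgi⟩ := iteratedDeriv_pow_bump ζ hζ q i (by omega)
    obtain ⟨K, hK⟩ := (isCompact_Icc (a := (-2 : ℝ)) (b := 2)).exists_bound_of_continuousOn
      (f := g) hg.continuous.continuousOn
    refine ⟨|K|, abs_nonneg K, fun t => ?_⟩
    rw [hgi]
    change |ζ t ^ (q - i) * g t| ≤ _
    have e1 : (ζ t ^ q) ^ (1 / p) = ζ t ^ ((q : ℝ) / p) := by
      rw [← Real.rpow_natCast, ← Real.rpow_mul (hζ0 t)]; congr 1; ring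
    rw [e1]
    by_cases ht : |t| ≤ 2
    · have h1 : ‖g t‖ ≤ K := hK t (abs_le.1 ht)
      rw [abs_mul, abs_of_nonneg (pow_nonneg (hζ0 t) _), mul_comm]
      apply mul_le_mul
      · exact (Real.norm_eq_abs (g t) ▸ h1).trans (le_abs_self K)
      · rw [← Real.rpow_natCast]
        exact Real.rpow_le_rpow_of_exponent_ge' (hζ0 t) (hζ1 t) (by positivity) (hqp i hi)
      · exact pow_nonneg (hζ0 t) _
      · exact abs_nonneg K
    · push Not at ht
      rw [hζzero t ht.le, zero_pow (by omega), zero_mul, abs_zero]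
      positivity
  choose! K hK0 hK using key
  refine ⟨∑ i ∈ Finset.range (N + 1), K i, Finset.sum_nonneg fun i hi => hK0 i (by
    have := Finset.mem_range.1 hi; omega), fun i hi t => (hK i hi t).trans ?_⟩
  have h1 : K i ≤ ∑ i ∈ Finset.range (N + 1), K i :=
    Finset.single_le_sum (f := K) (fun j hj => hK0 j (by have := Finset.mem_range.1 hj; omega))
      (Finset.mem_range.2 (by omega))
  have h2 : 0 ≤ (ζ t ^ q) ^ (1 / p) := Real.rpow_nonneg (pow_nonneg (hζ0 t) _) _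
  exact mul_le_mul_of_nonneg_right h1 h2

/-! ### Constant coefficient differential operators -/

/-- The differential operator `P(d/dt)`. -/
noncomputable def D (P : Polynomial ℝ) (G : ℝ → ℝ) (t : ℝ) : ℝ :=
  P.sum fun i a => a * iteratedDeriv i G t

theorem D_add (P Q : Polynomial ℝ) (G : ℝ → ℝ) (t : ℝ) : D (P + Q) G t = D P G t + D Q G t := by
  unfold D
  rw [Polynomial.sum_add_index]
  · intro i; ring
  · intro i a b; ring

theorem D_monomial (i : ℕ) (a : ℝ) (G : ℝ → ℝ) (t : ℝ) :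
    D (Polynomial.monomial i a) G t = a * iteratedDeriv i G t := by
  unfold D
  rw [Polynomial.sum_monomial_index]; ring

theorem D_C_mul (c : ℝ) (P : Polynomial ℝ) (G : ℝ → ℝ) (t : ℝ) :
    D (Polynomial.C c * P) G t = c * D P G t := by
  induction P using Polynomial.induction_on' with
  | add P Q hP hQ => rw [mul_add, D_add, D_add, hP, hQ]; ring
  | monomial i a =>
    rw [Polynomial.C_mul_monomial, D_monomial, D_monomial]; ring

theorem D_one (G : ℝ → ℝ) (t : ℝ) : D 1 G t = G t := by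
  have : (1 : Polynomial ℝ) = Polynomial.monomial 0 1 := by simp
  rw [this, D_monomial, iteratedDeriv_zero, one_mul]

theorem hasDerivAt_D (P : Polynomial ℝ) {G : ℝ → ℝ} (hG : ContDiff ℝ ∞ G) (t : ℝ) :
    HasDerivAt (D P G) (D (Polynomial.X * P) G t) t := by
  induction P using Polynomial.induction_on' with
  | add P Q hP hQ =>
    rw [mul_add, D_add]
    have := hP.add hQ
    refine this.congr_of_eventuallyEq (Filter.Eventually.of_forall fun s => ?_)
    exact D_add P Q G s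
  | monomial i a =>
    rw [Polynomial.X_mul_monomial, D_monomial]
    have h1 : HasDerivAt (iteratedDeriv i G) (iteratedDeriv (i + 1) G t) t := by
      rw [iteratedDeriv_succ]
      apply DifferentiableAt.hasDerivAt
      exact (hG.differentiable_iteratedDeriv i (by exact_mod_cast WithTop.coe_lt_top _)) t
    exact (h1.const_mul a).congr_of_eventuallyEq (Filter.Eventually.of_forall fun s =>
      D_monomial i a G s)


/-! ### Radial functions -/

/-- The radial function `‖x‖^b G(log ‖x‖)`, set to zero at the origin. -/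
noncomputable def RF {n : ℕ} (b : ℝ) (G : ℝ → ℝ) (x : En n) : ℝ :=
  if x = 0 then 0 else ‖x‖ ^ b * G (Real.log ‖x‖)

theorem RF_of_ne {n : ℕ} (b : ℝ) (G : ℝ → ℝ) {x : En n} (hx : x ≠ 0) :
    RF b G x = ‖x‖ ^ b * G (Real.log ‖x‖) := if_neg hx

theorem RF_zero {n : ℕ} (b : ℝ) (G : ℝ → ℝ) : RF b G (0 : En n) = 0 := if_pos rfl

theorem RF_eventually_ne {n : ℕ} (b : ℝ) (G : ℝ → ℝ) {x : En n} (hx : x ≠ 0) :
    RF b G =ᶠ[𝓝 x] fun y => ‖y‖ ^ b * G (Real.log ‖y‖) := by
  filter_upwards [isOpen_ne.mem_nhds hx] with y hy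
  exact RF_of_ne b G hy

theorem RF_eventually_zero {n : ℕ} (b : ℝ) {G : ℝ → ℝ} {M : ℝ} (hG : ∀ t, M < |t| → G t = 0) :
    RF b G =ᶠ[𝓝 (0 : En n)] fun _ => 0 := by
  have : Metric.ball (0 : En n) (Real.exp (-|M|)) ∈ 𝓝 (0 : En n) :=
    Metric.ball_mem_nhds _ (Real.exp_pos _)
  filter_upwards [this] with y hy
  by_cases hy0 : y = 0
  · rw [hy0, RF_zero]
  · rw [RF_of_ne b G hy0]
    have hy' : 0 < ‖y‖ := norm_pos_iff.2 hy0
    rw [mem_ball_zero_iff] at hy
    have h1 : Real.log ‖y‖ < -|M| := by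
      rw [Real.log_lt_iff_lt_exp hy']; exact hy
    have h2 : M < |Real.log ‖y‖| := by
      have := neg_le_abs (Real.log ‖y‖)
      have := le_abs_self M
      linarith
    rw [hG _ h2, mul_zero]

theorem RF_contDiff {n : ℕ} (b : ℝ) {G : ℝ → ℝ} (hGs : ContDiff ℝ ∞ G) {M : ℝ}
    (hG : ∀ t, M < |t| → G t = 0) : ContDiff ℝ ∞ (RF b G : En n → ℝ) := by
  rw [contDiff_iff_contDiffAt]
  intro x
  by_cases hx : x = 0
  · subst hx
    exact contDiffAt_const.congr_of_eventuallyEq (RF_eventually_zero b hG)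
  · refine ContDiffAt.congr_of_eventuallyEq ?_ (RF_eventually_ne b G hx)
    have h1 : ContDiffAt ℝ ∞ (fun y : En n => ‖y‖) x := contDiffAt_norm ℝ hx
    have hx' : ‖x‖ ≠ 0 := norm_ne_zero_iff.2 hx
    exact (h1.rpow_const_of_ne hx').mul (hGs.contDiffAt.comp x (h1.log hx'))

theorem RF_support {n : ℕ} (b : ℝ) {G : ℝ → ℝ} {M : ℝ} (hG : ∀ t, M < |t| → G t = 0) {x : En n}
    (hx : RF b G x ≠ 0) : ‖x‖ ≤ Real.exp M := by
  by_contra hcon
  push Not at hcon
  have hx0 : x ≠ 0 := by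
    rintro rfl
    exact hx (RF_zero b G)
  have hx' : 0 < ‖x‖ := norm_pos_iff.2 hx0
  have h1 : M < Real.log ‖x‖ := by
    rw [Real.lt_log_iff_exp_lt hx']; exact hcon
  apply hx
  rw [RF_of_ne b G hx0, hG _ (h1.trans_le (le_abs_self _)), mul_zero]

theorem RF_hasCompactSupport {n : ℕ} (b : ℝ) {G : ℝ → ℝ} {M : ℝ} (hG : ∀ t, M < |t| → G t = 0) :
    HasCompactSupport (RF b G : En n → ℝ) := by
  apply HasCompactSupport.of_support_subset_isCompact (isCompact_closedBall (0 : En n) (Real.exp M))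
  intro x hx
  rw [mem_closedBall_zero_iff]
  exact RF_support b hG hx

theorem deriv_support {G : ℝ → ℝ} {M : ℝ} (hG : ∀ t, M < |t| → G t = 0) :
    ∀ t, M < |t| → deriv G t = 0 := by
  intro t ht
  have : G =ᶠ[𝓝 t] fun _ => 0 := by
    have ho : IsOpen {s : ℝ | M < |s|} := isOpen_lt continuous_const continuous_abs
    filter_upwards [ho.mem_nhds ht] with s hs
    exact hG s hs
  rw [this.deriv_eq]; simp

theorem iteratedDeriv_support {G : ℝ → ℝ} {M : ℝ} (hG : ∀ t, M < |t| → G t = 0) (i : ℕ) :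
    ∀ t, M < |t| → iteratedDeriv i G t = 0 := by
  induction i with
  | zero => simpa using hG
  | succ i ih =>
    intro t ht
    rw [iteratedDeriv_succ]
    exact deriv_support ih t ht

theorem D_support (P : Polynomial ℝ) {G : ℝ → ℝ} {M : ℝ} (hG : ∀ t, M < |t| → G t = 0) :
    ∀ t, M < |t| → D P G t = 0 := by
  intro t ht
  unfold D
  rw [Polynomial.sum_def]
  apply Finset.sum_eq_zero
  intro i _
  rw [iteratedDeriv_support hG i t ht, mul_zero]

theorem contDiff_iteratedDeriv {G : ℝ → ℝ} (hG : ContDiff ℝ ∞ G) (i : ℕ) :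
    ContDiff ℝ ∞ (iteratedDeriv i G) := by
  induction i with
  | zero => simpa using hG
  | succ i ih =>
    rw [iteratedDeriv_succ]
    exact (contDiff_infty_iff_deriv.1 ih).2

theorem D_contDiff (P : Polynomial ℝ) {G : ℝ → ℝ} (hG : ContDiff ℝ ∞ G) : ContDiff ℝ ∞ (D P G) := by
  unfold D
  simp only [Polynomial.sum_def]
  apply ContDiff.sum
  intro i _
  exact contDiff_const.mul (contDiff_iteratedDeriv hG i)

/-- The Laplacian of a radial function. -/
theorem laplacian_RF {n : ℕ} (b : ℝ) {G : ℝ → ℝ} (hGs : ContDiff ℝ ∞ G) {M : ℝ}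
    (hG : ∀ t, M < |t| → G t = 0) : Δ (RF b G : En n → ℝ) =
      RF (b - 2) (fun t => deriv (deriv G) t + (2 * b + n - 2) * deriv G t +
        b * (b + n - 2) * G t) := by
  ext x
  by_cases hx : x = 0
  · subst hx
    rw [RF_zero, (laplacian_congr_nhds (RF_eventually_zero b hG)).self_of_nhds]
    rw [laplacian_const]; rfl
  · rw [RF_of_ne _ _ hx, (laplacian_congr_nhds (RF_eventually_ne b G hx)).self_of_nhds,
      laplacian_profile hGs b hx]

/-- The symbols of the iterates of `-Δ` on radial functions. -/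
noncomputable def QQ (n : ℕ) (b : ℝ) : ℕ → Polynomial ℝ
  | 0 => 1
  | m + 1 => Polynomial.C (-1) * ((Polynomial.X + Polynomial.C (b - 2 * m)) *
      ((Polynomial.X + Polynomial.C (b - 2 * m + n - 2)) * QQ n b m))

theorem QQ_coeff_zero (n : ℕ) (b : ℝ) (m : ℕ) :
    (QQ n b m).coeff 0 = ∏ j ∈ Finset.range m, (-((b - 2 * j) * (b - 2 * j + n - 2))) := by
  induction m with
  | zero => simp [QQ]
  | succ m ih =>
    rw [Finset.prod_range_succ, ← ih, QQ, Polynomial.coeff_C_mul, Polynomial.mul_coeff_zero,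
      Polynomial.mul_coeff_zero]
    simp only [Polynomial.coeff_add, Polynomial.coeff_X_zero, Polynomial.coeff_C_zero, zero_add]
    ring

theorem QQ_natDegree (n : ℕ) (b : ℝ) (m : ℕ) : (QQ n b m).natDegree ≤ 2 * m := by
  induction m with
  | zero => simp [QQ]
  | succ m ih =>
    rw [QQ]
    refine (Polynomial.natDegree_C_mul_le _ _).trans ?_
    refine (Polynomial.natDegree_mul_le).trans ?_
    refine (add_le_add (Polynomial.natDegree_X_add_C _).le (Polynomial.natDegree_mul_le)).trans ?_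
    rw [Polynomial.natDegree_X_add_C]
    omega

theorem iterate_RF {n : ℕ} (b : ℝ) {G : ℝ → ℝ} (hGs : ContDiff ℝ ∞ G) {M : ℝ}
    (hG : ∀ t, M < |t| → G t = 0) (m : ℕ) :
    (fun f : En n → ℝ => -(Δ f))^[m] (RF b G) = RF (b - 2 * m) (D (QQ n b m) G) := by
  induction m with
  | zero =>
    have : D (QQ n b 0) G = G := by ext t; exact D_one G t
    rw [this]; simp
  | succ m ih =>
    rw [Function.iterate_succ_apply', ih]
    rw [laplacian_RF (b - 2 * m) (D_contDiff _ hGs) (D_support _ hG)]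
    have hd1 : deriv (D (QQ n b m) G) = D (Polynomial.X * QQ n b m) G := by
      ext t; exact (hasDerivAt_D _ hGs t).deriv
    have hd2 : deriv (D (Polynomial.X * QQ n b m) G) = D (Polynomial.X * (Polynomial.X * QQ n b m)) G := by
      ext t; exact (hasDerivAt_D _ hGs t).deriv
    ext x
    change -(RF _ _ x) = _
    by_cases hx : x = 0
    · subst hx; rw [RF_zero, RF_zero, neg_zero]
    · rw [RF_of_ne _ _ hx, RF_of_ne _ _ hx, hd1, hd2]
      have e1 : b - 2 * ((m + 1 : ℕ) : ℝ) = b - 2 * m - 2 := by push_cast; ring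
      rw [e1]
      have e2 : QQ n b (m + 1) = Polynomial.C (-1) * (Polynomial.X * (Polynomial.X * QQ n b m)) +
          (Polynomial.C (-(2 * (b - 2 * m) + n - 2)) * (Polynomial.X * QQ n b m) +
          Polynomial.C (-((b - 2 * m) * (b - 2 * m + n - 2))) * QQ n b m) := by
        rw [QQ]
        simp only [map_neg, map_add, map_sub, map_mul, map_one, map_natCast, map_ofNat]
        ring
      rw [e2, D_add, D_add, D_C_mul, D_C_mul, D_C_mul]
      ring

/-- The remainder of the constant coefficient operator on a slowly varying function. -/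
theorem D_slow (P : Polynomial ℝ) {N : ℕ} (hP : P.natDegree ≤ N) {ξ : ℝ → ℝ} (hξ : ContDiff ℝ ∞ ξ)
    {p K : ℝ} (hK0 : 0 ≤ K) (hξ0 : ∀ t, 0 ≤ ξ t)
    (hK : ∀ i ≤ N, ∀ t, |iteratedDeriv i ξ t| ≤ K * ξ t ^ (1 / p)) :
    ∃ C : ℝ, 0 ≤ C ∧ ∀ R : ℝ, 1 ≤ R → ∀ t,
      D P (fun s => ξ (R⁻¹ * s)) t ≤ P.coeff 0 * ξ (R⁻¹ * t) + C / R * ξ (R⁻¹ * t) ^ (1 / p) := by
  refine ⟨∑ i ∈ Finset.range N, |P.coeff (i + 1)| * K, by positivity, fun R hR t => ?_⟩
  have hR0 : 0 < R := by linarith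
  have hR1 : R⁻¹ ≤ 1 := inv_le_one_of_one_le₀ hR
  unfold D
  rw [Polynomial.sum_over_range' P (fun i => by ring) (N + 1) (by omega), Finset.sum_range_succ']
  rw [iteratedDeriv_zero, add_comm]
  apply add_le_add le_rfl
  rw [div_eq_mul_inv, Finset.sum_mul, Finset.sum_mul]
  apply Finset.sum_le_sum
  intro i hi
  have hi' : i + 1 ≤ N := by have := Finset.mem_range.1 hi; omega
  have h1 : iteratedDeriv (i + 1) (fun s => ξ (R⁻¹ * s)) t = (R⁻¹) ^ (i + 1) *
      iteratedDeriv (i + 1) ξ (R⁻¹ * t) := by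
    have := iteratedDeriv_comp_const_mul (n := i + 1) (f := ξ) (hξ.of_le (by exact_mod_cast le_top)) R⁻¹
    rw [this]
  rw [h1]
  have h2 := hK (i + 1) hi' (R⁻¹ * t)
  have h3 : (R⁻¹) ^ (i + 1) ≤ R⁻¹ := by
    have h0 : 0 ≤ R⁻¹ := by positivity
    calc (R⁻¹) ^ (i + 1) ≤ (R⁻¹) ^ 1 := pow_le_pow_of_le_one h0 hR1 (by omega)
      _ = R⁻¹ := pow_one _
  have h4 : 0 ≤ ξ (R⁻¹ * t) ^ (1 / p) := Real.rpow_nonneg (hξ0 _) _
  refine (le_abs_self _).trans ?_
  rw [abs_mul, abs_mul, abs_of_nonneg (by positivity : (0 : ℝ) ≤ (R⁻¹) ^ (i + 1))]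
  have h5 : (R⁻¹) ^ (i + 1) * |iteratedDeriv (i + 1) ξ (R⁻¹ * t)| ≤ R⁻¹ * (K * ξ (R⁻¹ * t) ^ (1 / p)) :=
    mul_le_mul h3 h2 (abs_nonneg _) (by positivity)
  calc |P.coeff (i + 1)| * ((R⁻¹) ^ (i + 1) * |iteratedDeriv (i + 1) ξ (R⁻¹ * t)|)
      ≤ |P.coeff (i + 1)| * (R⁻¹ * (K * ξ (R⁻¹ * t) ^ (1 / p))) :=
        mul_le_mul_of_nonneg_left h5 (abs_nonneg _)
    _ = |P.coeff (i + 1)| * K * R⁻¹ * ξ (R⁻¹ * t) ^ (1 / p) := by ring


/-! ### Nonexistence -/

theorem coeff_eq (n m : ℕ) (θ : ℝ) :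
    (QQ n (θ + 2 * m - n) m).coeff 0 =
      ∏ j ∈ Finset.range m, ((θ + 2 * j) * (n - 2 - θ - 2 * j)) := by
  rw [QQ_coeff_zero, ← Finset.prod_range_reflect]
  apply Finset.prod_congr rfl
  intro j hj
  have hj' := Finset.mem_range.1 hj
  have e : ((m - 1 - j : ℕ) : ℝ) = m - 1 - j := by
    rw [Nat.cast_sub (by omega), Nat.cast_sub (by omega)]; push_cast; ring
  rw [e]
  ring

/-- The annulus function. -/
noncomputable def ZZ (n : ℕ) (R : ℝ) (x : En n) : ℝ :=
  (Set.Icc (Real.exp (-(2 * R))) (Real.exp (2 * R))).indicator (fun r : ℝ => r ^ (-(n : ℝ))) ‖x‖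

theorem ZZ_nonneg (n : ℕ) (R : ℝ) (x : En n) : 0 ≤ ZZ n R x := by
  unfold ZZ
  apply Set.indicator_nonneg
  intro r hr
  exact Real.rpow_nonneg ((Real.exp_pos _).le.trans hr.1) _

theorem ZZ_of {n : ℕ} {R : ℝ} {x : En n} (hx : x ≠ 0) (h : |Real.log ‖x‖| ≤ 2 * R) :
    ZZ n R x = ‖x‖ ^ (-(n : ℝ)) := by
  unfold ZZ
  have hx' : 0 < ‖x‖ := norm_pos_iff.2 hx
  rw [Set.indicator_of_mem]
  rw [abs_le] at h
  constructor
  · rw [← Real.le_log_iff_exp_le hx']; exact h.1
  · rw [← Real.log_le_iff_le_exp hx']; exact h.2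

theorem integral_ZZ {n : ℕ} (hn : 1 ≤ n) {R : ℝ} (hR : 0 ≤ R) :
    Integrable (ZZ n R) ∧ ∫ x, ZZ n R x = n * volume.real (Metric.ball (0 : En n) 1) * (4 * R) := by
  have : Nontrivial (En n) := by
    have : Nonempty (Fin n) := ⟨⟨0, hn⟩⟩
    infer_instance
  have hdim : Module.finrank ℝ (En n) = n := by simp
  set a := Real.exp (-(2 * R)) with ha
  set b := Real.exp (2 * R) with hb
  have ha0 : 0 < a := Real.exp_pos _
  have hab : a ≤ b := Real.exp_le_exp.2 (by linarith)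
  have e1 : ∀ y ∈ Set.Ioi (0 : ℝ), y ^ (Module.finrank ℝ (En n) - 1) •
      ((Set.Icc a b).indicator (fun r : ℝ => r ^ (-(n : ℝ))) y) = (Set.Icc a b).indicator (fun r : ℝ => r⁻¹) y := by
    intro y hy
    have hy' : 0 < y := hy
    by_cases h : y ∈ Set.Icc a b
    · rw [Set.indicator_of_mem h, Set.indicator_of_mem h, hdim, smul_eq_mul, ← Real.rpow_natCast,
        ← Real.rpow_add hy', ← Real.rpow_neg_one]
      congr 1
      rw [Nat.cast_sub hn]; push_cast; ring
    · rw [Set.indicator_of_notMem h, Set.indicator_of_notMem h, smul_zero]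
  have hint : IntegrableOn (fun r : ℝ => r⁻¹) (Set.Icc a b) := by
    apply ContinuousOn.integrableOn_Icc
    apply continuousOn_inv₀.mono
    intro r hr
    exact (ha0.trans_le hr.1).ne'
  constructor
  · have := (integrable_fun_norm_addHaar (E := En n) volume
      (f := (Set.Icc a b).indicator (fun r : ℝ => r ^ (-(n : ℝ))))).2 ?_
    · exact this
    · rw [integrableOn_congr_fun e1 measurableSet_Ioi]
      exact ((integrable_indicator_iff measurableSet_Icc).2 hint).integrableOn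
  · have := integral_fun_norm_addHaar (E := En n) volume
      ((Set.Icc a b).indicator (fun r : ℝ => r ^ (-(n : ℝ))))
    unfold ZZ
    rw [this, setIntegral_congr_fun measurableSet_Ioi e1, setIntegral_indicator measurableSet_Icc]
    have e2 : Set.Ioi (0 : ℝ) ∩ Set.Icc a b = Set.Icc a b := by
      apply Set.inter_eq_right.2
      intro r hr
      exact ha0.trans_le hr.1
    rw [e2, integral_Icc_eq_integral_Ioc, ← intervalIntegral.integral_of_le hab,
      integral_inv_of_pos ha0 (ha0.trans_le hab), hdim, Real.log_div (ha0.trans_le hab).ne' ha0.ne',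
      ha, hb, Real.log_exp, Real.log_exp, nsmul_eq_mul, smul_eq_mul]
    ring

/-- Nonexistence: the leading coefficient is nonpositive. -/
theorem no_solution (n m : ℕ) (hn : 1 ≤ n) (p σ : ℝ) (hp : 1 < p)
    (hA : ∏ j ∈ Finset.range m, (((2 * m + σ) / (p - 1) + 2 * j) *
      (n - 2 - (2 * m + σ) / (p - 1) - 2 * j)) ≤ 0) (u : En n → ℝ) : ¬ IsDistSol n m p σ u := by
  intro hu
  set θ : ℝ := (2 * m + σ) / (p - 1) with hθ
  set b : ℝ := θ + 2 * m - n with hb
  rw [← coeff_eq n m θ, ← hb] at hA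
  have hp0 : 0 < p := by linarith
  have hp1 : 0 < p - 1 := by linarith
  set q : ℝ := p / (p - 1) with hq
  have hpq : p.HolderConjugate q := by
    rw [hq]; exact Real.HolderConjugate.conjExponent hp
  have hq0 : 0 < q := by positivity
  obtain ⟨ξ, hξ, hξ0, hξ1, hξone, hξzero, K, hK0, hK⟩ := exists_cutoff (2 * m) hp
  obtain ⟨C, hC0, hC⟩ := D_slow (QQ n b m) (QQ_natDegree n b m) hξ hK0 hξ0 hK
  have hGs : ∀ R : ℝ, ContDiff ℝ ∞ (fun s => ξ (R⁻¹ * s)) := fun R =>
    hξ.comp (contDiff_const.mul contDiff_id)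
  have hGz : ∀ R : ℝ, 0 < R → ∀ t, 2 * R < |t| → ξ (R⁻¹ * t) = 0 := by
    intro R hR t ht
    apply hξzero
    rw [abs_mul, abs_of_pos (inv_pos.2 hR), ← div_eq_inv_mul, le_div_iff₀ hR]
    linarith
  -- the function under the integral
  set W : ℝ → En n → ℝ := fun R x => ‖x‖ ^ σ * u x ^ p * RF b (fun s => ξ (R⁻¹ * s)) x with hW
  have hWint : ∀ R : ℝ, 0 < R → Integrable (W R) := by
    intro R hR
    exact hu.locInt_rhs.integrable_smul_right_of_hasCompactSupport
      (RF_contDiff b (hGs R) (hGz R hR)).continuous (RF_hasCompactSupport b (hGz R hR))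
  have hWnn : ∀ R : ℝ, ∀ᵐ x, 0 ≤ W R x := by
    intro R
    filter_upwards [hu.nonneg] with x hx
    have h1 : 0 ≤ RF b (fun s => ξ (R⁻¹ * s)) x := by
      unfold RF
      split_ifs
      · exact le_rfl
      · exact mul_nonneg (Real.rpow_nonneg (norm_nonneg _) _) (hξ0 _)
    exact mul_nonneg (mul_nonneg (Real.rpow_nonneg (norm_nonneg _) _) (Real.rpow_nonneg hx _)) h1
  set κ : ℝ := n * volume.real (Metric.ball (0 : En n) 1) with hκ
  have hκ0 : 0 ≤ κ := by positivity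
  -- the main estimate
  have main : ∀ R : ℝ, 1 ≤ R → ∫ x, W R x ≤ (C / R) ^ q * (κ * (4 * R)) := by
    intro R hR
    have hR0 : 0 < R := by linarith
    have heq := hu.eqn _ (RF_contDiff b (hGs R) (hGz R hR0)) (RF_hasCompactSupport b (hGz R hR0))
    rw [iterate_RF b (hGs R) (hGz R hR0) m] at heq
    have hDs : ContDiff ℝ ∞ (D (QQ n b m) (fun s => ξ (R⁻¹ * s))) := D_contDiff _ (hGs R)
    have hDz := D_support (QQ n b m) (hGz R hR0)
    have hLint : Integrable (fun x => u x * RF (b - 2 * m) (D (QQ n b m) (fun s => ξ (R⁻¹ * s))) x) :=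
      hu.locInt.integrable_smul_right_of_hasCompactSupport
        (RF_contDiff (b - 2 * m) hDs hDz).continuous (RF_hasCompactSupport (b - 2 * m) hDz)
    obtain ⟨hZint, hZ⟩ := integral_ZZ (n := n) hn (R := R) hR0.le
    have hpt : ∀ᵐ x, u x * RF (b - 2 * m) (D (QQ n b m) (fun s => ξ (R⁻¹ * s))) x ≤
        (1 / p) * W R x + ((C / R) ^ q / q) * ZZ n R x := by
      filter_upwards [hu.nonneg] with x hx
      by_cases hx0 : x = 0
      · subst hx0
        rw [RF_zero, mul_zero, hW]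
        simp only [RF_zero, mul_zero, zero_add]
        have := ZZ_nonneg n R (0 : En n)
        positivity
      have hx' : 0 < ‖x‖ := norm_pos_iff.2 hx0
      rw [RF_of_ne _ _ hx0]
      set t := Real.log ‖x‖ with ht
      by_cases hts : 2 * R < |t|
      · rw [hDz t hts, mul_zero, mul_zero, hW]
        simp only
        rw [RF_of_ne _ _ hx0, ← ht, hGz R hR0 t hts, mul_zero, mul_zero, mul_zero, zero_add]
        have := ZZ_nonneg n R x
        positivity
      · push Not at hts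
        rw [ZZ_of hx0 hts]
        set g := ξ (R⁻¹ * t) with hg
        have hg0 : 0 ≤ g := hξ0 _
        have h1 := hC R hR t
        have h2 : D (QQ n b m) (fun s => ξ (R⁻¹ * s)) t ≤ C / R * g ^ (1 / p) := by
          have : (QQ n b m).coeff 0 * g ≤ 0 := mul_nonpos_of_nonpos_of_nonneg hA hg0
          linarith
        have hW' : W R x = ‖x‖ ^ σ * u x ^ p * (‖x‖ ^ b * g) := by
          rw [hW]; simp only; rw [RF_of_ne _ _ hx0]
        have hnx : 0 ≤ ‖x‖ ^ (b - 2 * m) := Real.rpow_nonneg hx'.le _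
        have h3 : u x * (‖x‖ ^ (b - 2 * m) * D (QQ n b m) (fun s => ξ (R⁻¹ * s)) t) ≤
            u x * (‖x‖ ^ (b - 2 * m) * (C / R * g ^ (1 / p))) :=
          mul_le_mul_of_nonneg_left (mul_le_mul_of_nonneg_left h2 hnx) hx
        refine h3.trans ?_
        -- Young's inequality
        have hY := Real.young_inequality_of_nonneg
          (a := ‖x‖ ^ ((σ + b) / p) * (u x * g ^ (1 / p)))
          (b := C / R * ‖x‖ ^ (-(n : ℝ) / q)) (by positivity) (by positivity) hpq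
        have e1 : ‖x‖ ^ ((σ + b) / p) * (u x * g ^ (1 / p)) * (C / R * ‖x‖ ^ (-(n : ℝ) / q)) =
            u x * (‖x‖ ^ (b - 2 * m) * (C / R * g ^ (1 / p))) := by
          have e2 : b - 2 * m = (σ + b) / p + (-(n : ℝ) / q) := by
            rw [hq, hb, hθ]; field_simp; ring
          rw [e2, Real.rpow_add hx']; ring
        have e3 : (‖x‖ ^ ((σ + b) / p) * (u x * g ^ (1 / p))) ^ p = W R x := by
          rw [hW', Real.mul_rpow (by positivity) (by positivity), Real.mul_rpow hx (by positivity),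
            ← Real.rpow_mul hx'.le, ← Real.rpow_mul hg0]
          have e4 : (σ + b) / p * p = σ + b := by field_simp
          have e5 : 1 / p * p = 1 := by field_simp
          rw [e4, e5, Real.rpow_one, Real.rpow_add hx']; ring
        have e6 : (C / R * ‖x‖ ^ (-(n : ℝ) / q)) ^ q = (C / R) ^ q * ‖x‖ ^ (-(n : ℝ)) := by
          rw [Real.mul_rpow (by positivity) (by positivity), ← Real.rpow_mul hx'.le]
          congr 2; field_simp
        rw [e1, e3, e6] at hY
        refine hY.trans (le_of_eq ?_)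
        ring
    have h4 := integral_mono_ae hLint
      (((hWint R hR0).const_mul (1 / p)).add (hZint.const_mul ((C / R) ^ q / q))) hpt
    have h5 : ∫ x, ((1 / p) * W R x + ((C / R) ^ q / q) * ZZ n R x) =
        (1 / p) * (∫ x, W R x) + ((C / R) ^ q / q) * (κ * (4 * R)) := by
      rw [integral_add ((hWint R hR0).const_mul (1 / p)) (hZint.const_mul ((C / R) ^ q / q)),
        integral_const_mul, integral_const_mul, hZ]
    have h6 : ∫ x, u x * RF (b - 2 * m) (D (QQ n b m) (fun s => ξ (R⁻¹ * s))) x = ∫ x, W R x := heq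
    have h7 : ∫ x, W R x ≤ (1 / p) * (∫ x, W R x) + ((C / R) ^ q / q) * (κ * (4 * R)) := by
      rw [← h5, ← h6]; exact h4
    have h8 : 1 - 1 / p = 1 / q := by
      rw [hq]; field_simp
    have h9 : (1 / q) * (∫ x, W R x) ≤ ((C / R) ^ q / q) * (κ * (4 * R)) := by
      rw [← h8]; linarith
    have h10 : (1 / q) * (∫ x, W R x) ≤ (1 / q) * ((C / R) ^ q * (κ * (4 * R))) := by
      refine h9.trans (le_of_eq ?_); ring
    exact le_of_mul_le_mul_left h10 (by positivity)
  -- comparison of the cut-offs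
  have comp : ∀ r R : ℝ, 0 < r → 2 * r ≤ R → ∫ x, W r x ≤ ∫ x, W R x := by
    intro r R hr hrR
    have hR0 : 0 < R := by linarith
    apply integral_mono_ae (hWint r hr) (hWint R hR0)
    filter_upwards [hu.nonneg] with x hx
    have h0 : 0 ≤ ‖x‖ ^ σ * u x ^ p :=
      mul_nonneg (Real.rpow_nonneg (norm_nonneg _) _) (Real.rpow_nonneg hx _)
    apply mul_le_mul_of_nonneg_left _ h0
    by_cases hx0 : x = 0
    · subst hx0; rw [RF_zero, RF_zero]
    · rw [RF_of_ne _ _ hx0, RF_of_ne _ _ hx0]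
      apply mul_le_mul_of_nonneg_left _ (Real.rpow_nonneg (norm_nonneg _) _)
      by_cases ht : 2 * r < |Real.log ‖x‖|
      · rw [hGz r hr _ ht]; exact hξ0 _
      · push Not at ht
        have : ξ (R⁻¹ * Real.log ‖x‖) = 1 := by
          apply hξone
          rw [abs_mul, abs_of_pos (inv_pos.2 hR0), ← div_eq_inv_mul, div_le_iff₀ hR0]
          linarith
        rw [this]; exact hξ1 _
  -- the integrals vanish
  have vanish : ∀ r : ℝ, 0 < r → ∫ x, W r x = 0 := by
    intro r hr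
    apply le_antisymm _ (integral_nonneg_of_ae (hWnn r))
    have hlim : Tendsto (fun R : ℝ => (C ^ q * κ * 4) * R ^ (-(q - 1))) atTop (𝓝 ((C ^ q * κ * 4) * 0)) := by
      apply Tendsto.const_mul
      apply tendsto_rpow_neg_atTop
      rw [hq, sub_pos, lt_div_iff₀ hp1]; linarith
    rw [mul_zero] at hlim
    apply ge_of_tendsto hlim
    filter_upwards [eventually_ge_atTop (max 1 (2 * r))] with R hR
    have hR1 : 1 ≤ R := (le_max_left _ _).trans hR
    have hR2 : 2 * r ≤ R := (le_max_right _ _).trans hR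
    have hR0 : 0 < R := by linarith
    refine (comp r R hr hR2).trans ((main R hR1).trans (le_of_eq ?_))
    rw [Real.div_rpow hC0 hR0.le, neg_sub, Real.rpow_sub hR0, Real.rpow_one]
    field_simp
  -- so u vanishes
  apply hu.ne_zero
  have hall : ∀ k : ℕ, ∀ᵐ x, W (k + 1 : ℝ) x = 0 := by
    intro k
    have hk : (0 : ℝ) < k + 1 := by positivity
    have := (integral_eq_zero_iff_of_nonneg_ae (hWnn (k + 1)) (hWint _ hk)).1 (vanish _ hk)
    exact this
  have : Nontrivial (En n) := by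
    have : Nonempty (Fin n) := ⟨⟨0, hn⟩⟩
    infer_instance
  have hne : ∀ᵐ x : En n, x ≠ 0 := by
    have : volume ({0} : Set (En n)) = 0 := measure_singleton 0
    exact measure_eq_zero_iff_ae_notMem.1 this
  filter_upwards [ae_all_iff.2 hall, hu.nonneg, hne] with x hx hxn hx0
  by_contra hux
  have hupos : 0 < u x := lt_of_le_of_ne hxn (Ne.symm hux)
  have hx' : 0 < ‖x‖ := norm_pos_iff.2 hx0
  obtain ⟨k, hk⟩ := exists_nat_gt |Real.log ‖x‖|
  have h1 := hx k
  rw [hW] at h1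
  simp only at h1
  rw [RF_of_ne _ _ hx0] at h1
  have h2 : ξ (((k : ℝ) + 1)⁻¹ * Real.log ‖x‖) = 1 := by
    apply hξone
    have hk1 : (0 : ℝ) < k + 1 := by positivity
    rw [abs_mul, abs_of_pos (inv_pos.2 hk1), ← div_eq_inv_mul, div_le_iff₀ hk1]
    linarith
  rw [h2] at h1
  have h3 : 0 < ‖x‖ ^ σ * u x ^ p * (‖x‖ ^ b * 1) := by positivity
  exact h3.ne' h1

/-! ### Integration by parts for the Laplacian -/

theorem laplacian_eq_sum {n : ℕ} (φ : En n → ℝ) (x : En n) :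
    (Δ φ) x = ∑ i, fderiv ℝ (fderiv ℝ φ) x (EuclideanSpace.basisFun (Fin n) ℝ i)
      (EuclideanSpace.basisFun (Fin n) ℝ i) := by
  rw [laplacian_eq_iteratedFDeriv_orthonormalBasis _ (EuclideanSpace.basisFun (Fin n) ℝ)]
  simp only [iteratedFDeriv_two_apply, Matrix.cons_val_zero, Matrix.cons_val_one]

theorem contDiff_dir {n : ℕ} {φ : En n → ℝ} (hφ : ContDiff ℝ ∞ φ) (v : En n) :
    ContDiff ℝ ∞ (fun x => fderiv ℝ φ x v) :=
  (hφ.fderiv_right (m := ∞) (by simp)).clm_apply contDiff_const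

theorem fderiv_dir {n : ℕ} {φ : En n → ℝ} (hφ : ContDiff ℝ ∞ φ) (v w x : En n) :
    fderiv ℝ (fun y => fderiv ℝ φ y v) x w = fderiv ℝ (fderiv ℝ φ) x w v := by
  have h1 : DifferentiableAt ℝ (fderiv ℝ φ) x :=
    (hφ.fderiv_right (m := ∞) (by simp)).differentiable (by simp) x
  rw [fderiv_clm_apply h1 (differentiableAt_const v)]
  simp

theorem laplacian_eq_sum' {n : ℕ} {φ : En n → ℝ} (hφ : ContDiff ℝ ∞ φ) (x : En n) :
    (Δ φ) x = ∑ i, fderiv ℝ (fun y => fderiv ℝ φ y (EuclideanSpace.basisFun (Fin n) ℝ i)) x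
      (EuclideanSpace.basisFun (Fin n) ℝ i) := by
  rw [laplacian_eq_sum]
  exact Finset.sum_congr rfl fun i _ => (fderiv_dir hφ _ _ _).symm

theorem laplacian_contDiff {n : ℕ} {φ : En n → ℝ} (hφ : ContDiff ℝ ∞ φ) :
    ContDiff ℝ ∞ (Δ φ) := by
  have : Δ φ = fun x => ∑ i, fderiv ℝ (fun y => fderiv ℝ φ y (EuclideanSpace.basisFun (Fin n) ℝ i)) x
      (EuclideanSpace.basisFun (Fin n) ℝ i) := by
    ext x; exact laplacian_eq_sum' hφ x
  rw [this]
  exact ContDiff.sum fun i _ => contDiff_dir (contDiff_dir hφ _) _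

theorem laplacian_hasCompactSupport {n : ℕ} {φ : En n → ℝ} (hφ : HasCompactSupport φ) :
    HasCompactSupport (Δ φ) := by
  apply HasCompactSupport.intro hφ
  intro x hx
  have h1 : φ =ᶠ[𝓝 x] fun _ => 0 := by
    have := (isClosed_tsupport φ).isOpen_compl.mem_nhds hx
    filter_upwards [this] with y hy
    exact image_eq_zero_of_notMem_tsupport hy
  rw [(laplacian_congr_nhds h1).self_of_nhds, laplacian_const]
  rfl

theorem ibp_dir {n : ℕ} {f ψ : En n → ℝ} (hf : ContDiff ℝ ∞ f) (hψ : ContDiff ℝ ∞ ψ)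
    (hψc : HasCompactSupport ψ) (v : En n) :
    ∫ x, f x * fderiv ℝ ψ x v = - ∫ x, fderiv ℝ f x v * ψ x := by
  have hψ'c : HasCompactSupport (fun x => fderiv ℝ ψ x v) := by
    have := hψc.fderiv (𝕜 := ℝ)
    exact this.comp_left (g := fun L : En n →L[ℝ] ℝ => L v) (by simp)
  apply integral_mul_fderiv_eq_neg_fderiv_mul_of_integrable
  · exact ((contDiff_dir hf v).continuous.mul hψ.continuous).integrable_of_hasCompactSupport
      hψc.mul_left
  · exact (hf.continuous.mul (contDiff_dir hψ v).continuous).integrable_of_hasCompactSupport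
      hψ'c.mul_left
  · exact (hf.continuous.mul hψ.continuous).integrable_of_hasCompactSupport hψc.mul_left
  · exact fun x _ => hf.differentiable (by simp) x
  · exact fun x _ => hψ.differentiable (by simp) x

theorem hasCompactSupport_dir {n : ℕ} {ψ : En n → ℝ} (hψc : HasCompactSupport ψ) (v : En n) :
    HasCompactSupport (fun x => fderiv ℝ ψ x v) := by
  have := hψc.fderiv (𝕜 := ℝ)
  exact this.comp_left (g := fun L : En n →L[ℝ] ℝ => L v) (by simp)

/-- Green's identity. -/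
theorem ibp_laplacian {n : ℕ} {f ψ : En n → ℝ} (hf : ContDiff ℝ ∞ f) (hψ : ContDiff ℝ ∞ ψ)
    (hψc : HasCompactSupport ψ) : ∫ x, f x * (Δ ψ) x = ∫ x, (Δ f) x * ψ x := by
  have h1 : ∀ i : Fin n, Integrable (fun x => f x *
      fderiv ℝ (fun y => fderiv ℝ ψ y (EuclideanSpace.basisFun (Fin n) ℝ i)) x
      (EuclideanSpace.basisFun (Fin n) ℝ i)) := fun i =>
    (hf.continuous.mul (contDiff_dir (contDiff_dir hψ _) _).continuous).integrable_of_hasCompactSupport
      (hasCompactSupport_dir (hasCompactSupport_dir hψc _) _).mul_left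
  have h2 : ∀ i : Fin n, Integrable (fun x =>
      fderiv ℝ (fun y => fderiv ℝ f y (EuclideanSpace.basisFun (Fin n) ℝ i)) x
      (EuclideanSpace.basisFun (Fin n) ℝ i) * ψ x) := fun i =>
    ((contDiff_dir (contDiff_dir hf _) _).continuous.mul hψ.continuous).integrable_of_hasCompactSupport
      hψc.mul_left
  have e1 : ∫ x, f x * (Δ ψ) x = ∑ i : Fin n, ∫ x, f x *
      fderiv ℝ (fun y => fderiv ℝ ψ y (EuclideanSpace.basisFun (Fin n) ℝ i)) x
      (EuclideanSpace.basisFun (Fin n) ℝ i) := by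
    rw [← integral_finsetSum _ (fun i _ => h1 i)]
    congr 1
    ext x
    rw [laplacian_eq_sum' hψ, Finset.mul_sum]
  have e2 : ∫ x, (Δ f) x * ψ x = ∑ i : Fin n, ∫ x,
      fderiv ℝ (fun y => fderiv ℝ f y (EuclideanSpace.basisFun (Fin n) ℝ i)) x
      (EuclideanSpace.basisFun (Fin n) ℝ i) * ψ x := by
    rw [← integral_finsetSum _ (fun i _ => h2 i)]
    congr 1
    ext x
    rw [laplacian_eq_sum' hf, Finset.sum_mul]
  rw [e1, e2]
  apply Finset.sum_congr rfl
  intro i _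
  rw [ibp_dir hf (contDiff_dir hψ _) (hasCompactSupport_dir hψc _)]
  have h3 := ibp_dir (contDiff_dir hf (EuclideanSpace.basisFun (Fin n) ℝ i)) hψ hψc
    (EuclideanSpace.basisFun (Fin n) ℝ i)
  rw [h3, neg_neg]

/-! ### Powers of the norm -/

theorem norm_rpow_locallyIntegrable {n : ℕ} (hn : 1 ≤ n) {e : ℝ} (he : -(n : ℝ) < e) :
    LocallyIntegrable (fun x : En n => ‖x‖ ^ e) := by
  refine locallyIntegrable_of_norm_le_rpow (C := 1) (α := -e) ?_ ?_ ?_ ?_
  · simpa using hn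
  · simp only [finrank_euclideanSpace, Fintype.card_fin]; linarith
  · apply Eventually.of_forall
    intro x
    rw [neg_neg, one_mul, Real.norm_of_nonneg (Real.rpow_nonneg (norm_nonneg _) _)]
  · exact (measurable_norm.pow_const e).aestronglyMeasurable

theorem reg_le {s ε e : ℝ} (hs : 0 < s) (hε : 0 < ε) (hε1 : ε ≤ 1) :
    (s ^ 2 + ε) ^ (e / 2) ≤ (s ^ 2 + 1) ^ (e / 2) + s ^ e := by
  have h0 : 0 < s ^ 2 := by positivity
  rcases le_or_gt 0 e with he | he
  · have : (s ^ 2 + ε) ^ (e / 2) ≤ (s ^ 2 + 1) ^ (e / 2) :=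
      Real.rpow_le_rpow (by positivity) (by linarith) (by positivity)
    have h2 : 0 ≤ s ^ e := Real.rpow_nonneg hs.le _
    linarith
  · have h1 : (s ^ 2 + ε) ^ (e / 2) ≤ (s ^ 2) ^ (e / 2) :=
      Real.rpow_le_rpow_of_nonpos h0 (by linarith) (by linarith)
    have h2 : (s ^ 2) ^ (e / 2) = s ^ e := by
      rw [← Real.rpow_natCast, ← Real.rpow_mul hs.le]; congr 1; push_cast; ring
    have h3 : 0 ≤ (s ^ 2 + 1) ^ (e / 2) := by positivity
    linarith

theorem dom_integrable {n : ℕ} (hn : 1 ≤ n) {e : ℝ} (he : -(n : ℝ) < e) {h : En n → ℝ}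
    (hh : Continuous h) (hhc : HasCompactSupport h) :
    Integrable (fun x => ((‖x‖ ^ 2 + 1) ^ (e / 2) + ‖x‖ ^ e) * |h x|) := by
  have h1 : LocallyIntegrable (fun x : En n => (‖x‖ ^ 2 + 1) ^ (e / 2) + ‖x‖ ^ e) := by
    apply LocallyIntegrable.add _ (norm_rpow_locallyIntegrable hn he)
    apply Continuous.locallyIntegrable
    apply Continuous.rpow_const (by fun_prop)
    intro x
    left
    positivity
  have := h1.integrable_smul_right_of_hasCompactSupport (g := fun x => |h x|) hh.abs hhc.abs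
  exact this

/-- Convergence of the regularized integrals. -/
theorem tendsto_reg {n : ℕ} (hn : 1 ≤ n) {e : ℝ} (he : -(n : ℝ) < e) {h : En n → ℝ}
    (hh : Continuous h) (hhc : HasCompactSupport h) :
    Tendsto (fun k : ℕ => ∫ x : En n, (‖x‖ ^ 2 + 1 / ((k : ℝ) + 1)) ^ (e / 2) * h x) atTop
      (𝓝 (∫ x, ‖x‖ ^ e * h x)) := by
  have : Nontrivial (En n) := by
    have : Nonempty (Fin n) := ⟨⟨0, hn⟩⟩
    infer_instance
  have hne : ∀ᵐ x : En n, x ≠ 0 := by
    have : volume ({0} : Set (En n)) = 0 := measure_singleton 0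
    exact measure_eq_zero_iff_ae_notMem.1 this
  apply tendsto_integral_of_dominated_convergence _ _ (dom_integrable hn he hh hhc)
  · intro k
    filter_upwards [hne] with x hx
    have hx' : 0 < ‖x‖ := norm_pos_iff.2 hx
    have hk : (0 : ℝ) < 1 / ((k : ℝ) + 1) := by positivity
    have hk1 : 1 / ((k : ℝ) + 1) ≤ 1 := by
      rw [div_le_one (by positivity)]
      have : (0 : ℝ) ≤ k := by positivity
      linarith
    rw [norm_mul, Real.norm_eq_abs, Real.norm_eq_abs, abs_of_nonneg (by positivity)]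
    exact mul_le_mul_of_nonneg_right (reg_le hx' hk hk1) (abs_nonneg _)
  · filter_upwards [hne] with x hx
    have hx' : 0 < ‖x‖ := norm_pos_iff.2 hx
    apply Tendsto.mul_const
    have h1 : ‖x‖ ^ e = (‖x‖ ^ 2 + 0) ^ (e / 2) := by
      rw [add_zero, ← Real.rpow_natCast, ← Real.rpow_mul hx'.le]; congr 1; push_cast; ring
    rw [h1]
    apply Tendsto.rpow_const
    · exact tendsto_const_nhds.add tendsto_one_div_add_atTop_nhds_zero_nat
    · left
      positivity
  · intro k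
    apply AEStronglyMeasurable.mul _ hh.aestronglyMeasurable
    apply Continuous.aestronglyMeasurable
    apply Continuous.rpow_const (by fun_prop)
    intro x
    left
    positivity


/-- The regularized power of the norm. -/
noncomputable def reg {n : ℕ} (c ε : ℝ) (x : En n) : ℝ := (‖x‖ ^ 2 + ε) ^ (c / 2)

theorem reg_contDiff {n : ℕ} (c : ℝ) {ε : ℝ} (hε : 0 < ε) : ContDiff ℝ ∞ (reg c ε : En n → ℝ) := by
  rw [contDiff_iff_contDiffAt]
  intro x
  apply ContDiffAt.rpow_const_of_ne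
  · exact ((contDiff_norm_sq ℝ).add contDiff_const).contDiffAt
  · positivity

theorem laplacian_reg {n : ℕ} (c : ℝ) {ε : ℝ} (hε : 0 < ε) (x : En n) :
    (Δ (reg c ε : En n → ℝ)) x = c * (c - 2) * (‖x‖ ^ 2 * (‖x‖ ^ 2 + ε) ^ ((c - 4) / 2)) +
      n * c * (‖x‖ ^ 2 + ε) ^ ((c - 2) / 2) := by
  have hpos : ∀ s : ℝ, 0 < s + ε → HasDerivAt (fun s : ℝ => (s + ε) ^ (c / 2))
      (c / 2 * (s + ε) ^ ((c - 2) / 2)) s := by
    intro s hs
    have h1 : HasDerivAt (fun s : ℝ => s + ε) 1 s := (hasDerivAt_id s).add_const ε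
    have h2 := h1.rpow_const (p := c / 2) (Or.inl hs.ne')
    refine h2.congr_deriv ?_
    have : (c - 2) / 2 = c / 2 - 1 := by ring
    rw [this]; ring
  have hs0 : 0 < ‖x‖ ^ 2 + ε := by positivity
  have k1 : ∀ᶠ s in 𝓝 (‖x‖ ^ 2), HasDerivAt (fun s : ℝ => (s + ε) ^ (c / 2))
      (c / 2 * (s + ε) ^ ((c - 2) / 2)) s := by
    have ho : IsOpen {s : ℝ | 0 < s + ε} := isOpen_lt continuous_const (by fun_prop)
    filter_upwards [ho.mem_nhds hs0] with s hs
    exact hpos s hs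
  have k2 : HasDerivAt (fun s : ℝ => c / 2 * (s + ε) ^ ((c - 2) / 2))
      (c / 2 * ((c - 2) / 2 * (‖x‖ ^ 2 + ε) ^ ((c - 4) / 2))) (‖x‖ ^ 2) := by
    have h1 : HasDerivAt (fun s : ℝ => s + ε) 1 (‖x‖ ^ 2) := (hasDerivAt_id _).add_const ε
    have h2 := (h1.rpow_const (p := (c - 2) / 2) (Or.inl hs0.ne')).const_mul (c / 2)
    refine h2.congr_deriv ?_
    have : (c - 4) / 2 = (c - 2) / 2 - 1 := by ring
    rw [this]; ring
  have := laplacian_radial k1 k2
  unfold reg
  rw [this]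
  ring

theorem power_step {n : ℕ} (hn : 1 ≤ n) {c : ℝ} (hc : 2 - (n : ℝ) < c) {ψ : En n → ℝ}
    (hψ : ContDiff ℝ ∞ ψ) (hψc : HasCompactSupport ψ) :
    ∫ x, ‖x‖ ^ c * (Δ ψ) x = c * (c + n - 2) * ∫ x, ‖x‖ ^ (c - 2) * ψ x := by
  have hΔc : Continuous (Δ ψ) := (laplacian_contDiff hψ).continuous
  have hΔs : HasCompactSupport (Δ ψ) := laplacian_hasCompactSupport hψc
  have L := tendsto_reg hn (e := c) (by linarith) hΔc hΔs
  have R1 := tendsto_reg hn (e := c - 2) (by linarith) hψ.continuous hψc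
  have : Nontrivial (En n) := by
    have : Nonempty (Fin n) := ⟨⟨0, hn⟩⟩
    infer_instance
  have hne : ∀ᵐ x : En n, x ≠ 0 := by
    have : volume ({0} : Set (En n)) = 0 := measure_singleton 0
    exact measure_eq_zero_iff_ae_notMem.1 this
  -- second regularized integral
  have R2 : Tendsto (fun k : ℕ => ∫ x : En n, (‖x‖ ^ 2 * (‖x‖ ^ 2 + 1 / ((k : ℝ) + 1)) ^ ((c - 4) / 2))
      * ψ x) atTop (𝓝 (∫ x, ‖x‖ ^ (c - 2) * ψ x)) := by
    apply tendsto_integral_of_dominated_convergence _ _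
      (dom_integrable hn (e := c - 2) (by linarith) hψ.continuous hψc)
    · intro k
      filter_upwards [hne] with x hx
      have hx' : 0 < ‖x‖ := norm_pos_iff.2 hx
      have hk : (0 : ℝ) < 1 / ((k : ℝ) + 1) := by positivity
      have hk1 : 1 / ((k : ℝ) + 1) ≤ 1 := by
        rw [div_le_one (by positivity)]
        have : (0 : ℝ) ≤ k := by positivity
        linarith
      rw [norm_mul, Real.norm_eq_abs, Real.norm_eq_abs, abs_of_nonneg (by positivity)]
      apply mul_le_mul_of_nonneg_right _ (abs_nonneg _)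
      refine le_trans ?_ (reg_le hx' hk hk1)
      have hs : 0 < ‖x‖ ^ 2 + 1 / ((k : ℝ) + 1) := by positivity
      have e1 : (‖x‖ ^ 2 + 1 / ((k : ℝ) + 1)) ^ ((c - 2) / 2) =
          (‖x‖ ^ 2 + 1 / ((k : ℝ) + 1)) * (‖x‖ ^ 2 + 1 / ((k : ℝ) + 1)) ^ ((c - 4) / 2) := by
        rw [show (c - 2) / 2 = 1 + (c - 4) / 2 by ring, Real.rpow_add hs, Real.rpow_one]
      rw [e1]
      apply mul_le_mul_of_nonneg_right (by linarith) (by positivity)
    · filter_upwards [hne] with x hx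
      have hx' : 0 < ‖x‖ := norm_pos_iff.2 hx
      apply Tendsto.mul_const
      have h1 : ‖x‖ ^ (c - 2) = ‖x‖ ^ 2 * (‖x‖ ^ 2 + 0) ^ ((c - 4) / 2) := by
        rw [add_zero, ← Real.rpow_natCast, ← Real.rpow_mul hx'.le, ← Real.rpow_add hx']
        congr 1; push_cast; ring
      rw [h1]
      apply Tendsto.const_mul
      apply Tendsto.rpow_const
      · exact tendsto_const_nhds.add tendsto_one_div_add_atTop_nhds_zero_nat
      · left
        positivity
    · intro k
      apply AEStronglyMeasurable.mul _ hψ.continuous.aestronglyMeasurable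
      apply Continuous.aestronglyMeasurable
      apply Continuous.mul (by fun_prop)
      apply Continuous.rpow_const (by fun_prop)
      intro x
      left
      positivity
  -- the identity for the regularized functions
  have key : ∀ k : ℕ, ∫ x : En n, (‖x‖ ^ 2 + 1 / ((k : ℝ) + 1)) ^ (c / 2) * (Δ ψ) x =
      c * (c - 2) * (∫ x : En n, (‖x‖ ^ 2 * (‖x‖ ^ 2 + 1 / ((k : ℝ) + 1)) ^ ((c - 4) / 2)) * ψ x) +
      n * c * (∫ x : En n, (‖x‖ ^ 2 + 1 / ((k : ℝ) + 1)) ^ ((c - 2) / 2) * ψ x) := by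
    intro k
    have hk : (0 : ℝ) < 1 / ((k : ℝ) + 1) := by positivity
    have h1 := ibp_laplacian (reg_contDiff (n := n) c hk) hψ hψc
    have h2 : ∫ x : En n, (‖x‖ ^ 2 + 1 / ((k : ℝ) + 1)) ^ (c / 2) * (Δ ψ) x =
      ∫ x : En n, reg c (1 / ((k : ℝ) + 1)) x * (Δ ψ) x := rfl
    rw [h2, h1]
    have i1 : Integrable (fun x : En n => (‖x‖ ^ 2 * (‖x‖ ^ 2 + 1 / ((k : ℝ) + 1)) ^ ((c - 4) / 2)) * ψ x) := by
      apply Continuous.integrable_of_hasCompactSupport _ hψc.mul_left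
      apply Continuous.mul _ hψ.continuous
      apply Continuous.mul (by fun_prop)
      apply Continuous.rpow_const (by fun_prop)
      intro x; left; positivity
    have i2 : Integrable (fun x : En n => (‖x‖ ^ 2 + 1 / ((k : ℝ) + 1)) ^ ((c - 2) / 2) * ψ x) := by
      apply Continuous.integrable_of_hasCompactSupport _ hψc.mul_left
      apply Continuous.mul _ hψ.continuous
      apply Continuous.rpow_const (by fun_prop)
      intro x; left; positivity
    rw [← integral_const_mul, ← integral_const_mul, ← integral_add (i1.const_mul _) (i2.const_mul _)]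
    congr 1
    ext x
    rw [laplacian_reg c hk]
    ring
  have Rt := (R2.const_mul (c * (c - 2))).add (R1.const_mul (n * c))
  have Lt := L.congr key
  have := tendsto_nhds_unique Lt Rt
  rw [this]
  ring


theorem power_iterate {n : ℕ} (hn : 1 ≤ n) (a : ℝ) (m : ℕ) (ha : 2 * (m : ℝ) - n < a) :
    ∀ φ : En n → ℝ, ContDiff ℝ ∞ φ → HasCompactSupport φ →
    ∫ x, ‖x‖ ^ a * ((fun f : En n → ℝ => -(Δ f))^[m] φ) x =
      (∏ j ∈ Finset.range m, (-((a - 2 * j) * (a - 2 * j + n - 2)))) *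
        ∫ x, ‖x‖ ^ (a - 2 * m) * φ x := by
  induction m with
  | zero =>
    intro φ _ _
    simp
  | succ m ih =>
    intro φ hφ hφc
    have ha' : 2 * (m : ℝ) - n < a := by push_cast at ha; linarith
    have h1 : ContDiff ℝ ∞ (-(Δ φ)) := (laplacian_contDiff hφ).neg
    have h2 : HasCompactSupport (-(Δ φ)) := (laplacian_hasCompactSupport hφc).neg
    rw [Function.iterate_succ_apply, ih ha' _ h1 h2, Finset.prod_range_succ]
    have h3 : ∫ x, ‖x‖ ^ (a - 2 * m) * (-(Δ φ)) x = -∫ x, ‖x‖ ^ (a - 2 * m) * (Δ φ) x := by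
      rw [← integral_neg]
      congr 1
      ext x
      change _ * (-(Δ φ x)) = _
      ring
    rw [h3, power_step hn (c := a - 2 * m) (by push_cast at ha; linarith) hφ hφc]
    have e : a - 2 * ((m + 1 : ℕ) : ℝ) = a - 2 * m - 2 := by push_cast; ring
    rw [e]
    ring

/-- Existence: the leading coefficient is positive; the solution is a multiple of `‖x‖^(-θ)`. -/
theorem exists_solution (n m : ℕ) (hn : 1 ≤ n) (p σ : ℝ) (hp : 1 < p)
    (hθ : 0 < n - 2 * m - (2 * m + σ) / (p - 1))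
    (hA : 0 < ∏ j ∈ Finset.range m, (((2 * m + σ) / (p - 1) + 2 * j) *
      (n - 2 - (2 * m + σ) / (p - 1) - 2 * j))) : ∃ u : En n → ℝ, IsDistSol n m p σ u := by
  set θ : ℝ := (2 * m + σ) / (p - 1) with hθd
  set A : ℝ := ∏ j ∈ Finset.range m, ((θ + 2 * j) * (n - 2 - θ - 2 * j)) with hAd
  have hp1 : 0 < p - 1 := by linarith
  set κ : ℝ := A ^ (1 / (p - 1)) with hκ
  have hκ0 : 0 < κ := Real.rpow_pos_of_pos hA _
  have hκp : κ ^ p = A * κ := by
    have h1 : κ ^ (p - 1) = A := by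
      rw [hκ, ← Real.rpow_mul hA.le]
      have : 1 / (p - 1) * (p - 1) = 1 := by field_simp
      rw [this, Real.rpow_one]
    have h2 : κ ^ p = κ ^ (p - 1) * κ ^ (1 : ℝ) := by
      rw [← Real.rpow_add hκ0]; congr 1; ring
    rw [h2, h1, Real.rpow_one]
  have : Nontrivial (En n) := by
    have : Nonempty (Fin n) := ⟨⟨0, hn⟩⟩
    infer_instance
  have hne : ∀ᵐ x : En n, x ≠ 0 := by
    have : volume ({0} : Set (En n)) = 0 := measure_singleton 0
    exact measure_eq_zero_iff_ae_notMem.1 this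
  have hrhs : ∀ x : En n, x ≠ 0 → ‖x‖ ^ σ * (κ * ‖x‖ ^ (-θ)) ^ p = A * κ * ‖x‖ ^ (-θ - 2 * m) := by
    intro x hx
    have hx' : 0 < ‖x‖ := norm_pos_iff.2 hx
    rw [Real.mul_rpow hκ0.le (by positivity), ← Real.rpow_mul hx'.le, hκp]
    have e : -θ - 2 * m = σ + -θ * p := by
      rw [hθd]; field_simp; ring
    rw [e, Real.rpow_add hx']
    ring
  refine ⟨fun x => κ * ‖x‖ ^ (-θ), ?_, ?_, ?_, ?_, ?_⟩
  · exact Eventually.of_forall fun x => by positivity
  · intro h
    have h2 : ∀ᵐ x : En n, False := by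
      filter_upwards [h, hne] with x hx hx0
      have hx' : 0 < ‖x‖ := norm_pos_iff.2 hx0
      have : 0 < κ * ‖x‖ ^ (-θ) := by positivity
      exact this.ne' hx
    rw [ae_iff] at h2
    simp at h2
  · have h0 : -(n : ℝ) < -θ := by
      have : (0 : ℝ) ≤ m := by positivity
      linarith
    exact LocallyIntegrable.smul (norm_rpow_locallyIntegrable hn h0) κ
  · have h0 : -(n : ℝ) < -θ - 2 * m := by linarith
    have h1 : LocallyIntegrable (fun x : En n => A * κ * ‖x‖ ^ (-θ - 2 * m)) :=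
      LocallyIntegrable.smul (norm_rpow_locallyIntegrable hn h0) (A * κ)
    apply h1.congr
    filter_upwards [hne] with x hx
    exact (hrhs x hx).symm
  · intro φ hφ hφc
    have h1 := power_iterate hn (-θ) m (by linarith) φ hφ hφc
    have h2 : ∫ x, κ * ‖x‖ ^ (-θ) * ((fun f : En n → ℝ => -(Δ f))^[m] φ) x =
        κ * ∫ x, ‖x‖ ^ (-θ) * ((fun f : En n → ℝ => -(Δ f))^[m] φ) x := by
      rw [← integral_const_mul]
      congr 1; ext x; ring
    have h3 : ∫ x, ‖x‖ ^ σ * (κ * ‖x‖ ^ (-θ)) ^ p * φ x =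
        A * κ * ∫ x, ‖x‖ ^ (-θ - 2 * m) * φ x := by
      rw [← integral_const_mul]
      apply integral_congr_ae
      filter_upwards [hne] with x hx
      rw [hrhs x hx]; ring
    rw [h2, h1, h3]
    have h4 : ∏ j ∈ Finset.range m, (-((-θ - 2 * j) * (-θ - 2 * j + n - 2))) = A := by
      rw [hAd]
      apply Finset.prod_congr rfl
      intro j _
      ring
    rw [h4]
    ring


/-- The characterization of the parameters for which a distributional solution exists. -/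
theorem exists_iff (n m : ℕ) (p σ : ℝ) (hn : 1 ≤ n) (hp : 1 < p)
    (hθ : 0 < n - 2 * m - (2 * m + σ) / (p - 1)) :
    (∃ u : En n → ℝ, IsDistSol n m p σ u) ↔
      0 < ∏ j ∈ Finset.range m, ((2 * m + σ) / (p - 1) + 2 * j) := by
  have hpos : 0 < ∏ j ∈ Finset.range m, ((n : ℝ) - 2 - (2 * m + σ) / (p - 1) - 2 * j) := by
    apply Finset.prod_pos
    intro j hj
    have hj' : (j : ℝ) + 1 ≤ m := by exact_mod_cast Finset.mem_range.1 hj
    linarith
  have hmul : ∏ j ∈ Finset.range m, (((2 * m + σ) / (p - 1) + 2 * j) *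
      ((n : ℝ) - 2 - (2 * m + σ) / (p - 1) - 2 * j)) =
      (∏ j ∈ Finset.range m, ((2 * m + σ) / (p - 1) + 2 * j)) *
      ∏ j ∈ Finset.range m, ((n : ℝ) - 2 - (2 * m + σ) / (p - 1) - 2 * j) :=
    Finset.prod_mul_distrib
  constructor
  · rintro ⟨u, hu⟩
    by_contra hcon
    push Not at hcon
    apply no_solution n m hn p σ hp _ u hu
    rw [hmul]
    exact mul_nonpos_of_nonpos_of_nonneg hcon hpos.le
  · intro h
    apply exists_solution n m hn p σ hp hθ
    rw [hmul]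
    exact mul_pos h hpos

end Pool.Agent.Helper25.PH
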